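import Pool.Agent.T2h24.GP.A9
import Pool.Agent.T2h24.GP.QA

/-!
# The derivative with respect to the parameter
-/

set_option autoImplicit false
open Set Filter Topology Metric MeasureTheory

namespace Pool.Agent.T2h24.GP

open Pool.Agent.W746.LD Pool.Agent.T2H09.DH Pool.Agent.T2H09.LU Pool.Agent.T2H09.LV
open Pool.Agent.T2H09.LW N62a1eb23

theorem transv {n : ℕ} (hn : 2 ≤ n) : ∃ C A : ℝ, 0 < C ∧ 0 < A ∧ ∀ c ∈ multibrotSet n,
    ∀ i N : ℕ, 2 ≤ i + N → ∀ d : ℝ, 0 < d → d ≤ 1 →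
    (∀ t < i + N, t ≠ i → d ≤ ‖orb n c c t - orb n c c i‖) →
    d * ‖P n c (orb n c c i) N‖ ≤
      C * ((i + N : ℕ) : ℝ) ^ A * (1 + ‖TH363.QI.D n c (i + N)‖) := by
  have hn2 : (2 : ℝ) ≤ n := by exact_mod_cast hn
  have hln : 0 ≤ Real.log (2 * n) := Real.log_nonneg (by linarith)
  obtain ⟨b, hb⟩ := pow_unbounded_of_one_lt (Real.log (2 * n)) (by norm_num : (1 : ℝ) < 2)
  obtain ⟨A, hA0, hA⟩ := star1 hn (b + 1)
  refine ⟨40, A, by norm_num, hA0, ?_⟩
  intro c hc i N hiN d hd hd1 hsep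
  obtain ⟨M, hM⟩ : ∃ M, M = i + N := ⟨_, rfl⟩
  rw [← hM] at hiN hsep ⊢
  have hM2 : (2 : ℝ) ≤ M := by exact_mod_cast hiN
  have hM0 : (0 : ℝ) < M := by linarith
  have hMA1 : 1 ≤ (M : ℝ) ^ A := Real.one_le_rpow (by linarith) hA0.le
  have hbd := bd_orb hn hc i
  obtain ⟨Dn, hDn⟩ : ∃ Dn, Dn = ‖TH363.QI.D n c M‖ := ⟨_, rfl⟩
  have hDn0 : 0 ≤ Dn := by rw [hDn]; exact norm_nonneg _
  rw [← hDn]
  have hRHS : (40 : ℝ) ≤ 40 * (M : ℝ) ^ A * (1 + Dn) := by
    have : 1 ≤ (M : ℝ) ^ A * (1 + Dn) := by nlinarith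
    linarith
  have hone : d * 1 ≤ 40 * (M : ℝ) ^ A * (1 + Dn) := by linarith
  rcases le_or_gt ‖P n c (orb n c c i) N‖ 1 with hP1 | hP1
  · exact (mul_le_mul_of_nonneg_left hP1 hd.le).trans hone
  have hN1 : i < M := by
    by_contra hlt
    have hN0 : N = 0 := by omega
    rw [hN0, P_zero, norm_one] at hP1
    exact lt_irrefl _ hP1
  -- the critical point is not on the orbit
  have h0 : ∀ j < M, orb n c c j ≠ 0 := by
    intro j hj h0
    rcases lt_or_ge j i with h1 | h1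
    · have h2 : orb n c c (j + 1) = c := by
        rw [orb_succ, h0, zero_pow (by omega), zero_add]
      have h3 : orb n c c i = orb n c c (i - (j + 1)) := by
        have h4 : i = (j + 1) + (i - (j + 1)) := by omega
        conv_lhs => rw [h4]
        rw [orb_add, h2]
      have h5 := hsep (i - (j + 1)) (by omega) (by omega)
      rw [← h3, sub_self, norm_zero] at h5
      linarith
    · obtain ⟨s, hs⟩ : ∃ s, j = i + s := ⟨j - i, by omega⟩
      have h2 : P n c (orb n c c i) (s + 1) = 0 := by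
        rw [P_succ, ← orb_add, ← hs, h0, zero_pow (by omega), mul_zero, mul_zero]
      have h3 : P n c (orb n c c i) N = 0 := by
        have h4 : N = (s + 1) + (N - (s + 1)) := by omega
        rw [h4, P_add, h2, zero_mul]
      rw [h3, norm_zero] at hP1
      linarith
  have hPi : 0 < ‖P n c c i‖ := norm_pos_iff.mpr (P_ne hn h0 hN1.le)
  have hPM : 0 < ‖P n c c M‖ := norm_pos_iff.mpr (P_ne hn h0 le_rfl)
  have hPMi : ‖P n c c M‖ = ‖P n c c i‖ * ‖P n c (orb n c c i) N‖ := by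
    rw [hM, norm_P_add]
  have hMb : Real.log (2 * n) * M ≤ (M : ℝ) ^ (b + 1) := by
    rw [pow_succ]
    apply mul_le_mul_of_nonneg_right _ hM0.le
    calc Real.log (2 * n) ≤ (2 : ℝ) ^ b := hb.le
      _ ≤ (M : ℝ) ^ b := by gcongr
  have hw : ∀ t < M, ‖P n c c i * (P n c c t)⁻¹‖ ≤ Real.exp ((M : ℝ) ^ (b + 1)) := by
    intro t ht
    have hPt : 0 < ‖P n c c t‖ := norm_pos_iff.mpr (P_ne hn h0 ht.le)
    have h1 := P_ratio hn hc t (M - t)
    rw [Nat.add_sub_cancel' ht.le] at h1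
    have h2 : (2 * (n : ℝ)) ^ (M - t) ≤ (2 * n) ^ M := pow_le_pow_right₀ (by linarith) (by omega)
    have h3 : (2 * (n : ℝ)) ^ M ≤ Real.exp ((M : ℝ) ^ (b + 1)) := by
      calc (2 * (n : ℝ)) ^ M = Real.exp (Real.log (2 * n) * M) := by
            rw [mul_comm (Real.log _) (M : ℝ), Real.exp_nat_mul, Real.exp_log (by linarith)]
        _ ≤ _ := Real.exp_le_exp.mpr hMb
    rw [norm_mul, norm_inv, ← div_eq_mul_inv, div_le_iff₀ hPt]
    calc ‖P n c c i‖ ≤ ‖P n c c M‖ := by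
          rw [hPMi]
          exact le_mul_of_one_le_right hPi.le hP1.le
      _ ≤ ‖P n c c t‖ * (2 * n) ^ (M - t) := h1
      _ ≤ ‖P n c c t‖ * Real.exp ((M : ℝ) ^ (b + 1)) := by
          gcongr
          exact h2.trans h3
      _ = _ := mul_comm _ _
  obtain ⟨l, hl⟩ : ∃ l, l = Real.log M := ⟨_, rfl⟩
  obtain ⟨m, hm⟩ : ∃ m, m = -Real.log d := ⟨_, rfl⟩
  have hexpm : Real.exp (-m) = d := by rw [hm, neg_neg, Real.exp_log hd]
  have hm0 : 0 ≤ m := by
    rw [hm]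
    have := Real.log_nonpos hd.le hd1
    linarith
  have hMAl : (M : ℝ) ^ A = Real.exp (A * l) := by
    rw [Real.rpow_def_of_pos hM0, hl, mul_comm]
  have hPN : 0 < ‖P n c (orb n c c i) N‖ := by linarith
  rcases le_or_gt (m + A * Real.log M) (kx n c (orb n c c i) M) with hwin | hwin
  · -- the main estimate
    have ho := mem_multibrot_orb hn hc
    have hfst := er_fst0 (n := n) (c := c) M ho
    obtain ⟨ε, hε⟩ : ∃ ε, ε = 2 * Real.pi * 6 * (‖(P n c c M)⁻¹‖ + ‖S n c c (M + 1)‖) := ⟨_, rfl⟩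
    rw [← hε] at hfst
    have hpi := Real.pi_pos
    have hinv : 0 < ‖(P n c c M)⁻¹‖ := by rw [norm_inv]; positivity
    have hε0 : 0 < ε := by rw [hε]; positivity
    have hεeq : ε * ‖P n c c M‖ = 12 * Real.pi * (1 + Dn) := by
      rw [hε, hDn, D_eq' M (P_ne hn h0 le_rfl), norm_mul, norm_inv]
      field_simp
      ring
    have h1 := hA c hc i M M hiN hN1 le_rfl h0 hw ε m hε0 hm0 hfst
      (fun t ht hti => by rw [hexpm]; exact hsep t ht hti) hwin
    rw [← hl] at h1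
    have h2 : 1 ≤ ‖P n c c i‖ * ε * (M : ℝ) ^ A / d := by
      have h3 := Real.exp_le_exp.mpr h1
      rw [Real.exp_zero] at h3
      refine h3.trans (le_of_eq ?_)
      unfold aa
      rw [Real.exp_add, Real.exp_add, Real.exp_add, Real.exp_log hPi, Real.exp_log hε0, hMAl]
      have e : Real.exp m = 1 / d := by
        rw [← hexpm, one_div, ← Real.exp_neg, neg_neg]
      rw [e]
      ring
    rw [le_div_iff₀ hd, one_mul] at h2
    have hpi4 : Real.pi ≤ 3.15 := Real.pi_lt_d2.le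
    calc d * ‖P n c (orb n c c i) N‖
        ≤ ‖P n c c i‖ * ε * (M : ℝ) ^ A * ‖P n c (orb n c c i) N‖ := by gcongr
      _ = ε * (‖P n c c i‖ * ‖P n c (orb n c c i) N‖) * (M : ℝ) ^ A := by ring
      _ = 12 * Real.pi * (1 + Dn) * (M : ℝ) ^ A := by rw [← hPMi, hεeq]
      _ ≤ 40 * (1 + Dn) * (M : ℝ) ^ A := by
          gcongr
          linarith
      _ = _ := by ring
  · -- there is no window
    have h1 := dx_der hn hc hbd N
    have h2 := dx_mono hn hc (orb n c c i) (by omega : N ≤ M)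
    have h3 := dx_pos hn hc hbd M
    have h4 : Real.exp (-(m + A * l)) ≤ dx n c (orb n c c i) M := by
      rw [← exp_kx hn hc hbd M]
      apply Real.exp_le_exp.mpr
      rw [hl]
      linarith
    have e : Real.exp (-(m + A * l)) = d / (M : ℝ) ^ A := by
      rw [neg_add, Real.exp_add, hexpm, Real.exp_neg, ← hMAl, div_eq_mul_inv]
    rw [e, div_le_iff₀ (by positivity)] at h4
    have h5 : d ≤ dx n c (orb n c c i) N * (M : ℝ) ^ A :=
      h4.trans (mul_le_mul_of_nonneg_right h2 (by positivity))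
    calc d * ‖P n c (orb n c c i) N‖
        ≤ dx n c (orb n c c i) N * (M : ℝ) ^ A * ‖P n c (orb n c c i) N‖ := by gcongr
      _ = dx n c (orb n c c i) N * ‖P n c (orb n c c i) N‖ * (M : ℝ) ^ A := by ring
      _ ≤ 3 * (M : ℝ) ^ A := by gcongr
      _ ≤ 40 * (M : ℝ) ^ A * (1 + Dn) := by
          have : 0 ≤ (M : ℝ) ^ A * Dn := by positivity
          linarith

/-- The derivative with respect to the parameter and the area of the filled Julia set. -/
theorem D_area {n : ℕ} (hn : 2 ≤ n) : ∃ κ : ℝ, 0 < κ ∧ ∀ (c : ℂ) (r : ℝ), 0 < r →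
    ball c r ⊆ multibrotSet n → ∀ j : ℕ,
    κ * (r * ‖TH363.QI.D n c j‖) ≤ √(volume (Pool.Agent.H713R2.AR.KK n c)).toReal := by
  obtain ⟨κ, hκ, h⟩ := queer_area
  refine ⟨√κ, Real.sqrt_pos.mpr hκ, ?_⟩
  intro c r hr hsub j
  have h1 := h n hn c r hr hsub (j + 1) (by omega)
  have hfun : (fun t : ℂ => (fun z : ℂ => z ^ n + t)^[j + 1] 0) = fun t => orb n t t j := by
    funext t
    exact P_eq_orb hn j t
  rw [hfun, (TH363.QI.hasDerivAt_D n c j).deriv] at h1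
  have h2 := Real.sqrt_le_sqrt h1
  rw [Real.sqrt_mul hκ.le, Real.sqrt_sq (by positivity)] at h2
  exact h2

theorem growth_area {n : ℕ} (hn : 2 ≤ n) : ∃ C A : ℝ, 0 < C ∧ 0 < A ∧ ∀ c ∈ multibrotSet n,
    ∀ i N : ℕ, 2 ≤ i + N → ∀ d : ℝ, 0 < d → d ≤ 1 →
    (∀ t < i + N, t ≠ i → d ≤ ‖orb n c c t - orb n c c i‖) → ∀ r : ℝ, 0 < r →
    ball c r ⊆ multibrotSet n →
    r * d * ‖P n c (orb n c c i) N‖ ≤ C * ((i + N : ℕ) : ℝ) ^ A *
      √(volume (Pool.Agent.H713R2.AR.KK n c)).toReal := by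
  obtain ⟨C, A, hC, hA, h⟩ := transv hn
  obtain ⟨κ, hκ, hD⟩ := D_area hn
  refine ⟨2 * C / κ, A, by positivity, hA, ?_⟩
  intro c hc i N hiN d hd hd1 hsep r hr hsub
  have h1 := h c hc i N hiN d hd hd1 hsep
  have h2 := hD c r hr hsub (i + N)
  have h3 := hD c r hr hsub 0
  rw [TH363.QI.D_zero, norm_one, mul_one] at h3
  have hM : (0 : ℝ) ≤ ((i + N : ℕ) : ℝ) ^ A := by positivity
  obtain ⟨V, hV⟩ : ∃ V, V = √(volume (Pool.Agent.H713R2.AR.KK n c)).toReal := ⟨_, rfl⟩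
  rw [← hV] at h2 h3 ⊢
  calc r * d * ‖P n c (orb n c c i) N‖ = r * (d * ‖P n c (orb n c c i) N‖) := by ring
    _ ≤ r * (C * ((i + N : ℕ) : ℝ) ^ A * (1 + ‖TH363.QI.D n c (i + N)‖)) := by gcongr
    _ = C * ((i + N : ℕ) : ℝ) ^ A * ((κ * r + κ * (r * ‖TH363.QI.D n c (i + N)‖)) / κ) := by
        field_simp
    _ ≤ C * ((i + N : ℕ) : ℝ) ^ A * ((V + V) / κ) := by gcongr
    _ = 2 * C / κ * ((i + N : ℕ) : ℝ) ^ A * V := by ring

end Pool.Agent.T2h24.GP
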