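import Pool.Agent.T2h24.GP.A8

/-!
# Growth and separation at a point of the critical orbit
-/

set_option autoImplicit false
open Set Filter Topology Metric

namespace Pool.Agent.T2h24.GP

open Pool.Agent.W746.LD Pool.Agent.T2H09.DH Pool.Agent.T2H09.LU Pool.Agent.T2H09.LV
open Pool.Agent.T2H09.LW N62a1eb23

/-- There is a parameter at distance at most `s` with an attracting cycle. -/
def NearH (n : ℕ) (c : ℂ) (s : ℝ) : Prop :=
  ∃ c' : ℂ, ‖c' - c‖ ≤ s ∧ ∃ p z, IsAttractingCycle (fun z => z ^ n + c') p z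

lemma NearH.mono {n : ℕ} {c : ℂ} {s s' : ℝ} (h : NearH n c s) (hs : s ≤ s') : NearH n c s' := by
  obtain ⟨c', h1, h2⟩ := h
  exact ⟨c', h1.trans hs, h2⟩

lemma nearH_of_zero {n : ℕ} (hn : 2 ≤ n) {c : ℂ} {j : ℕ} (h : orb n c c j = 0) {s : ℝ}
    (hs : 0 ≤ s) : NearH n c s := by
  obtain ⟨c', h1, p, -, z, hz⟩ := near_of_zero hn (Nat.lt_succ_self j) h hs
  exact ⟨c', h1, p, z, hz⟩

/-- Large derivatives at a point of the critical orbit. -/
theorem growD {n : ℕ} (hn : 2 ≤ n) : ∃ C ε : ℝ, 0 < C ∧ 0 < ε ∧ ∀ c ∈ multibrotSet n,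
    ∀ i N : ℕ, 2 ≤ i + N → ∀ ρ : ℝ, 0 < ρ → ρ ≤ 1 →
    (∀ t < i, ρ ≤ ‖orb n c c t - orb n c c i‖) →
    Real.exp (C * Real.log ((i + N : ℕ) : ℝ) ^ 2) ≤ ρ * ‖P n c (orb n c c i) N‖ →
    NearH n c ((ρ * ‖P n c (orb n c c i) N‖) ^ (-(ε / Real.log ((i + N : ℕ) : ℝ)))) := by
  obtain ⟨C, ε, hC, hε, h⟩ := growthx hn
  obtain ⟨l2, hl2⟩ : ∃ l2, l2 = Real.log 2 := ⟨_, rfl⟩
  have hl20 : 0 < l2 := by rw [hl2]; exact Real.log_pos (by norm_num)
  have hlog3 : Real.log 3 ≤ 2 := by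
    have := Real.log_le_sub_one_of_pos (show (0 : ℝ) < 3 by norm_num)
    linarith
  refine ⟨C + 4 / l2 ^ 2, ε / 2, by positivity, by positivity, ?_⟩
  intro c hc i N hiN ρ hρ hρ1 hsep hyp
  have hbd := bd_orb hn hc i
  obtain ⟨y, hy1, hy2⟩ := dx_exists hn hc (orb n c c i) N
  have hder := dx_der hn hc hbd N
  have hdx := dx_pos hn hc hbd N
  rw [← hy1] at hder hdx
  obtain ⟨M, hM⟩ : ∃ M, M = i + N := ⟨_, rfl⟩
  rw [← hM] at hyp hiN ⊢
  have h' := h c hc i N (by omega) ρ hρ hρ1 hsep y hy2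
  rw [← hM] at h'
  have hM2 : (2 : ℝ) ≤ M := by exact_mod_cast hiN
  obtain ⟨l, hl⟩ : ∃ l, l = Real.log M := ⟨_, rfl⟩
  have hll : l2 ≤ l := by rw [hl, hl2]; exact Real.log_le_log (by norm_num) hM2
  have hl0 : 0 < l := by linarith
  rw [← hl] at hyp h' ⊢
  have hsq : l2 ^ 2 ≤ l ^ 2 := by gcongr
  have h4 : 4 ≤ 4 / l2 ^ 2 * l ^ 2 := by
    rw [div_mul_eq_mul_div, le_div_iff₀ (by positivity)]
    nlinarith
  obtain ⟨D, hD⟩ : ∃ D, D = ρ * ‖P n c (orb n c c i) N‖ := ⟨_, rfl⟩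
  rw [← hD] at hyp ⊢
  have hD0 : 0 < D := (Real.exp_pos _).trans_le hyp
  have hlD : (C + 4 / l2 ^ 2) * l ^ 2 ≤ Real.log D := by rwa [Real.le_log_iff_exp_le hD0]
  have hCl : 0 ≤ C * l ^ 2 := by positivity
  have hq : ‖y - orb n c c i‖ / ρ ≤ 3 / D := by
    have hP : 0 < ‖P n c (orb n c c i) N‖ := by
      rw [hD] at hD0
      exact pos_of_mul_pos_right hD0 hρ.le
    rw [hD, div_le_div_iff₀ hρ (by positivity)]
    nlinarith
  have hq0 : 0 < ‖y - orb n c c i‖ / ρ := by positivity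
  have hlq : Real.log (‖y - orb n c c i‖ / ρ) ≤ 2 - Real.log D := by
    have h5 := Real.log_le_log hq0 hq
    rw [Real.log_div (by norm_num) hD0.ne'] at h5
    linarith
  have h5 : ‖y - orb n c c i‖ ≤ ρ * Real.exp (-(C * l ^ 2)) := by
    rw [mul_comm, ← div_le_iff₀ hρ, ← Real.log_le_iff_le_exp hq0]
    linarith
  obtain ⟨c', h6, h7⟩ := h' h5
  refine ⟨c', h6.trans ?_, h7⟩
  rw [Real.rpow_def_of_pos hq0, Real.rpow_def_of_pos hD0]
  apply Real.exp_le_exp.mpr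
  have h8 : Real.log (‖y - orb n c c i‖ / ρ) ≤ -(Real.log D / 2) := by linarith
  calc Real.log (‖y - orb n c c i‖ / ρ) * (ε / l) ≤ -(Real.log D / 2) * (ε / l) := by gcongr
    _ = Real.log D * -(ε / 2 / l) := by ring

/-- Separation of orbits near a point of the critical orbit. -/
theorem sepx {n : ℕ} (hn : 2 ≤ n) {κ : ℝ} (hκ0 : 0 ≤ κ) (hκ1 : κ < 1) :
    ∃ C ε : ℝ, 0 < C ∧ 0 < ε ∧ ∀ c ∈ multibrotSet n,
    ∀ i N : ℕ, 2 ≤ i + N → ∀ ρ : ℝ, 0 < ρ → ρ ≤ 1 →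
    (∀ t < i, ρ ≤ ‖orb n c c t - orb n c c i‖) → ∀ y : ℂ,
    ‖y - orb n c c i‖ ≤ ρ * Real.exp (-(C * Real.log ((i + N : ℕ) : ℝ) ^ 2)) →
    (‖y - orb n c c i‖ / ρ) ^ κ < ‖orb n c y N - orb n c (orb n c c i) N‖ →
    NearH n c ((‖y - orb n c c i‖ / ρ) ^ (ε / Real.log ((i + N : ℕ) : ℝ))) := by
  obtain ⟨C1, ε1, hC1, hε1, h1⟩ := growD hn
  obtain ⟨C2, ε2, hC2, hε2, h2⟩ := rec_aux2 hn
  obtain ⟨l2, hl2⟩ : ∃ l2, l2 = Real.log 2 := ⟨_, rfl⟩
  have hl20 : 0 < l2 := by rw [hl2]; exact Real.log_pos (by norm_num)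
  have hn2 : (2 : ℝ) ≤ n := by exact_mod_cast hn
  have hln : 0 ≤ Real.log (2 * n) := Real.log_nonneg (by linarith)
  obtain ⟨δ, hδ⟩ : ∃ δ, δ = (1 - κ) / 4 := ⟨_, rfl⟩
  have hδ0 : 0 < δ := by rw [hδ]; linarith
  have hδ1 : δ ≤ 1 / 4 := by rw [hδ]; linarith
  obtain ⟨C0, hC0⟩ : ∃ C0, C0 = C1 + C2 + (Real.log (2 * n) + 1) / l2 ^ 2 + 1 / l2 := ⟨_, rfl⟩
  have hC00 : 0 < C0 := by rw [hC0]; positivity
  refine ⟨2 / δ * C0, min ε1 ε2 * δ, by positivity, by positivity, ?_⟩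
  intro c hc i N hiN ρ hρ hρ1 hsep y hyp hys
  have hbd := bd_orb hn hc i
  obtain ⟨M, hM⟩ : ∃ M, M = i + N := ⟨_, rfl⟩
  rw [← hM] at hyp hiN ⊢
  have hM2 : (2 : ℝ) ≤ M := by exact_mod_cast hiN
  obtain ⟨l, hl⟩ : ∃ l, l = Real.log M := ⟨_, rfl⟩
  have hll : l2 ≤ l := by rw [hl, hl2]; exact Real.log_le_log (by norm_num) hM2
  have hl0 : 0 < l := by linarith
  rw [← hl] at hyp ⊢
  have hs : 0 ≤ (‖y - orb n c c i‖ / ρ) ^ (min ε1 ε2 * δ / l) := by positivity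
  by_cases h0 : ∀ j < M, orb n c c j ≠ 0
  swap
  · push Not at h0
    obtain ⟨j, hj, h3⟩ := h0
    exact nearH_of_zero hn h3 hs
  have hyc : 0 < ‖y - orb n c c i‖ := by
    rw [norm_pos_iff, sub_ne_zero]
    intro h3
    rw [h3, sub_self, sub_self, norm_zero, zero_div] at hys
    have : (0 : ℝ) ≤ 0 ^ κ := by positivity
    linarith
  have hsq : l2 ^ 2 ≤ l ^ 2 := by gcongr
  have hp1 : 0 ≤ C1 * l ^ 2 := by positivity
  have hp2 : 0 ≤ C2 * l ^ 2 := by positivity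
  have hsq2 : l ≤ 1 / l2 * l ^ 2 := by
    rw [div_mul_eq_mul_div, le_div_iff₀ hl20]
    nlinarith
  have hsq3 : Real.log (2 * n) + 1 ≤ (Real.log (2 * n) + 1) / l2 ^ 2 * l ^ 2 := by
    rw [div_mul_eq_mul_div, le_div_iff₀ (by positivity)]
    gcongr
  obtain ⟨a, ha⟩ : ∃ a, a = -Real.log ‖y - orb n c c i‖ := ⟨_, rfl⟩
  obtain ⟨m0, hm0⟩ : ∃ m0, m0 = -Real.log ρ := ⟨_, rfl⟩
  have hexpa : Real.exp (-a) = ‖y - orb n c c i‖ := by rw [ha, neg_neg, Real.exp_log hyc]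
  have hexpm : Real.exp (-m0) = ρ := by rw [hm0, neg_neg, Real.exp_log hρ]
  have hm00 : 0 ≤ m0 := by
    rw [hm0]
    have := Real.log_nonpos hρ.le hρ1
    linarith
  obtain ⟨x, hx⟩ : ∃ x, x = a - m0 := ⟨_, rfl⟩
  have hquot : ‖y - orb n c c i‖ / ρ = Real.exp (-x) := by
    rw [← hexpa, ← hexpm, ← Real.exp_sub, hx]
    congr 1
    ring
  have hxC : 2 / δ * C0 * l ^ 2 ≤ x := by
    rw [← hexpa, ← hexpm, ← Real.exp_add, Real.exp_le_exp] at hyp
    rw [hx]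
    linarith
  have hδx : 2 * (C0 * l ^ 2) ≤ δ * x := by
    have h3 : δ * (2 / δ * C0 * l ^ 2) ≤ δ * x := by gcongr
    have e : δ * (2 / δ * C0 * l ^ 2) = 2 * (C0 * l ^ 2) := by field_simp
    linarith
  have hC0l : C1 * l ^ 2 + C2 * l ^ 2 + (Real.log (2 * n) + 1) + l ≤ C0 * l ^ 2 := by
    rw [hC0]
    linarith
  have hx0 : 0 < x := lt_of_lt_of_le (by positivity) hxC
  have fin : ∀ ε' v : ℝ, min ε1 ε2 ≤ ε' → δ * x ≤ v →
      NearH n c (Real.exp (-(ε' * v / l))) →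
      NearH n c ((‖y - orb n c c i‖ / ρ) ^ (min ε1 ε2 * δ / l)) := by
    intro ε' v hε' hv hnear
    refine hnear.mono ?_
    rw [hquot, ← Real.exp_mul]
    apply Real.exp_le_exp.mpr
    have hm : 0 < min ε1 ε2 := lt_min hε1 hε2
    have hε'0 : 0 ≤ ε' := hm.le.trans hε'
    have h3 : min ε1 ε2 * (δ * x) / l ≤ ε' * v / l := by gcongr
    have e : -x * (min ε1 ε2 * δ / l) = -(min ε1 ε2 * (δ * x) / l) := by ring
    rw [e]
    linarith
  by_cases hg : ∃ t, i < t ∧ t ≤ M ∧ m0 + δ * x ≤ aa n c t - aa n c i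
  · obtain ⟨t, ht1, ht2, ht3⟩ := hg
    have hit : i + (t - i) = t := by omega
    have hPt := norm_Pi hn h0 (i := i) (t := t - i) (by omega)
    rw [hit] at hPt
    have ht2' : 2 ≤ t := by
      by_contra hlt
      have ht : t = 1 := by omega
      have hi0 : i = 0 := by omega
      rw [ht, hi0] at ht3
      have h5 : aa n c 1 - aa n c 0 ≤ Real.log (2 * n) := by
        unfold aa
        rw [P_zero, norm_one, Real.log_one, sub_zero]
        have h6 := P_ratio hn hc 0 1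
        rw [zero_add, P_zero, norm_one, one_mul, pow_one] at h6
        exact Real.log_le_log (norm_pos_iff.mpr (P_ne hn h0 (by omega))) h6
      have h6 : 0 ≤ C0 * l ^ 2 := by positivity
      linarith
    have ht2'' : (2 : ℝ) ≤ t := by exact_mod_cast ht2'
    have hlt0 : 0 < Real.log t := Real.log_pos (by linarith)
    have hlt : Real.log t ≤ l := by
      rw [hl]
      exact Real.log_le_log (by linarith) (by exact_mod_cast ht2)
    have h3 := h1 c hc i (t - i) (by omega) ρ hρ hρ1 hsep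
    rw [hit, hPt, ← hexpm, ← Real.exp_add] at h3
    have h4 := h3 (by
      apply Real.exp_le_exp.mpr
      have h5 : C1 * Real.log t ^ 2 ≤ C1 * l ^ 2 := by gcongr
      linarith)
    apply fin ε1 (-m0 + (aa n c t - aa n c i)) (min_le_left _ _) (by linarith)
    refine h4.mono ?_
    rw [← Real.exp_mul]
    apply Real.exp_le_exp.mpr
    have h5 : 0 ≤ -m0 + (aa n c t - aa n c i) := by
      have : 0 ≤ δ * x := by positivity
      linarith
    have h6 : ε1 * (-m0 + (aa n c t - aa n c i)) / l ≤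
        ε1 * (-m0 + (aa n c t - aa n c i)) / Real.log t := by gcongr
    have e : (-m0 + (aa n c t - aa n c i)) * -(ε1 / Real.log t) =
        -(ε1 * (-m0 + (aa n c t - aa n c i)) / Real.log t) := by ring
    rw [e]
    linarith
  by_cases hk : ∃ t, 1 ≤ t ∧ t ≤ M ∧ δ * x ≤ kk n c t
  · obtain ⟨t, ht1, ht2, ht3⟩ := hk
    have h3 := h2 c hc M hiN h0 t ht1 ht2
    rw [← hl] at h3
    obtain ⟨c', h4, p, -, z, hz⟩ := h3 (by linarith)
    exact fin ε2 (kk n c t) (min_le_right _ _) ht3 ⟨c', h4, p, z, hz⟩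
  push Not at hg hk
  exfalso
  have hN1 : 1 ≤ N := by
    by_contra hlt
    have hN0 : N = 0 := by omega
    rw [hN0, orb_zero, orb_zero] at hys
    have h3 : ‖y - orb n c c i‖ ≤ ‖y - orb n c c i‖ / ρ := by
      rw [le_div_iff₀ hρ]
      exact mul_le_of_le_one_right hyc.le hρ1
    have h4 : ‖y - orb n c c i‖ / ρ ≤ (‖y - orb n c c i‖ / ρ) ^ κ := by
      have h5 : 0 < ‖y - orb n c c i‖ / ρ := by positivity
      have h6 : ‖y - orb n c c i‖ / ρ ≤ 1 := by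
        rw [hquot, Real.exp_le_one_iff]
        linarith
      calc ‖y - orb n c c i‖ / ρ = (‖y - orb n c c i‖ / ρ) ^ (1 : ℝ) := (Real.rpow_one _).symm
        _ ≤ _ := Real.rpow_le_rpow_of_exponent_ge h5 h6 hκ1.le
    linarith
  have hδx4 : 4 * (δ * x) = (1 - κ) * x := by rw [hδ]; ring
  have hκx : 0 ≤ κ * x := by positivity
  have h3 := shadow_i hn (by omega : 1 ≤ M) h0 (i := i) (N := N) (by omega) (σ := a)
    (fun t ht1 ht2 => by
      have h4 := hg t ht1 (by omega)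
      have h5 := hk t (by omega) (by omega)
      rw [← hl]
      linarith) (x := y) hexpa.ge N le_rfl
  have h4 := hg M (by omega) le_rfl
  rw [← orb_add] at hys
  rw [← hM] at h3 hys
  have h5 : Real.exp (1 + (aa n c M - aa n c i) - a) ≤ (‖y - orb n c c i‖ / ρ) ^ κ := by
    rw [hquot, ← Real.exp_mul]
    apply Real.exp_le_exp.mpr
    linarith
  linarith

lemma closure_of_nearH {n : ℕ} {c : ℂ}
    (h : ∀ δ : ℝ, 0 < δ → NearH n c δ) : c ∈ closure (Hy n) := by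
  rw [Metric.mem_closure_iff]
  intro δ hδ
  obtain ⟨c', h1, p, z, hz⟩ := h (δ / 2) (by linarith)
  refine ⟨c', ⟨p, z, hz⟩, ?_⟩
  rw [dist_comm, dist_eq_norm]
  linarith

end Pool.Agent.T2h24.GP
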