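import Pool.Agent.T2h24.GP.A10

/-!
# Polynomial estimates: close returns to a point of the critical orbit
-/

set_option autoImplicit false
open Set Filter Topology Metric

namespace Pool.Agent.T2h24.GP

open Pool.Agent.W746.LD Pool.Agent.T2H09.DH Pool.Agent.T2H09.LU Pool.Agent.T2H09.LV
open Pool.Agent.T2H09.LW N62a1eb23

/-- The closing lemma with polynomial loss. -/
theorem closP {n : ℕ} (hn : 2 ≤ n) : ∃ C A : ℝ, 0 < C ∧ 0 < A ∧ ∀ c ∈ multibrotSet n,
    ∀ M : ℕ, 2 ≤ M → ∀ i j N : ℕ, i < j → j ≤ M → N ≤ M → ∀ d : ℝ, 0 < d → d ≤ 1 →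
    (∀ t < j, t ≠ i → d ≤ ‖orb n c c t - orb n c c i‖) → ∀ Λ : ℝ, (M : ℝ) ^ A ≤ d * Λ →
    Expd n c i N Λ → ∀ s : ℝ, C * (M : ℝ) ^ A * (‖orb n c c j - orb n c c i‖ / d) *
      (5 - Real.log ‖orb n c c j - orb n c c i‖) < s → NearH n c s := by
  obtain ⟨E1, hE1, hmassE⟩ := er_massV hn
  obtain ⟨A1, hA10, hA1⟩ := stA hn
  obtain ⟨A3, hA30, hA3⟩ := stB hn
  obtain ⟨B, hB1, hB⟩ := kk_bound hn
  obtain ⟨E, hE⟩ : ∃ E, E = E1 + 100 := ⟨_, rfl⟩
  have hE0 : 0 < E := by linarith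
  have hlE : 0 ≤ Real.log E := Real.log_nonneg (by linarith)
  obtain ⟨K0, hK0⟩ : ∃ K0, K0 = Real.log (5 + B) := ⟨_, rfl⟩
  have hK00 : 0 ≤ K0 := by rw [hK0]; exact Real.log_nonneg (by linarith)
  obtain ⟨l2, hl2⟩ : ∃ l2, l2 = Real.log 2 := ⟨_, rfl⟩
  have hl20 : 0 < l2 := by rw [hl2]; exact Real.log_pos (by norm_num)
  obtain ⟨C0, hC0⟩ : ∃ C0, C0 = Real.exp (Real.log E + K0 + 4) := ⟨_, rfl⟩
  have hC00 : 0 < C0 := by rw [hC0]; exact Real.exp_pos _
  have hlC0 : Real.log C0 = Real.log E + K0 + 4 := by rw [hC0, Real.log_exp]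
  obtain ⟨A, hA⟩ : ∃ A, A = A1 + A3 + 4 / l2 + 2 := ⟨_, rfl⟩
  have hA0 : 0 < A := by rw [hA]; positivity
  refine ⟨2 * C0, A, by positivity, hA0, ?_⟩
  intro c hc M hM i j N hij hjM hNM d hd hd1 hsep Λ hΛ hExp s hs
  by_contra hcon
  have hM2 : (2 : ℝ) ≤ M := by exact_mod_cast hM
  have hM0 : (0 : ℝ) < M := by linarith
  obtain ⟨l, hl⟩ : ∃ l, l = Real.log M := ⟨_, rfl⟩
  have hll : l2 ≤ l := by rw [hl, hl2]; exact Real.log_le_log (by norm_num) hM2
  have hl0 : 0 < l := by linarith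
  have hbd := bd_orb hn hc i
  have hMA : 0 < (M : ℝ) ^ A := by positivity
  have hΛ0 : 0 < Λ := by
    have h1 : 0 < d * Λ := hMA.trans_le hΛ
    exact pos_of_mul_pos_right h1 hd.le
  have h5pos : 0 < 5 - Real.log ‖orb n c c j - orb n c c i‖ := by
    rcases eq_or_ne (orb n c c j) (orb n c c i) with h1 | h1
    · rw [h1, sub_self, norm_zero, Real.log_zero]
      norm_num
    · have := kd_ge hn hc h1
      unfold kd at this
      linarith
  have hs0 : 0 < s := by
    refine lt_of_le_of_lt ?_ hs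
    positivity
  have hball' : ∀ t ∈ ball c s, ¬ ∃ m z, IsAttractingCycle (fun z => z ^ n + t) m z := by
    rintro t ht ⟨p, z, hz⟩
    rw [mem_ball, dist_eq_norm] at ht
    exact hcon ⟨t, ht.le, p, z, hz⟩
  have hne : orb n c c j ≠ orb n c c i := no_coinc hn hc hs0 hball' (mem_ball_self hs0) hij
  have hρ : 0 < ‖orb n c c j - orb n c c i‖ := norm_pos_iff.mpr (sub_ne_zero.mpr hne)
  obtain ⟨x, hx⟩ : ∃ x, x = kd n c i j := ⟨_, rfl⟩
  have hx2 : -2 ≤ x := by rw [hx]; exact kd_ge hn hc hne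
  have hxlog : Real.log ‖orb n c c j - orb n c c i‖ = -x := by rw [hx]; unfold kd; ring
  have h5x : 0 < 5 + x := by linarith
  have hl5x : 0 ≤ Real.log (5 + x) := Real.log_nonneg (by linarith)
  obtain ⟨m, hm⟩ : ∃ m, m = -Real.log d := ⟨_, rfl⟩
  have hexpm : Real.exp (-m) = d := by rw [hm, neg_neg, Real.exp_log hd]
  have hm0 : 0 ≤ m := by
    rw [hm]
    have := Real.log_nonpos hd.le hd1
    linarith
  obtain ⟨r, hr⟩ : ∃ r, r = C0 * (M : ℝ) ^ A * (‖orb n c c j - orb n c c i‖ / d) * (5 + x) :=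
    ⟨_, rfl⟩
  have hr0 : 0 < r := by rw [hr]; positivity
  have hlr : Real.log r = Real.log E + K0 + 4 + A * l - x + m + Real.log (5 + x) := by
    rw [hr, Real.log_mul (by positivity) (by positivity), Real.log_mul (by positivity)
      (by positivity), Real.log_mul (by positivity)
      (by positivity), Real.log_rpow hM0, Real.log_div hρ.ne' hd.ne', hlC0, hxlog, hl, hm]
    ring
  have h2r : 2 * r < s := by
    have e : 2 * C0 * (M : ℝ) ^ A * (‖orb n c c j - orb n c c i‖ / d) *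
        (5 - Real.log ‖orb n c c j - orb n c c i‖) = 2 * r := by
      rw [hr, hxlog]
      ring
    rw [e] at hs
    exact hs
  rcases lt_or_ge 1 r with hr1 | hr1
  · obtain ⟨c', h1, p, -, z, hz⟩ := near_zero hn hc (N := 1) le_rfl (s := s) (by linarith)
    exact hcon ⟨c', h1, p, z, hz⟩
  have hsub : ball c r ⊆ ball c s := ball_subset_ball (by linarith)
  have hcb : c ∈ ball c r := mem_ball_self hr0
  have hball : ∀ t ∈ ball c r, ¬ ∃ m z, IsAttractingCycle (fun z => z ^ n + t) m z :=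
    fun t ht => hball' t (hsub ht)
  have hno : ∀ t ∈ ball c r, ¬ Pool.Agent.H548R3.MB.Centre n (M + 2) t := by
    rintro t ht ⟨p, hp1, hp2, hp3⟩
    exact hball t ht ⟨p, 0, Pool.Agent.H548R3.MB.att_of_centre hn hp1 hp3⟩
  have h0 : ∀ j < M, orb n c c j ≠ 0 := by
    intro j _ h1
    apply Pool.Agent.H713R2.AR.P_ne_zero hn (hball c hcb) (n := j + 1) (by omega)
    rw [P_eq_orb hn, h1]
  have hnot : ∀ N, 1 ≤ N → N ≤ M → ∀ z, ¬ IsAttractingCycle (fun z => z ^ n + c) N z :=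
    fun N _ _ z hz => hball c hcb ⟨N, z, hz⟩
  have hmass := hmassE c hc M r hr0 hr1 hno
  have hkk := hB c hc M (by omega) h0 hnot
  have hlr0 : Real.log r ≤ 0 := Real.log_nonpos hr0.le hr1
  have hA1l : 0 ≤ A1 * l := by positivity
  have hA3l : 0 ≤ A3 * l := by positivity
  have hAl : A1 * l + A3 * l + 4 + 2 * l ≤ A * l := by
    have h1 : 4 ≤ 4 / l2 * l := by
      rw [div_mul_eq_mul_div, le_div_iff₀ hl20]
      gcongr
    rw [hA]
    linarith
  -- the window
  have hwin : m + A1 * l + A3 * l ≤ kx n c (orb n c c i) M := by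
    have h1 := hExp.small hn hc hΛ0
    have h2 := dx_mono hn hc (orb n c c i) hNM
    have h3 := dx_pos hn hc hbd M
    have h4 := Real.log_le_log h3 (h2.trans h1)
    rw [Real.log_div (by norm_num) hΛ0.ne'] at h4
    have h5 : Real.log 5 ≤ 4 := by
      have := Real.log_le_sub_one_of_pos (show (0 : ℝ) < 5 by norm_num)
      linarith
    have h6 := Real.log_le_log hMA hΛ
    rw [Real.log_mul hd.ne' hΛ0.ne', Real.log_rpow hM0, ← hl] at h6
    unfold kx
    linarith
  have hKM : Real.log (5 + B * M) ≤ K0 + l := by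
    rw [hK0, hl, ← Real.log_mul (by positivity) hM0.ne']
    apply Real.log_le_log (by positivity)
    nlinarith
  have hlEr : Real.log (E / r) = Real.log E - Real.log r := Real.log_div hE0.ne' hr0.ne'
  have hEr1 : Real.log (E1 / r) ≤ Real.log (E / r) := by
    apply Real.log_le_log (by positivity)
    gcongr
    linarith
  have hEr3 : Real.log (100 / r) ≤ Real.log (E / r) := by
    apply Real.log_le_log (by positivity)
    gcongr
    linarith
  have hsep' : ∀ J ≤ j, ∀ t < J, t ≠ i → Real.exp (-m) ≤ ‖orb n c c t - orb n c c i‖ :=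
    fun J hJ t ht hti => by rw [hexpm]; exact hsep t (by omega) hti
  have hstar : ∀ J, i < J → J ≤ j →
      aa n c J - aa n c i + kk n c J ≤ m + A1 * l + Real.log (E1 / r) + (K0 + l) := by
    intro J hiJ hJj
    obtain ⟨-, h2⟩ := hA1 c hc M hM h0 hnot (E1 / r) (by positivity) hmass i J m hiJ (by omega) hm0
      (hsep' J hJj) (by rw [← hl]; linarith)
    rw [← hl] at h2
    have h3 : Real.log (5 + kk n c J) ≤ K0 + l := by
      refine le_trans ?_ hKM
      have h4 := hkk J (by omega) (by omega)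
      have h5 := kk_ge hn hc h0 (by omega : 1 ≤ J) (by omega)
      exact Real.log_le_log (by linarith) (by linarith)
    linarith
  have hpair := hA3 c hc r hr0 hr1 hball M hM i j m hij hjM hm0 (hsep' j le_rfl)
    (by rw [← hl]; linarith)
  rw [← hl, ← hx] at hpair
  have hlog8' := log8_le
  obtain ⟨z, hz⟩ := trap_i hn (by omega : 1 ≤ M) h0 hij hjM hne (fun t ht1 ht2 => by
    have h1 := hstar t ht1 ht2
    rw [← hl, ← hx]
    linarith) (by linarith)
  exact hball c hcb ⟨j - i, z, hz⟩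

end Pool.Agent.T2h24.GP
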