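import Pool.Agent.T2h24.GP.A9

/-!
# Polynomial estimates: expansion at a point of the critical orbit
-/

set_option autoImplicit false
open Set Filter Topology Metric

namespace Pool.Agent.T2h24.GP

open Pool.Agent.W746.LD Pool.Agent.T2H09.DH Pool.Agent.T2H09.LU Pool.Agent.T2H09.LV
open Pool.Agent.T2H09.LW N62a1eb23

lemma near_zero {n : ℕ} (hn : 2 ≤ n) {c : ℂ} (hc : c ∈ multibrotSet n) {N : ℕ} (hN : 1 ≤ N) {s : ℝ}
    (hs : 2 ≤ s) : Near n N c s := by
  refine ⟨0, ?_, 1, hN, 0, ?_⟩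
  · rw [zero_sub, norm_neg]
    exact (norm_le_two hn hc).trans hs
  · apply Pool.Agent.H548R3.MB.att_of_centre hn le_rfl
    show (0 : ℂ) ^ n + 0 = 0
    rw [zero_pow (by omega), add_zero]

/-- The escape theorem with polynomial loss. -/
theorem escP {n : ℕ} (hn : 2 ≤ n) : ∃ C A : ℝ, 0 < C ∧ 0 < A ∧ ∀ c ∈ multibrotSet n,
    ∀ i N : ℕ, 2 ≤ i + N → ∀ d : ℝ, 0 < d → d ≤ 1 →
    (∀ t < i + N, t ≠ i → d ≤ ‖orb n c c t - orb n c c i‖) → ∀ y : ℂ, 3 ≤ ‖orb n c y N‖ →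
    Near n (i + N + 2) c (C * ((i + N : ℕ) : ℝ) ^ A * (‖y - orb n c c i‖ / d)) := by
  obtain ⟨E1, hE1, hmassE⟩ := er_massV hn
  obtain ⟨A1, hA10, hA1⟩ := stA hn
  obtain ⟨B, hB1, hB⟩ := kk_bound hn
  have hE0 : 0 < E1 := by linarith
  have hlE : 0 ≤ Real.log E1 := Real.log_nonneg hE1
  obtain ⟨K0, hK0⟩ : ∃ K0, K0 = Real.log (5 + B) := ⟨_, rfl⟩
  have hK00 : 0 ≤ K0 := by rw [hK0]; exact Real.log_nonneg (by linarith)
  obtain ⟨C0, hC0⟩ : ∃ C0, C0 = Real.exp (Real.log E1 + K0 + 2) := ⟨_, rfl⟩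
  have hC00 : 0 < C0 := by rw [hC0]; exact Real.exp_pos _
  have hlC0 : Real.log C0 = Real.log E1 + K0 + 2 := by rw [hC0, Real.log_exp]
  refine ⟨2 * C0, A1 + 2, by positivity, by positivity, ?_⟩
  intro c hc i N hiN d hd hd1 hsep y hy
  obtain ⟨M, hM⟩ : ∃ M, M = i + N := ⟨_, rfl⟩
  rw [← hM] at hiN hsep ⊢
  have hM2 : (2 : ℝ) ≤ M := by exact_mod_cast hiN
  have hM0 : (0 : ℝ) < M := by linarith
  obtain ⟨l, hl⟩ : ∃ l, l = Real.log M := ⟨_, rfl⟩
  have hl0 : 0 < l := by rw [hl]; exact Real.log_pos (by linarith)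
  have hbd := bd_orb hn hc i
  obtain ⟨hyx, hwin, -⟩ := esc_log hn hc hbd (by omega : N ≤ M) hy
  obtain ⟨a, ha⟩ : ∃ a, a = -Real.log ‖y - orb n c c i‖ := ⟨_, rfl⟩
  obtain ⟨m, hm⟩ : ∃ m, m = -Real.log d := ⟨_, rfl⟩
  rw [← ha] at hwin
  have hexpa : Real.exp (-a) = ‖y - orb n c c i‖ := by rw [ha, neg_neg, Real.exp_log hyx]
  have hexpm : Real.exp (-m) = d := by rw [hm, neg_neg, Real.exp_log hd]
  have hm0 : 0 ≤ m := by
    rw [hm]
    have := Real.log_nonpos hd.le hd1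
    linarith
  obtain ⟨r, hr⟩ : ∃ r, r = C0 * (M : ℝ) ^ (A1 + 2) * (‖y - orb n c c i‖ / d) := ⟨_, rfl⟩
  have hr0 : 0 < r := by rw [hr]; positivity
  have hlr : Real.log r = Real.log E1 + K0 + 2 + (A1 + 2) * l - (a - m) := by
    rw [hr, Real.log_mul (by positivity) (by positivity), Real.log_mul (by positivity)
      (by positivity), Real.log_rpow hM0, Real.log_div hyx.ne' hd.ne', hlC0, hl, ha, hm]
    ring
  have hgoal : 2 * C0 * (M : ℝ) ^ (A1 + 2) * (‖y - orb n c c i‖ / d) = 2 * r := by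
    rw [hr]
    ring
  rw [hgoal]
  rcases lt_or_ge 1 r with hr1 | hr1
  · exact near_zero hn hc (by omega) (by linarith)
  by_contra hcon
  have hno' : ¬ Near n (M + 2) c r := fun h => hcon (h.mono le_rfl (by linarith))
  have hcb : c ∈ ball c r := mem_ball_self hr0
  have hatt : ∀ t ∈ ball c r, ∀ p ≤ M + 2, ∀ z, ¬ IsAttractingCycle (fun z => z ^ n + t) p z := by
    intro t ht p hp z hz
    rw [mem_ball, dist_eq_norm] at ht
    exact hno' ⟨t, ht.le, p, hp, z, hz⟩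
  have hno : ∀ t ∈ ball c r, ¬ Pool.Agent.H548R3.MB.Centre n (M + 2) t := by
    rintro t ht ⟨p, hp1, hp2, hp3⟩
    exact hatt t ht p hp2 0 (Pool.Agent.H548R3.MB.att_of_centre hn hp1 hp3)
  have h0 : ∀ j < M, orb n c c j ≠ 0 := by
    intro j hj h0
    apply hno c hcb
    refine ⟨j + 1, by omega, by omega, ?_⟩
    have := P_eq_orb hn j c
    rw [h0] at this
    exact this
  have hnot : ∀ N, 1 ≤ N → N ≤ M → ∀ z, ¬ IsAttractingCycle (fun z => z ^ n + c) N z :=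
    fun N _ h z hz => hatt c hcb N (by omega) z hz
  have hmass := hmassE c hc M r hr0 hr1 hno
  have hkk := hB c hc M (by omega) h0 hnot
  have hlr0 : Real.log r ≤ 0 := Real.log_nonpos hr0.le hr1
  have hA1l : 0 ≤ A1 * l := by positivity
  have ham : m + A1 * l + 2 ≤ a := by linarith
  have hN1 : 1 ≤ N := by
    by_contra hlt
    have hN0 : N = 0 := by omega
    rw [hN0, orb_zero] at hy
    have h1 := hbd.norm_le
    have h2 : ‖y‖ ≤ ‖y - orb n c c i‖ + ‖orb n c c i‖ := by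
      calc ‖y‖ = ‖(y - orb n c c i) + orb n c c i‖ := by rw [sub_add_cancel]
        _ ≤ _ := norm_add_le _ _
    have h3 : ‖y - orb n c c i‖ < 1 := by
      rw [← hexpa, Real.exp_lt_one_iff]
      linarith
    linarith
  have hKM : Real.log (5 + B * M) ≤ K0 + l := by
    rw [hK0, hl, ← Real.log_mul (by positivity) hM0.ne']
    apply Real.log_le_log (by positivity)
    nlinarith
  have hlEr : Real.log (E1 / r) = Real.log E1 - Real.log r := Real.log_div hE0.ne' hr0.ne'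
  have hstar : ∀ J, i < J → J ≤ M → aa n c J - aa n c i ≤ m + A1 * l + Real.log (E1 / r) ∧
      aa n c J - aa n c i + kk n c J ≤ m + A1 * l + Real.log (E1 / r) + (K0 + l) := by
    intro J hiJ hJM
    obtain ⟨h1, h2⟩ := hA1 c hc M hiN h0 hnot (E1 / r) (by positivity) hmass i J m hiJ hJM hm0
      (fun t ht hti => by rw [hexpm]; exact hsep t (by omega) hti) (by rw [← hl]; linarith)
    rw [← hl] at h1 h2
    refine ⟨h1, ?_⟩
    have h3 : Real.log (5 + kk n c J) ≤ K0 + l := by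
      refine le_trans ?_ hKM
      have h4 := hkk J (by omega) hJM
      have h5 := kk_ge hn hc h0 (by omega : 1 ≤ J) hJM
      exact Real.log_le_log (by linarith) (by linarith)
    linarith
  have h3 := shadow_i hn (by omega : 1 ≤ M) h0 (i := i) (N := N) (by omega) (σ := a)
    (fun t ht1 ht2 => by
      obtain ⟨-, h4⟩ := hstar t ht1 (by omega)
      rw [← hl]
      linarith) (x := y) hexpa.ge N le_rfl
  obtain ⟨h4, -⟩ := hstar M (by omega) le_rfl
  rw [← hM] at h3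
  have h5 : Real.exp (1 + (aa n c M - aa n c i) - a) ≤ Real.exp (-1) := by
    apply Real.exp_le_exp.mpr
    linarith
  have h6 : Real.exp (-1) < 1 := by
    rw [Real.exp_lt_one_iff]
    norm_num
  have h7 : ‖orb n c y N‖ ≤ ‖orb n c y N - orb n c c M‖ + ‖orb n c c M‖ := by
    calc ‖orb n c y N‖ = ‖(orb n c y N - orb n c c M) + orb n c c M‖ := by
          rw [sub_add_cancel]
      _ ≤ _ := norm_add_le _ _
  have h8 := mem_multibrot_orb hn hc M
  linarith

/-- The `N`-th iterate expands by the factor `Λ` at the `i`-th point. -/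
def Expd (n : ℕ) (c : ℂ) (i N : ℕ) (Λ : ℝ) : Prop :=
  Λ ≤ ‖P n c (orb n c c i) N‖ ∨ ∃ y : ℂ, y ≠ orb n c c i ∧
    Λ * ‖y - orb n c c i‖ ≤ min 1 ‖orb n c y N - orb n c (orb n c c i) N‖

lemma Expd.small {n : ℕ} (hn : 2 ≤ n) {c : ℂ} (hc : c ∈ multibrotSet n) {i N : ℕ} {Λ : ℝ}
    (hΛ : 0 < Λ) (h : Expd n c i N Λ) : dx n c (orb n c c i) N ≤ 5 / Λ := by
  have hbd := bd_orb hn hc i
  have hdx := dx_pos hn hc hbd N
  rcases h with h | ⟨y, hy, h⟩
  · have h1 := dx_der hn hc hbd N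
    rw [le_div_iff₀ hΛ]
    nlinarith
  · have hD : 0 < ‖y - orb n c c i‖ := norm_pos_iff.mpr (sub_ne_zero.mpr hy)
    obtain ⟨D, hDd⟩ : ∃ D, D = ‖y - orb n c c i‖ := ⟨_, rfl⟩
    rcases lt_or_ge ‖y - orb n c c i‖ (dx n c (orb n c c i) N) with h1 | h1
    · have hmaps : MapsTo (fun z => orb n c z N) (ball (orb n c c i) (dx n c (orb n c c i) N))
          (closedBall (orb n c (orb n c c i) N) 5) := by
        intro z hz
        have hz3 : ‖orb n c z N‖ < 3 := ball_subx N hz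
        rw [mem_closedBall, dist_eq_norm]
        have e2 := hbd N
        have e3 := norm_sub_le (orb n c z N) (orb n c (orb n c c i) N)
        linarith
      have h2 := Complex.dist_le_div_mul_dist_of_mapsTo_ball
        (ds_diff n c N).differentiableOn hmaps (by rw [mem_ball, dist_eq_norm]; exact h1)
      rw [dist_eq_norm, dist_eq_norm] at h2
      have h3 := (h.trans (min_le_right _ _)).trans h2
      rw [le_div_iff₀ hΛ]
      rw [← hDd] at h3 hD
      rw [div_mul_eq_mul_div, le_div_iff₀ hdx] at h3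
      nlinarith
    · have h2 := h.trans (min_le_left _ _)
      rw [le_div_iff₀ hΛ]
      nlinarith

/-- Expansion gives nearby parameters with an attracting cycle of small period. -/
theorem expP {n : ℕ} (hn : 2 ≤ n) : ∃ C A : ℝ, 0 < C ∧ 0 < A ∧ ∀ c ∈ multibrotSet n,
    ∀ i N : ℕ, 2 ≤ i + N → ∀ d : ℝ, 0 < d → d ≤ 1 →
    (∀ t < i + N, t ≠ i → d ≤ ‖orb n c c t - orb n c c i‖) → ∀ Λ : ℝ, 0 < Λ →
    Expd n c i N Λ → Near n (i + N + 2) c (C * ((i + N : ℕ) : ℝ) ^ A / (d * Λ)) := by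
  obtain ⟨C, A, hC, hA, h⟩ := escP hn
  refine ⟨5 * C, A, by positivity, hA, ?_⟩
  intro c hc i N hiN d hd hd1 hsep Λ hΛ hE
  obtain ⟨y, hy1, hy2⟩ := dx_exists hn hc (orb n c c i) N
  have h1 := h c hc i N hiN d hd hd1 hsep y hy2
  rw [hy1] at h1
  refine h1.mono le_rfl ?_
  have h2 := hE.small hn hc hΛ
  calc C * ((i + N : ℕ) : ℝ) ^ A * (dx n c (orb n c c i) N / d)
      ≤ C * ((i + N : ℕ) : ℝ) ^ A * (5 / Λ / d) := by gcongr
    _ = 5 * C * ((i + N : ℕ) : ℝ) ^ A / (d * Λ) := by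
        field_simp

end Pool.Agent.T2h24.GP
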