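import Pool.Agent.T2H09.LW.Pseudo

/-!
# The distance of a point with bounded orbit to the points that escape in a given time
-/

set_option autoImplicit false
open Set Filter Topology Metric

namespace Pool.Agent.T2h24.GP

open Pool.Agent.W746.LD Pool.Agent.T2H09.DH Pool.Agent.T2H09.LU Pool.Agent.T2H09.LV
open Pool.Agent.T2H09.LW N62a1eb23

/-- The distance from `x` to the complement of `UU n c k`. -/
noncomputable def dx (n : ℕ) (c x : ℂ) (k : ℕ) : ℝ := infDist x (UU n c k)ᶜ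

/-- The logarithm of the inverse distance. -/
noncomputable def kx (n : ℕ) (c x : ℂ) (k : ℕ) : ℝ := -Real.log (dx n c x k)

/-- The orbit of `x` stays in the disc of radius two. -/
def Bd (n : ℕ) (c x : ℂ) : Prop := ∀ k, ‖orb n c x k‖ ≤ 2

lemma bd_orb {n : ℕ} (hn : 2 ≤ n) {c : ℂ} (hc : c ∈ multibrotSet n) (i : ℕ) :
    Bd n c (orb n c c i) := by
  intro k
  rw [← orb_add]
  exact mem_multibrot_orb hn hc (i + k)

lemma Bd.norm_le {n : ℕ} {c x : ℂ} (hx : Bd n c x) : ‖x‖ ≤ 2 := by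
  have := hx 0
  rwa [orb_zero] at this

theorem ball_subx {n : ℕ} {c x : ℂ} (k : ℕ) : ball x (dx n c x k) ⊆ UU n c k := by
  intro z hz
  by_contra h
  have h1 : infDist x (UU n c k)ᶜ ≤ dist x z := infDist_le_dist_of_mem h
  rw [mem_ball, dist_comm] at hz
  unfold dx at hz
  linarith

theorem Bd.mem {n : ℕ} {c x : ℂ} (hx : Bd n c x) (k : ℕ) : x ∈ UU n c k := by
  show ‖orb n c x k‖ < 3
  linarith [hx k]

theorem dx_pos {n : ℕ} (hn : 2 ≤ n) {c : ℂ} (hc : c ∈ multibrotSet n) {x : ℂ} (hx : Bd n c x)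
    (k : ℕ) : 0 < dx n c x k := by
  have h1 : x ∉ (UU n c k)ᶜ := fun h => h (hx.mem k)
  exact ((ds_closed n c k).notMem_iff_infDist_pos (ds_ne hn hc k)).1 h1

theorem dx_exists {n : ℕ} (hn : 2 ≤ n) {c : ℂ} (hc : c ∈ multibrotSet n) (x : ℂ) (k : ℕ) :
    ∃ y : ℂ, ‖y - x‖ = dx n c x k ∧ 3 ≤ ‖orb n c y k‖ := by
  obtain ⟨y, hy, h⟩ := (ds_closed n c k).exists_infDist_eq_dist (ds_ne hn hc k) x
  refine ⟨y, ?_, ?_⟩
  · unfold dx
    rw [h, dist_comm, dist_eq_norm]
  · by_contra h1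
    exact hy (not_le.1 h1)

theorem dx_le {n : ℕ} {c x y : ℂ} {k : ℕ} (hy : 3 ≤ ‖orb n c y k‖) : dx n c x k ≤ ‖y - x‖ := by
  have h1 : y ∈ (UU n c k)ᶜ := by
    intro h
    have h2 : ‖orb n c y k‖ < 3 := h
    linarith
  have h2 : infDist x (UU n c k)ᶜ ≤ dist x y := infDist_le_dist_of_mem h1
  rw [dist_comm, dist_eq_norm] at h2
  exact h2

theorem dx_zero {n : ℕ} (hn : 2 ≤ n) {c : ℂ} (hc : c ∈ multibrotSet n) {x : ℂ} (hx : Bd n c x) :
    1 ≤ dx n c x 0 := by
  obtain ⟨y, h1, h2⟩ := dx_exists hn hc x 0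
  rw [orb_zero] at h2
  rw [← h1]
  have h3 := hx.norm_le
  have h4 : ‖y‖ ≤ ‖y - x‖ + ‖x‖ := by
    calc ‖y‖ = ‖(y - x) + x‖ := by rw [sub_add_cancel]
      _ ≤ _ := norm_add_le _ _
  linarith

theorem dx_anti {n : ℕ} (hn : 2 ≤ n) {c : ℂ} (hc : c ∈ multibrotSet n) (x : ℂ) (k : ℕ) :
    dx n c x (k + 1) ≤ dx n c x k :=
  infDist_le_infDist_of_subset (compl_subset_compl.2 (UU_anti hn hc k)) (ds_ne hn hc k)

theorem dx_step {n : ℕ} (hn : 2 ≤ n) {c : ℂ} (hc : c ∈ multibrotSet n) {x : ℂ} (hx : Bd n c x)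
    (k : ℕ) : dx n c x k ≤ (3 ^ n + 4) * dx n c x (k + 1) := by
  obtain ⟨y, h1, h2⟩ := dx_exists hn hc x (k + 1)
  have hδ := dx_pos hn hc hx k
  have hδ1 := dx_pos hn hc hx (k + 1)
  have hc2 := ds_c hn hc
  have h3 : (1 : ℝ) ≤ 3 ^ n + 4 := by
    have : (0 : ℝ) ≤ 3 ^ n := by positivity
    linarith
  by_cases hy : dx n c x k ≤ ‖y - x‖
  · rw [h1] at hy
    calc dx n c x k ≤ 1 * dx n c x (k + 1) := by linarith
      _ ≤ _ := mul_le_mul_of_nonneg_right h3 hδ1.le
  · push Not at hy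
    have hmaps : MapsTo (fun z => orb n c z (k + 1)) (ball x (dx n c x k))
        (closedBall (orb n c x (k + 1)) (3 ^ n + 4)) := by
      intro z hz
      have hz3 : ‖orb n c z k‖ < 3 := ball_subx k hz
      rw [mem_closedBall, dist_eq_norm]
      have e1 : ‖orb n c z (k + 1)‖ ≤ 3 ^ n + 2 := by
        rw [orb_succ]
        refine (norm_add_le _ _).trans ?_
        rw [norm_pow]
        exact add_le_add (pow_le_pow_left₀ (norm_nonneg _) hz3.le n) hc2
      have e2 := hx (k + 1)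
      have e3 := norm_sub_le (orb n c z (k + 1)) (orb n c x (k + 1))
      linarith
    have hyb : y ∈ ball x (dx n c x k) := by rw [mem_ball, dist_eq_norm]; exact hy
    have h4 := Complex.dist_le_div_mul_dist_of_mapsTo_ball
      (ds_diff n c (k + 1)).differentiableOn hmaps hyb
    rw [dist_eq_norm, dist_eq_norm, h1] at h4
    have e2 := hx (k + 1)
    have e4 : ‖orb n c y (k + 1)‖ ≤ ‖orb n c y (k + 1) - orb n c x (k + 1)‖ + ‖orb n c x (k + 1)‖ := by
      calc ‖orb n c y (k + 1)‖ = ‖(orb n c y (k + 1) - orb n c x (k + 1)) + orb n c x (k + 1)‖ := by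
            rw [sub_add_cancel]
        _ ≤ _ := norm_add_le _ _
    have h5 : 1 ≤ (3 ^ n + 4) / dx n c x k * dx n c x (k + 1) := by linarith
    rw [div_mul_eq_mul_div, le_div_iff₀ hδ] at h5
    linarith

theorem dx_der {n : ℕ} (hn : 2 ≤ n) {c : ℂ} (hc : c ∈ multibrotSet n) {x : ℂ} (hx : Bd n c x)
    (k : ℕ) : dx n c x k * ‖P n c x k‖ ≤ 3 := by
  have hδ := dx_pos hn hc hx k
  have h1 : ∀ z ∈ closedBall x (dx n c x k), ‖orb n c z k‖ ≤ 3 := by
    rw [← closure_ball x hδ.ne']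
    have hcl : IsClosed {z : ℂ | ‖orb n c z k‖ ≤ 3} :=
      isClosed_le (ds_diff n c k).continuous.norm continuous_const
    have hsub : ball x (dx n c x k) ⊆ {z : ℂ | ‖orb n c z k‖ ≤ 3} := by
      intro z hz
      have h3 : ‖orb n c z k‖ < 3 := ball_subx k hz
      exact h3.le
    intro z hz
    exact closure_minimal hsub hcl hz
  have h2 := Complex.norm_deriv_le_of_forall_mem_sphere_norm_le hδ
    (ds_diff n c k).diffContOnCl (fun z hz => h1 z (sphere_subset_closedBall hz))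
  rw [(hasDerivAt_orb x k).deriv, le_div_iff₀ hδ] at h2
  linarith

lemma exp_kx {n : ℕ} (hn : 2 ≤ n) {c : ℂ} (hc : c ∈ multibrotSet n) {x : ℂ} (hx : Bd n c x)
    (k : ℕ) : Real.exp (-kx n c x k) = dx n c x k := by
  unfold kx
  rw [neg_neg, Real.exp_log (dx_pos hn hc hx k)]

/-- The hole. -/
theorem holex {n : ℕ} (hn : 2 ≤ n) {c : ℂ} (hc : c ∈ multibrotSet n) {x : ℂ} (hx : Bd n c x)
    {k : ℕ} (hk : 1 ≤ k) {lam : ℝ}
    (hlam : 0 < lam) (hd : (1 + lam) * dx n c x k ≤ dx n c x (k - 1)) :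
    ∃ y : ℂ, ‖y - x‖ = dx n c x k ∧
      ∀ z ∈ ball y (1 / (8 * (3 ^ n + 2)) * lam * dx n c x k),
        z ∈ UU n c (k - 1) ∧ z ∉ UU n c (k + 1) := by
  set R : ℝ := 3 ^ n + 2 with hRdef
  have hR3 : (3 : ℝ) ≤ R := by
    have h1 : (3 : ℝ) ^ 1 ≤ 3 ^ n := pow_le_pow_right₀ (by norm_num) (by omega)
    linarith
  have hR0 : 0 < R := by linarith
  obtain ⟨y, hy, hy3⟩ := dx_exists hn hc x k
  have hc2 : ‖c‖ ≤ 2 := norm_le_two hn hc
  have hδ : 0 < dx n c x k := dx_pos hn hc hx k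
  set δ := dx n c x k with hδdef
  set r : ℝ := lam * δ with hr
  have hr0 : 0 < r := mul_pos hlam hδ
  have hball : ∀ z ∈ ball y r, z ∈ UU n c (k - 1) := by
    intro z hz
    apply ball_subx (x := x)
    rw [mem_ball, dist_eq_norm] at hz ⊢
    calc ‖z - x‖ = ‖(z - y) + (y - x)‖ := by ring_nf
      _ ≤ ‖z - y‖ + ‖y - x‖ := norm_add_le _ _
      _ < r + δ := by rw [hy]; linarith
      _ = (1 + lam) * δ := by rw [hr]; ring
      _ ≤ dx n c x (k - 1) := hd
  have hbd : ∀ z ∈ ball y r, ‖orb n c z k‖ < R := by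
    intro z hz
    have h1 : ‖orb n c z (k - 1)‖ < 3 := hball z hz
    have h2 : orb n c z k = (orb n c z (k - 1)) ^ n + c := by
      rw [← orb_succ]; congr 1; omega
    rw [h2, hRdef]
    have h3 : ‖orb n c z (k - 1)‖ ^ n < 3 ^ n := pow_lt_pow_left₀ h1 (norm_nonneg _) (by omega)
    calc ‖orb n c z (k - 1) ^ n + c‖ ≤ ‖orb n c z (k - 1) ^ n‖ + ‖c‖ := norm_add_le _ _
      _ = ‖orb n c z (k - 1)‖ ^ n + ‖c‖ := by rw [norm_pow]
      _ < 3 ^ n + 2 := by linarith
  have hmaps : MapsTo (fun z => orb n c z k) (ball y r) (ball (orb n c y k) (2 * R)) := by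
    intro z hz
    rw [mem_ball, dist_eq_norm]
    calc ‖orb n c z k - orb n c y k‖ ≤ ‖orb n c z k‖ + ‖orb n c y k‖ := norm_sub_le _ _
      _ < 2 * R := by
        have := hbd z hz
        have := hbd y (mem_ball_self hr0)
        linarith
  have hdiff : DifferentiableOn ℂ (fun z => orb n c z k) (ball y r) :=
    fun z _ => (hasDerivAt_orb z k).differentiableAt.differentiableWithinAt
  refine ⟨y, hy, ?_⟩
  intro z hz
  have hz' : z ∈ ball y (1 / (8 * R) * r) := by
    have e : 1 / (8 * R) * r = 1 / (8 * R) * lam * δ := by rw [hr]; ring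
    rw [e]
    exact hz
  have hzδ : z ∈ ball y r := by
    apply ball_subset_ball _ hz'
    apply mul_le_of_le_one_left hr0.le
    rw [div_le_one (by positivity)]
    linarith
  refine ⟨hball z hzδ, ?_⟩
  have h1 : dist (orb n c z k) (orb n c y k) ≤ (2 * R) / r * dist z y :=
    Complex.dist_le_div_mul_dist_of_mapsTo_ball hdiff (hmaps.mono_right ball_subset_closedBall) hzδ
  have h2 : (2 * R) / r * dist z y ≤ 1 / 4 := by
    have h3 : dist z y ≤ 1 / (8 * R) * r := (mem_ball.1 hz').le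
    calc (2 * R) / r * dist z y ≤ (2 * R) / r * (1 / (8 * R) * r) :=
          mul_le_mul_of_nonneg_left h3 (by positivity)
      _ = 1 / 4 := by field_simp; norm_num
  have h3 : 11 / 4 ≤ ‖orb n c z k‖ := by
    have h4 : ‖orb n c y k‖ ≤ ‖orb n c z k‖ + dist (orb n c z k) (orb n c y k) := by
      rw [dist_eq_norm]
      calc ‖orb n c y k‖ = ‖orb n c z k - (orb n c z k - orb n c y k)‖ := by ring_nf
        _ ≤ _ := norm_sub_le _ _
    linarith
  intro hmem
  have h5 : ‖orb n c z (k + 1)‖ < 3 := hmem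
  rw [orb_succ] at h5
  have h6 : (11 / 4 : ℝ) ^ 2 ≤ ‖orb n c z k‖ ^ n :=
    calc (11 / 4 : ℝ) ^ 2 ≤ (11 / 4 : ℝ) ^ n := pow_le_pow_right₀ (by norm_num) hn
      _ ≤ ‖orb n c z k‖ ^ n := pow_le_pow_left₀ (by norm_num) h3 n
  have h7 : ‖orb n c z k‖ ^ n ≤ ‖orb n c z k ^ n + c‖ + ‖c‖ := by
    rw [← norm_pow]
    calc ‖orb n c z k ^ n‖ = ‖(orb n c z k ^ n + c) - c‖ := by ring_nf
      _ ≤ _ := norm_sub_le _ _
  norm_num at h6
  linarith

/-- The nodes in the holes. -/
theorem nodesx {n : ℕ} (hn : 2 ≤ n) {c : ℂ} (hc : c ∈ multibrotSet n) {a : ℂ} (ha : Bd n c a)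
    {M : ℕ} {L : ℝ} (hL : ∀ k, kx n c a (k + 1) ≤ kx n c a k + L)
    {h : ℝ} (hh : h = 1 / (8 * (3 ^ n + 2))) (hLh : h * L ≤ 1) {x : ℝ} (hx0 : 0 ≤ x)
    (hxM : x + 2 ≤ kx n c a M) {D : ℕ} (hD : 1 ≤ D) :
    ∃ w : ℕ → ℂ, (∀ j ≤ D, ‖w j - a‖ ≤ Real.exp (-x)) ∧
      (∀ j ≤ D, ∀ k ≤ D, Real.exp (-(2 + L)) * h / 4 * Real.exp (-x) * |(j : ℝ) - k| / D ≤
        ‖w j - w k‖) ∧
      ∀ j ≤ D, ∃ k, 1 ≤ k ∧ kx n c a k ≤ x + 2 + L ∧ 0 < kx n c a k - kx n c a (k - 1) ∧
        1 / ((D : ℝ) * (M + 1)) ≤ kx n c a k - kx n c a (k - 1) ∧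
        w j ≠ a ∧ ‖w j - a‖ ≤ 3 / 2 * dx n c a k ∧
        ∀ z ∈ ball (w j) (h / 2 * (kx n c a k - kx n c a (k - 1)) * dx n c a k),
          z ∈ UU n c (k - 1) ∧ z ∉ UU n c (k + 1) := by
  have hD0 : (0 : ℝ) < D := by exact_mod_cast hD
  have h3n : (1 : ℝ) ≤ 3 ^ n := one_le_pow₀ (by norm_num)
  have hh0 : 0 < h := by rw [hh]; positivity
  have hh1 : h ≤ 1 := by
    rw [hh, div_le_one (by positivity)]
    linarith
  have hmono : Monotone (kx n c a) := monotone_nat_of_le_succ fun k => by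
    unfold kx
    have := Real.log_le_log (dx_pos hn hc ha (k + 1)) (dx_anti hn hc a k)
    linarith
  have hk0 : kx n c a 0 ≤ 0 := by
    unfold kx
    have := Real.log_nonneg (dx_zero hn hc ha)
    linarith
  obtain ⟨s0, hs1, hs2, hsel⟩ := sel (kx n c a) (x := x) (by linarith) (M := M) hD hxM
  have hDM : (0 : ℝ) < (D : ℝ) * (M + 1) := by positivity
  have hall : ∀ j : ℕ, ∃ k : ℕ, ∃ y : ℂ, j ≤ D → (1 ≤ k ∧ kx n c a (k - 1) < s0 + j / D ∧
      s0 + j / D ≤ kx n c a k ∧ 1 / ((D : ℝ) * (M + 1)) ≤ kx n c a k - kx n c a (k - 1) ∧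
      ‖y - a‖ = dx n c a k ∧ ∀ z ∈ ball y (h * (kx n c a k - kx n c a (k - 1)) * dx n c a k),
        z ∈ UU n c (k - 1) ∧ z ∉ UU n c (k + 1)) := by
    intro j
    by_cases hj : j ≤ D
    · obtain ⟨k, k1, -, k3, k4, k5⟩ := hsel j hj
      have hlam : 0 < kx n c a k - kx n c a (k - 1) := lt_of_lt_of_le (by positivity) k5
      obtain ⟨y, y1, y2⟩ := holex hn hc ha k1 hlam (by
        have h4 : Real.exp (kx n c a k - kx n c a (k - 1)) * dx n c a k = dx n c a (k - 1) := by
          rw [← exp_kx hn hc ha k, ← exp_kx hn hc ha (k - 1), ← Real.exp_add]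
          congr 1
          ring
        have h5 := Real.add_one_le_exp (kx n c a k - kx n c a (k - 1))
        have h6 := (dx_pos hn hc ha k).le
        rw [← h4]
        gcongr
        linarith)
      rw [← hh] at y2
      exact ⟨k, y, fun _ => ⟨k1, k3, k4, k5, y1, y2⟩⟩
    · exact ⟨0, 0, fun h => absurd h hj⟩
  choose k y hky using hall
  obtain ⟨σ, hσ⟩ : ∃ σ : ℕ → ℝ, σ = fun j : ℕ => s0 + (j : ℝ) / D := ⟨_, rfl⟩
  obtain ⟨t, ht⟩ : ∃ t : ℕ → ℝ, t = fun j => kx n c a (k j) - h / 4 * (kx n c a (k j) - σ j) :=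
    ⟨_, rfl⟩
  have hσx : ∀ j, x < σ j := by
    intro j
    rw [hσ]
    have : 0 ≤ (j : ℝ) / D := by positivity
    simp only
    linarith
  have hσ2 : ∀ j ≤ D, σ j ≤ x + 2 := by
    intro j hj
    rw [hσ]
    have : (j : ℝ) / D ≤ 1 := by
      rw [div_le_one hD0]
      exact_mod_cast hj
    simp only
    linarith
  have hσk : ∀ j ≤ D, σ j ≤ kx n c a (k j) := by
    intro j hj
    rw [hσ]
    exact (hky j hj).2.2.1
  have hσk' : ∀ j ≤ D, kx n c a (k j - 1) < σ j := by
    intro j hj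
    rw [hσ]
    exact (hky j hj).2.1
  have hkL : ∀ j ≤ D, kx n c a (k j) ≤ kx n c a (k j - 1) + L := by
    intro j hj
    have h1 := hL (k j - 1)
    have h2 := (hky j hj).1
    rwa [Nat.sub_add_cancel h2] at h1
  have hkx : ∀ j ≤ D, kx n c a (k j) ≤ x + 2 + L := by
    intro j hj
    have h1 := hkL j hj
    have h2 := hσk' j hj
    have h3 := hσ2 j hj
    linarith
  have htσ : ∀ j ≤ D, σ j ≤ t j := by
    intro j hj
    rw [ht]
    have h1 := hσk j hj
    simp only
    nlinarith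
  have htk : ∀ j ≤ D, t j ≤ kx n c a (k j) := by
    intro j hj
    rw [ht]
    have h1 := hσk j hj
    simp only
    nlinarith
  have hτ : ∀ j ≤ D, kx n c a (k j) - t j ≤ h / 4 * (kx n c a (k j) - kx n c a (k j - 1)) := by
    intro j hj
    rw [ht]
    have h1 := hσk' j hj
    simp only
    have : kx n c a (k j) - (kx n c a (k j) - h / 4 * (kx n c a (k j) - σ j)) =
        h / 4 * (kx n c a (k j) - σ j) := by ring
    rw [this]
    gcongr
  have hτ1 : ∀ j ≤ D, kx n c a (k j) - t j ≤ 1 / 4 := by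
    intro j hj
    have h1 := hτ j hj
    have h2 := hkL j hj
    have h3 : h / 4 * (kx n c a (k j) - kx n c a (k j - 1)) ≤ h / 4 * L := by
      gcongr
      linarith
    linarith
  have hexp2 : ∀ τ : ℝ, 0 ≤ τ → τ ≤ 1 → Real.exp τ ≤ 1 + 2 * τ := by
    intro τ h1 h2
    have h3 := Real.abs_exp_sub_one_sub_id_le (x := τ) (by rw [abs_of_nonneg h1]; exact h2)
    have h4 := (abs_le.mp h3).2
    nlinarith
  refine ⟨fun j => a + (Real.exp (kx n c a (k j) - t j) : ℝ) * (y j - a), ?_, ?_, ?_⟩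
  · intro j hj
    have h1 := (hky j hj).2.2.2.2.1
    rw [add_sub_cancel_left, norm_mul, h1, Complex.norm_real, Real.norm_eq_abs,
      abs_of_pos (Real.exp_pos _), ← exp_kx hn hc ha (k j), ← Real.exp_add]
    apply Real.exp_le_exp.mpr
    have h2 := htσ j hj
    have h3 := hσx j
    linarith
  · have hnorm : ∀ j ≤ D, ‖(a + (Real.exp (kx n c a (k j) - t j) : ℝ) * (y j - a)) - a‖ =
        Real.exp (-t j) := by
      intro j hj
      have h1 := (hky j hj).2.2.2.2.1
      rw [add_sub_cancel_left, norm_mul, h1, Complex.norm_real, Real.norm_eq_abs,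
        abs_of_pos (Real.exp_pos _), ← exp_kx hn hc ha (k j), ← Real.exp_add]
      congr 1
      ring
    have hlt : ∀ i ≤ D, ∀ j ≤ D, i < j →
        Real.exp (-(2 + L)) * h / 4 * Real.exp (-x) * ((j : ℝ) - i) / D ≤
        ‖(a + (Real.exp (kx n c a (k i) - t i) : ℝ) * (y i - a)) -
          (a + (Real.exp (kx n c a (k j) - t j) : ℝ) * (y j - a))‖ := by
      intro i hi j hj hij
      have h1 := norm_sub_norm_le
        ((a + (Real.exp (kx n c a (k i) - t i) : ℝ) * (y i - a)) - a)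
        ((a + (Real.exp (kx n c a (k j) - t j) : ℝ) * (y j - a)) - a)
      rw [hnorm i hi, hnorm j hj, sub_sub_sub_cancel_right] at h1
      refine le_trans ?_ h1
      have hij' : (i : ℝ) < j := by exact_mod_cast hij
      have hσij : σ j - σ i = ((j : ℝ) - i) / D := by
        rw [hσ]
        simp only
        ring
      have hσlt : σ i < σ j := by
        have : 0 < ((j : ℝ) - i) / D := div_pos (by linarith) hD0
        linarith
      have hkij : kx n c a (k i) ≤ kx n c a (k j) := by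
        apply hmono
        by_contra hlt
        push Not at hlt
        have h2 : kx n c a (k j) ≤ kx n c a (k i - 1) := hmono (by omega)
        have h3 := hσk j hj
        have h4 := hσk' i hi
        linarith
      have htij : h / 4 * (((j : ℝ) - i) / D) ≤ t j - t i := by
        rw [← hσij, ht]
        simp only
        have : 0 ≤ (1 - h / 4) * (kx n c a (k j) - kx n c a (k i)) := by
          apply mul_nonneg <;> linarith
        linarith
      have h2 : Real.exp (-t i) = Real.exp (-t j) * Real.exp (t j - t i) := by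
        rw [← Real.exp_add]
        congr 1
        ring
      have h3 := Real.add_one_le_exp (t j - t i)
      have h4 : Real.exp (-(2 + L)) * Real.exp (-x) ≤ Real.exp (-t j) := by
        rw [← Real.exp_add]
        apply Real.exp_le_exp.mpr
        have h5 := htk j hj
        have h6 := hkx j hj
        linarith
      have h5 : 0 ≤ h / 4 * (((j : ℝ) - i) / D) := by
        have : 0 < ((j : ℝ) - i) / D := div_pos (by linarith) hD0
        positivity
      rw [h2]
      calc Real.exp (-(2 + L)) * h / 4 * Real.exp (-x) * ((j : ℝ) - i) / D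
          = (Real.exp (-(2 + L)) * Real.exp (-x)) * (h / 4 * (((j : ℝ) - i) / D)) := by ring
        _ ≤ Real.exp (-t j) * (t j - t i) := by gcongr
        _ ≤ Real.exp (-t j) * (Real.exp (t j - t i) - 1) :=
            mul_le_mul_of_nonneg_left (by linarith) (Real.exp_pos _).le
        _ = _ := by ring
    intro i hi j hj
    rcases lt_trichotomy i j with hij | hij | hij
    · have h1 := hlt i hi j hj hij
      have hij' : (i : ℝ) < j := by exact_mod_cast hij
      rw [abs_sub_comm, abs_of_pos (by linarith)]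
      exact h1
    · rw [hij, sub_self, abs_zero, mul_zero, zero_div]
      exact norm_nonneg _
    · have h1 := hlt j hj i hi hij
      have hij' : (j : ℝ) < i := by exact_mod_cast hij
      rw [abs_of_pos (by linarith), norm_sub_rev]
      exact h1
  · intro j hj
    obtain ⟨k1, k2, k3, k4, k5, k6⟩ := hky j hj
    have hlam : 0 < kx n c a (k j) - kx n c a (k j - 1) := lt_of_lt_of_le (by positivity) k4
    have hδ := dx_pos hn hc ha (k j)
    have hτ0 : 0 ≤ kx n c a (k j) - t j := by linarith [htk j hj]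
    have hE := hexp2 _ hτ0 (by linarith [hτ1 j hj])
    have hE1 := Real.one_le_exp hτ0
    have hτj := hτ j hj
    have hτ1j := hτ1 j hj
    refine ⟨k j, k1, hkx j hj, hlam, k4, ?_, ?_, ?_⟩
    · intro heq
      have h1 : ((Real.exp (kx n c a (k j) - t j) : ℝ) : ℂ) * (y j - a) = 0 := by
        linear_combination heq
      have h2 : ‖((Real.exp (kx n c a (k j) - t j) : ℝ) : ℂ) * (y j - a)‖ = 0 := by
        rw [h1, norm_zero]
      rw [norm_mul, k5, Complex.norm_real, Real.norm_eq_abs, abs_of_pos (Real.exp_pos _)] at h2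
      have := mul_pos (Real.exp_pos (kx n c a (k j) - t j)) hδ
      linarith
    · rw [add_sub_cancel_left, norm_mul, k5, Complex.norm_real, Real.norm_eq_abs,
        abs_of_pos (Real.exp_pos _)]
      apply mul_le_mul_of_nonneg_right _ hδ.le
      linarith
    · intro z hz
      apply k6
      rw [mem_ball, dist_eq_norm] at hz ⊢
      have h1 : (a + ((Real.exp (kx n c a (k j) - t j) : ℝ) : ℂ) * (y j - a)) - y j =
          ((Real.exp (kx n c a (k j) - t j) - 1 : ℝ) : ℂ) * (y j - a) := by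
        push_cast
        ring
      have h2 : ‖(a + ((Real.exp (kx n c a (k j) - t j) : ℝ) : ℂ) * (y j - a)) - y j‖ ≤
          h / 2 * (kx n c a (k j) - kx n c a (k j - 1)) * dx n c a (k j) := by
        rw [h1, norm_mul, k5, Complex.norm_real, Real.norm_eq_abs, abs_of_nonneg (by linarith)]
        apply mul_le_mul_of_nonneg_right _ hδ.le
        linarith
      calc ‖z - y j‖ = ‖(z - (a + ((Real.exp (kx n c a (k j) - t j) : ℝ) : ℂ) * (y j - a))) +
            ((a + ((Real.exp (kx n c a (k j) - t j) : ℝ) : ℂ) * (y j - a)) - y j)‖ := by ring_nf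
        _ ≤ _ := norm_add_le _ _
        _ < h * (kx n c a (k j) - kx n c a (k j - 1)) * dx n c a (k j) := by linarith

end Pool.Agent.T2h24.GP
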