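import Pool.Agent.T2h24.GP.A1

/-!
# The masses on the annuli for almost invariant quadratic differentials with poles on the orbit
-/

set_option autoImplicit false
open Set Filter Topology Metric MeasureTheory Polynomial
open scoped ENNReal

namespace Pool.Agent.T2h24.GP

open Pool.Agent.W746.LD Pool.Agent.T2H09.DH Pool.Agent.T2H09.LU Pool.Agent.T2H09.LV
open Pool.Agent.T2H09.LW N62a1eb23

/-- The quadratic differential with the residues `a t` at the points `z_t`, `t < J`, of the critical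
orbit. -/
noncomputable def qw (n : ℕ) (c : ℂ) (J : ℕ) (a : ℕ → ℂ) (w : ℂ) : ℂ :=
  ∑ t ∈ Finset.range J, a t / (w - orb n c c t)

/-- `q` is invariant up to the error `e`. -/
structure Inv (n : ℕ) (c : ℂ) (q e : ℂ → ℂ) (ε : ℝ) : Prop where
  mq : Measurable q
  me : Measurable e
  fin : ∫⁻ w in closedBall (0 : ℂ) 3, ‖q w‖ₑ ≠ ⊤
  push : ∀ᵐ w : ℂ, ∑ ζ ∈ (Tp n c - Polynomial.C w).roots.toFinset, q ζ / (n * ζ ^ (n - 1)) ^ 2 =
    q w + e w
  mass : ∫⁻ w in closedBall (0 : ℂ) 3, ‖e w‖ₑ ≤ ENNReal.ofReal ε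

lemma measurable_qw (n : ℕ) (c : ℂ) (J : ℕ) (a : ℕ → ℂ) : Measurable (qw n c J a) := by
  unfold qw
  apply Finset.measurable_fun_sum
  intro j _
  exact measurable_const.div (measurable_id.sub_const _)

lemma qw_fin {n : ℕ} (hn : 2 ≤ n) {c : ℂ} (hc : c ∈ multibrotSet n) (J : ℕ) (a : ℕ → ℂ) :
    ∫⁻ w in closedBall (0 : ℂ) 3, ‖qw n c J a w‖ₑ ≠ ⊤ := by
  have hX : ∀ j, ‖orb n c c j‖ + 3 < 6 := by
    intro j
    have := mem_multibrot_orb hn hc j
    linarith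
  have h1 : ∫⁻ w in closedBall (0 : ℂ) 3, ‖qw n c J a w‖ₑ ≤
      ∑ j ∈ Finset.range J, ENNReal.ofReal (2 * Real.pi * 6 * ‖a j‖) := by
    calc ∫⁻ w in closedBall (0 : ℂ) 3, ‖qw n c J a w‖ₑ
        ≤ ∫⁻ w in closedBall (0 : ℂ) 3,
            ∑ j ∈ Finset.range J, ‖a j / (w - orb n c c j)‖ₑ :=
          lintegral_mono fun w => enorm_sum_le _ _
      _ = ∑ j ∈ Finset.range J,
            ∫⁻ w in closedBall (0 : ℂ) 3, ‖a j / (w - orb n c c j)‖ₑ := by
          apply lintegral_finsetSum'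
          intro j _
          exact (measurable_const.div (measurable_id.sub_const _)).enorm.aemeasurable
      _ ≤ _ := Finset.sum_le_sum fun j _ => int_term_le _ _ (hX j)
  refine ne_top_of_le_ne_top ?_ h1
  exact (ENNReal.sum_lt_top.mpr fun j _ => ENNReal.ofReal_lt_top).ne

theorem Inv.annulus {n : ℕ} (hn : 2 ≤ n) {c : ℂ} (hc : c ∈ multibrotSet n)
    {q e : ℂ → ℂ} {ε : ℝ} (I : Inv n c q e ε) (k : ℕ) :
    ∫⁻ w in UU n c k \ UU n c (k + 1), ‖q w‖ₑ ≤ ENNReal.ofReal ε := by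
  set E : Set ℂ := UU n c k with hE
  have hEm : MeasurableSet E := (isOpen_UU' n c k).measurableSet
  have hE3 : E ⊆ closedBall 0 3 := UU_sub_ball hn hc k
  have hfin : ∫⁻ w in E, ‖q w‖ₑ ≠ ⊤ := ne_top_of_le_ne_top I.fin (lintegral_mono_set hE3)
  have her : ∫⁻ w in E, ‖e w‖ₑ ≤ ENNReal.ofReal ε := (lintegral_mono_set hE3).trans I.mass
  have key : ∫⁻ w in E, ‖q w‖ₑ ≤ (∫⁻ w in UU n c (k + 1), ‖q w‖ₑ) +
      ENNReal.ofReal ε := by
    calc ∫⁻ w in E, ‖q w‖ₑ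
        ≤ ∫⁻ w in E, (‖∑ ζ ∈ (Tp n c - Polynomial.C w).roots.toFinset,
            q ζ / (n * ζ ^ (n - 1)) ^ 2‖ₑ + ‖e w‖ₑ) := by
          apply lintegral_mono_ae
          apply ae_restrict_of_ae
          filter_upwards [I.push] with w hw
          rw [hw]
          have h2 : q w = (q w + e w) - e w := by ring
          calc ‖q w‖ₑ = ‖(q w + e w) - e w‖ₑ := by rw [← h2]
            _ ≤ _ := enorm_sub_le
      _ = (∫⁻ w in E, ‖∑ ζ ∈ (Tp n c - Polynomial.C w).roots.toFinset,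
            q ζ / (n * ζ ^ (n - 1)) ^ 2‖ₑ) + ∫⁻ w in E, ‖e w‖ₑ := by
          apply lintegral_add_right
          exact I.me.enorm
      _ ≤ _ := by
          refine add_le_add ((contr hn c I.mq hEm).trans ?_) her
          rw [hE, UU_preim]
  have hsub : UU n c (k + 1) ⊆ E := UU_anti hn hc k
  have h3 : (∫⁻ w in UU n c (k + 1), ‖q w‖ₑ) +
      ∫⁻ w in E \ UU n c (k + 1), ‖q w‖ₑ ≤
      (∫⁻ w in UU n c (k + 1), ‖q w‖ₑ) + ENNReal.ofReal ε := by
    have h4 := lintegral_inter_add_sdiff (μ := volume) (fun w => ‖q w‖ₑ) E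
      (isOpen_UU' n c (k + 1)).measurableSet
    rw [inter_eq_right.mpr hsub] at h4
    rw [h4]
    exact key
  refine ENNReal.le_of_add_le_add_left ?_ h3
  exact ne_top_of_le_ne_top hfin (lintegral_mono_set hsub)

theorem Inv.hole {n : ℕ} (hn : 2 ≤ n) {c : ℂ} (hc : c ∈ multibrotSet n)
    {q e : ℂ → ℂ} {ε : ℝ} (I : Inv n c q e ε) (hε0 : 0 ≤ ε) {k : ℕ} (hk : 1 ≤ k)
    {A : Set ℂ} (hA : ∀ x ∈ A, x ∈ UU n c (k - 1) ∧ x ∉ UU n c (k + 1)) :
    ∫⁻ w in A, ‖q w‖ₑ ≤ ENNReal.ofReal (2 * ε) := by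
  have h1 : A ⊆ (UU n c (k - 1) \ UU n c k) ∪ (UU n c k \ UU n c (k + 1)) := by
    intro x hx
    obtain ⟨h2, h3⟩ := hA x hx
    by_cases h4 : x ∈ UU n c k
    · exact Or.inr ⟨h4, h3⟩
    · exact Or.inl ⟨h2, h4⟩
  have h2 := I.annulus hn hc (k - 1)
  rw [Nat.sub_add_cancel hk] at h2
  calc ∫⁻ w in A, ‖q w‖ₑ
      ≤ ∫⁻ w in (UU n c (k - 1) \ UU n c k) ∪ (UU n c k \ UU n c (k + 1)), ‖q w‖ₑ :=
        lintegral_mono_set h1
    _ ≤ (∫⁻ w in UU n c (k - 1) \ UU n c k, ‖q w‖ₑ) +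
          ∫⁻ w in UU n c k \ UU n c (k + 1), ‖q w‖ₑ := lintegral_union_le _ _ _
    _ ≤ ENNReal.ofReal ε + ENNReal.ofReal ε := add_le_add h2 (I.annulus hn hc k)
    _ = ENNReal.ofReal (2 * ε) := by
        rw [← ENNReal.ofReal_add hε0 hε0]
        congr 1
        ring

/-- The value of the quadratic differential in a hole. -/
lemma qw_le {n : ℕ} (hn : 2 ≤ n) {c : ℂ} (hc : c ∈ multibrotSet n) {J : ℕ} {a : ℕ → ℂ}
    {e : ℂ → ℂ} {ε : ℝ} (hε0 : 0 ≤ ε) (I : Inv n c (qw n c J a) e ε) {k : ℕ} (hk : 1 ≤ k)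
    {w : ℂ} {s : ℝ} (hs : 0 < s)
    (hA : ∀ x ∈ ball w s, x ∈ UU n c (k - 1) ∧ x ∉ UU n c (k + 1)) :
    ‖qw n c J a w‖ ≤ 2 * ε / s ^ 2 := by
  have hz : ∀ j < J, s ≤ ‖orb n c c j - w‖ := by
    intro j _
    by_contra hcon
    push Not at hcon
    have h1 : orb n c c j ∈ ball w s := by rwa [mem_ball, dist_eq_norm]
    exact (hA _ h1).2 (UU_mem hn hc j (k + 1))
  have h1 := Pool.Agent.T2H09.LU.hole J (fun j => orb n c c j) a w (s := s) (δ := 1)
    (B := 2 / s) hs one_pos hz X (by simp) (by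
      intro u hu
      rw [eval_X]
      simpa using hu)
  have h2 := I.hole hn hc hε0 (k := k) hk hA
  have h3 : ENNReal.ofReal (Real.pi * s *
      ‖∑ j ∈ Finset.range J, a j * (X : ℂ[X]).eval (((1 : ℝ) : ℂ) / (orb n c c j - w))‖) ≤
      ENNReal.ofReal (2 / s * (2 * ε)) := by
    rw [ENNReal.ofReal_mul (show (0 : ℝ) ≤ 2 / s by positivity)]
    refine h1.trans ?_
    gcongr
    exact h2
  rw [ENNReal.ofReal_le_ofReal_iff (by positivity)] at h3
  have e : ∑ j ∈ Finset.range J, a j *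
      (X : ℂ[X]).eval (((1 : ℝ) : ℂ) / (orb n c c j - w)) = -qw n c J a w := by
    unfold qw
    rw [← Finset.sum_neg_distrib]
    refine Finset.sum_congr rfl fun j _ => ?_
    rw [eval_X, Complex.ofReal_one, mul_one_div, ← neg_sub w, div_neg]
  rw [e, norm_neg] at h3
  have h4 : 2 * s * ‖qw n c J a w‖ ≤ Real.pi * s * ‖qw n c J a w‖ := by
    have := Real.pi_gt_three
    gcongr
    linarith
  rw [le_div_iff₀ (by positivity)]
  have h5 : 2 * s * ‖qw n c J a w‖ ≤ 2 / s * (2 * ε) := h4.trans h3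
  have h6 : 2 / s * (2 * ε) = 4 * ε / s := by ring
  rw [h6, le_div_iff₀ hs] at h5
  nlinarith

/-- The residues of `α q_J + β q_i`. -/
noncomputable def aw (n : ℕ) (c : ℂ) (i : ℕ) (α β : ℂ) (t : ℕ) : ℂ :=
  (α + if t < i then β else 0) * (P n c c t)⁻¹

lemma qw_aw (n : ℕ) (c : ℂ) {J i : ℕ} (hi : i ≤ J) (α β w : ℂ) :
    qw n c J (aw n c i α β) w = α * qd n c J w + β * qd n c i w := by
  unfold qw qd aw
  have h1 : ∀ t, (α + if t < i then β else 0) * (P n c c t)⁻¹ / (w - orb n c c t) =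
      α * ((P n c c t)⁻¹ / (w - orb n c c t)) +
        (if t < i then β * ((P n c c t)⁻¹ / (w - orb n c c t)) else 0) := by
    intro t
    by_cases h : t < i
    · simp only [h, if_true]
      ring
    · simp only [h, if_false]
      ring
  rw [Finset.sum_congr rfl fun t _ => h1 t, Finset.sum_add_distrib, ← Finset.mul_sum]
  congr 1
  rw [Finset.mul_sum, ← Finset.sum_filter]
  apply Finset.sum_congr _ fun _ _ => rfl
  ext t
  simp only [Finset.mem_filter, Finset.mem_range]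
  omega

/-- `α q_J + β q_i` is invariant up to the error `α er_J + β er_i`. -/
theorem inv_comb {n : ℕ} (hn : 2 ≤ n) {c : ℂ} (hc : c ∈ multibrotSet n) {J i : ℕ} (hi : i ≤ J)
    (h0 : ∀ j < J, orb n c c j ≠ 0) (α β : ℂ) {ε : ℝ}
    (hmass : ∫⁻ w in closedBall (0 : ℂ) 3, ‖α * er n c J w + β * er n c i w‖ₑ ≤
      ENNReal.ofReal ε) :
    Inv n c (qw n c J (aw n c i α β)) (fun w => α * er n c J w + β * er n c i w) ε := by
  refine ⟨measurable_qw _ _ _ _, ?_, qw_fin hn hc J _, ?_, hmass⟩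
  · unfold er
    apply Measurable.add <;> apply Measurable.const_mul <;>
    exact (measurable_const.div (measurable_id.sub_const _)).sub
      (measurable_const.div (measurable_id.sub_const _))
  · have hae : ∀ᵐ w : ℂ, ∀ j, w ≠ orb n c c j := by
      rw [ae_all_iff]
      intro j
      rw [ae_iff]
      simp
    filter_upwards [hae] with w hw
    have h1 : ∀ ζ : ℂ, qw n c J (aw n c i α β) ζ / (n * ζ ^ (n - 1)) ^ 2 =
        α * (qd n c J ζ / (n * ζ ^ (n - 1)) ^ 2) + β * (qd n c i ζ / (n * ζ ^ (n - 1)) ^ 2) := by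
      intro ζ
      rw [qw_aw n c hi]
      ring
    rw [Finset.sum_congr rfl fun ζ _ => h1 ζ, Finset.sum_add_distrib, ← Finset.mul_sum,
      ← Finset.mul_sum, push_qd hn h0 (hw 0) (fun j _ => hw (j + 1)),
      push_qd hn (fun j hj => h0 j (by omega)) (hw 0) (fun j _ => hw (j + 1)), qw_aw n c hi]
    ring

end Pool.Agent.T2h24.GP
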