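import Pool.Agent.T2h24.GP.A2

/-!
# The main estimate at a point of the critical orbit
-/

set_option autoImplicit false
open Set Filter Topology Metric MeasureTheory Polynomial
open scoped ENNReal

namespace Pool.Agent.T2h24.GP

open Pool.Agent.W746.LD Pool.Agent.T2H09.DH Pool.Agent.T2H09.LU Pool.Agent.T2H09.LV
open Pool.Agent.T2H09.LW N62a1eb23

theorem main_gen {n : ℕ} (hn : 2 ≤ n) {c : ℂ} (hc : c ∈ multibrotSet n) {a : ℂ} (ha : Bd n c a)
    {M : ℕ} (hM : 1 ≤ M) {F G : ℂ → ℂ} {ε : ℝ} (hε : 0 < ε)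
    {A : ℝ} (hA : 0 ≤ A) {m : ℝ} (hm : 0 ≤ m)
    (hG : DifferentiableOn ℂ G (ball a (Real.exp (-m) / 2)))
    (hGl : ∀ w ∈ ball a (Real.exp (-m) / 2), ‖G w‖ ≤ Real.exp A) (hG1 : G a = 1)
    (hGF : ∀ w, w ≠ a → ‖G w‖ ≤ ‖w - a‖ * ‖F w‖)
    (hF : ∀ k, 1 ≤ k → ∀ (w : ℂ) (s : ℝ), 0 < s →
      (∀ z ∈ ball w s, z ∈ UU n c (k - 1) ∧ z ∉ UU n c (k + 1)) → ‖F w‖ ≤ 2 * ε / s ^ 2)
    {L : ℝ} (hL0 : 0 ≤ L) (hL : ∀ k, kx n c a (k + 1) ≤ kx n c a k + L)
    {h m0 K : ℝ} (hh : h = 1 / (8 * (3 ^ n + 2))) (hLh : h * L ≤ 1)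
    (hm0 : m0 = Real.exp (-(2 + L)) * h / 4) (hK : K = 8 * Real.exp 1 / m0) {q : ℕ}
    (hq : A + 2 ≤ 2 ^ q) {Dm : ℕ}
    (hDm : ⌊(A + (2 * Real.log (K + 2) + 2)) / 2⌋₊ + 1 ≤ Dm)
    (hx : m + Real.log (4 * K ^ 2) + q * Real.log (2 * K ^ 2) + 2 ≤ kx n c a M) :
    -(2 * Real.log (K + 2) + 2) < Real.log ε + Real.log (12 * (Dm * (M + 1)) ^ 2 / h ^ 2) +
      (m + Real.log (4 * K ^ 2) + q * Real.log (2 * K ^ 2) + 2 + L) := by
  have hM1 : (1 : ℝ) ≤ M := by exact_mod_cast hM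
  have hM0 : (0 : ℝ) < M := by linarith
  have hn1 : (1 : ℝ) ≤ n := by exact_mod_cast (by omega : 1 ≤ n)
  have h3n : (1 : ℝ) ≤ 3 ^ n := one_le_pow₀ (by norm_num)
  have hh0 : 0 < h := by rw [hh]; positivity
  have hh1 : h ≤ 1 := by
    rw [hh, div_le_one (by positivity)]
    linarith
  have hm00 : 0 < m0 := by rw [hm0]; positivity
  have hm01 : m0 ≤ 1 := by
    rw [hm0]
    have h1 : Real.exp (-(2 + L)) ≤ 1 := by rw [Real.exp_le_one_iff]; linarith
    have h2 : 0 ≤ Real.exp (-(2 + L)) := (Real.exp_pos _).le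
    nlinarith
  have hK8 : 8 * Real.exp 1 ≤ K := by
    rw [hK, le_div_iff₀ hm00]
    nlinarith [Real.exp_pos 1]
  have hexp1 : 2 ≤ Real.exp 1 := by
    have := Real.add_one_le_exp (1 : ℝ)
    linarith
  have hK16 : 16 ≤ K := by linarith
  have hK0 : 0 < K := by linarith
  have hK1 : 1 ≤ K ^ 2 := one_le_pow₀ (by linarith)
  have hlK4 : 0 ≤ Real.log (4 * K ^ 2) := Real.log_nonneg (by linarith)
  have hlK2 : 0 ≤ Real.log (2 * K ^ 2) := Real.log_nonneg (by linarith)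
  obtain ⟨e, he⟩ : ∃ e, e = -(2 * Real.log (K + 2) + 2) := ⟨_, rfl⟩
  rw [← he]
  by_contra hcon
  push Not at hcon
  obtain ⟨x, hxd⟩ : ∃ x : ℕ → ℝ, x = fun i : ℕ => m + Real.log (4 * K ^ 2) +
    (i : ℝ) * Real.log (2 * K ^ 2) := ⟨_, rfl⟩
  have hx0 : ∀ i, 0 ≤ x i := by
    intro i
    rw [hxd]
    have : 0 ≤ (i : ℝ) * Real.log (2 * K ^ 2) := by positivity
    simp only
    linarith
  have hxq : ∀ i < q, x i ≤ m + Real.log (4 * K ^ 2) + q * Real.log (2 * K ^ 2) := by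
    intro i hi
    rw [hxd]
    have h1 : (i : ℝ) ≤ q := by exact_mod_cast hi.le
    have h2 : (i : ℝ) * Real.log (2 * K ^ 2) ≤ q * Real.log (2 * K ^ 2) := by gcongr
    simp only
    linarith
  have h4K : Real.exp (-Real.log (4 * K ^ 2)) = 1 / (4 * K ^ 2) := by
    rw [Real.exp_neg, Real.exp_log (by positivity), one_div]
  have h2K : Real.exp (-Real.log (2 * K ^ 2)) = 1 / (2 * K ^ 2) := by
    rw [Real.exp_neg, Real.exp_log (by positivity), one_div]
  have hlt := blocks (G := G) (c := a) (m := m0) (K := K) (R' := Real.exp (-m) / 2) (e := e)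
    (A := A) hm00 hm01 hK hG hGl hA he hq (fun i => Real.exp (-x i))
    (fun i _ => Real.exp_pos _)
    (by
      have e1 : Real.exp (-x 0) = Real.exp (-m) * (1 / (4 * K ^ 2)) := by
        rw [← h4K, ← Real.exp_add]
        congr 1
        rw [hxd]
        simp only
        push_cast
        ring
      change K ^ 2 * Real.exp (-x 0) < Real.exp (-m) / 2
      rw [e1]
      have e2 : K ^ 2 * (Real.exp (-m) * (1 / (4 * K ^ 2))) = Real.exp (-m) / 4 := by field_simp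
      rw [e2]
      have := Real.exp_pos (-m)
      linarith)
    (by
      intro i hi
      have e1 : Real.exp (-x (i + 1)) = Real.exp (-x i) * (1 / (2 * K ^ 2)) := by
        rw [← h2K, ← Real.exp_add]
        congr 1
        rw [hxd]
        simp only
        push_cast
        ring
      change K ^ 2 * Real.exp (-x (i + 1)) < Real.exp (-x i)
      rw [e1]
      have e2 : K ^ 2 * (Real.exp (-x i) * (1 / (2 * K ^ 2))) = Real.exp (-x i) / 2 := by
        field_simp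
      rw [e2]
      have := Real.exp_pos (-x i)
      linarith)
    (by
      intro i hi D hD1 hD2
      have hDle : D ≤ Dm := by
        refine hD2.trans (le_trans (le_of_eq ?_) hDm)
        rw [he, sub_neg_eq_add]
      have hxi := hxq i hi
      obtain ⟨w, hw1, hw2, hw3⟩ := nodesx hn hc ha (M := M) hL hh hLh (hx0 i) (by linarith) hD1
      refine ⟨w, hw1, ?_, ?_⟩
      · intro j hj k hk
        have := hw2 j hj k hk
        rw [← hm0] at this
        exact this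
      · intro j hj
        obtain ⟨k, k1, k2, k3, k4, k5, k6, k7⟩ := hw3 j hj
        have hδ := dx_pos hn hc ha k
        obtain ⟨lam, hlam⟩ : ∃ lam, lam = kx n c a k - kx n c a (k - 1) := ⟨_, rfl⟩
        rw [← hlam] at k3 k4 k7
        have hqd := hF k k1 (w j) (h / 2 * lam * dx n c a k) (by positivity) k7
        refine (hGF (w j) k5).trans ?_
        have hD0 : (0 : ℝ) < D := by exact_mod_cast hD1
        have hDm' : (D : ℝ) ≤ Dm := by exact_mod_cast hDle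
        have hlam' : 1 / lam ≤ Dm * (M + 1) := by
          rw [div_le_iff₀ k3]
          have h1 : 1 ≤ (D : ℝ) * (M + 1) * lam := by
            rw [div_le_iff₀ (by positivity)] at k4
            linarith
          refine h1.trans ?_
          gcongr
        have hδ' : 1 / dx n c a k ≤ Real.exp (x i + 2 + L) := by
          rw [← exp_kx hn hc ha k, one_div, ← Real.exp_neg, neg_neg]
          exact Real.exp_le_exp.mpr k2
        have hD0m : (0 : ℝ) < Dm := by linarith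
        calc ‖w j - a‖ * ‖F (w j)‖
            ≤ 3 / 2 * dx n c a k * (2 * ε / (h / 2 * lam * dx n c a k) ^ 2) := by gcongr
          _ = 12 * ε / h ^ 2 * (1 / lam) ^ 2 * (1 / dx n c a k) := by
              field_simp
              norm_num
          _ ≤ 12 * ε / h ^ 2 * (Dm * (M + 1)) ^ 2 * Real.exp (x i + 2 + L) := by gcongr
          _ = Real.exp (Real.log ε + Real.log (12 * (Dm * (M + 1)) ^ 2 / h ^ 2) +
                (x i + 2 + L)) := by
              rw [Real.exp_add (Real.log ε + _) _, Real.exp_add (Real.log ε) _, Real.exp_log hε,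
                Real.exp_log (by positivity)]
              ring
          _ ≤ Real.exp e := by
              apply Real.exp_le_exp.mpr
              linarith)
  rw [hG1, norm_one] at hlt
  exact lt_irrefl _ hlt

/-- The main estimate with a constant of the form `A log M`. The function is bounded by
`exp (M ^ b)`. -/
theorem main_absx {n : ℕ} (hn : 2 ≤ n) (b : ℕ) : ∃ A : ℝ, 0 < A ∧
    ∀ c ∈ multibrotSet n, ∀ a : ℂ, Bd n c a → ∀ M : ℕ, 2 ≤ M →
    ∀ (F G : ℂ → ℂ) (ε m : ℝ), 0 < ε → 0 ≤ m →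
    DifferentiableOn ℂ G (ball a (Real.exp (-m) / 2)) →
    (∀ w ∈ ball a (Real.exp (-m) / 2), ‖G w‖ ≤ Real.exp ((M : ℝ) ^ b)) → G a = 1 →
    (∀ w, w ≠ a → ‖G w‖ ≤ ‖w - a‖ * ‖F w‖) →
    (∀ k, 1 ≤ k → ∀ (w : ℂ) (s : ℝ), 0 < s →
      (∀ z ∈ ball w s, z ∈ UU n c (k - 1) ∧ z ∉ UU n c (k + 1)) → ‖F w‖ ≤ 2 * ε / s ^ 2) →
    m + A * Real.log M ≤ kx n c a M → 0 ≤ Real.log ε + (A * Real.log M + m) := by
  have h3n : (1 : ℝ) ≤ 3 ^ n := one_le_pow₀ (by norm_num)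
  obtain ⟨L, hLd⟩ : ∃ L, L = Real.log (3 ^ n + 4) := ⟨_, rfl⟩
  have hL0 : 0 ≤ L := by rw [hLd]; exact Real.log_nonneg (by linarith)
  obtain ⟨h, hh⟩ : ∃ h : ℝ, h = 1 / (8 * (3 ^ n + 2)) := ⟨_, rfl⟩
  have hh0 : 0 < h := by rw [hh]; positivity
  have hLh : h * L ≤ 1 := by
    rw [hh, div_mul_eq_mul_div, one_mul, div_le_one (by positivity), hLd]
    have := Real.log_le_sub_one_of_pos (show (0 : ℝ) < 3 ^ n + 4 by positivity)
    linarith
  obtain ⟨m0, hm0⟩ : ∃ m0, m0 = Real.exp (-(2 + L)) * h / 4 := ⟨_, rfl⟩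
  have hm00 : 0 < m0 := by rw [hm0]; positivity
  obtain ⟨K, hK⟩ : ∃ K, K = 8 * Real.exp 1 / m0 := ⟨_, rfl⟩
  have hh1 : h ≤ 1 := by
    rw [hh, div_le_one (by positivity)]
    linarith
  have hm01 : m0 ≤ 1 := by
    rw [hm0]
    have h1 : Real.exp (-(2 + L)) ≤ 1 := by rw [Real.exp_le_one_iff]; linarith
    have h2 : 0 ≤ Real.exp (-(2 + L)) := (Real.exp_pos _).le
    nlinarith
  have hexp1 : 2 ≤ Real.exp 1 := by
    have := Real.add_one_le_exp (1 : ℝ)
    linarith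
  have hK16 : 16 ≤ K := by
    rw [hK, le_div_iff₀ hm00]
    nlinarith
  have hK0 : 0 < K := by linarith
  have hK1 : 1 ≤ K ^ 2 := one_le_pow₀ (by linarith)
  have hlK4 : 0 ≤ Real.log (4 * K ^ 2) := Real.log_nonneg (by linarith)
  have hlK2 : 0 ≤ Real.log (2 * K ^ 2) := Real.log_nonneg (by linarith)
  have hlKK : 0 ≤ Real.log (K + 2) := Real.log_nonneg (by linarith)
  obtain ⟨l2, hl2⟩ : ∃ l2, l2 = Real.log 2 := ⟨_, rfl⟩
  have hl20 : 0 < l2 := by rw [hl2]; exact Real.log_pos (by norm_num)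
  -- the constants
  obtain ⟨B2, hB2⟩ : ∃ B2, B2 = Real.log (K + 2) + 8 := ⟨_, rfl⟩
  have hB21 : 1 ≤ B2 := by rw [hB2]; linarith
  have hlB2 : 0 ≤ Real.log B2 := Real.log_nonneg hB21
  have hl48 : 0 ≤ Real.log 48 := Real.log_nonneg (by norm_num)
  have hlh : Real.log h ≤ 0 := Real.log_nonpos hh0.le hh1
  obtain ⟨LK, hLK⟩ : ∃ LK, LK = Real.log (2 * K ^ 2) := ⟨_, rfl⟩
  rw [← hLK] at hlK2
  obtain ⟨A3, hA3⟩ : ∃ A3, A3 = Real.log 3 / l2 + 1 := ⟨_, rfl⟩
  have hl3 : 0 ≤ Real.log 3 := Real.log_nonneg (by norm_num)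
  have hA30 : 0 ≤ A3 := by rw [hA3]; positivity
  obtain ⟨A2, hA2⟩ : ∃ A2, A2 = Real.log 48 + 2 * Real.log B2 - 2 * Real.log h +
    Real.log (4 * K ^ 2) + 4 + L + (2 * Real.log (K + 2) + 2) := ⟨_, rfl⟩
  have hA20 : 0 ≤ A2 := by rw [hA2]; linarith
  refine ⟨(A2 + A3 * LK) / l2 + (2 * b + 2) + b * LK / l2, by positivity, ?_⟩
  intro c hc a ha M hM F G ε m hε hm hG hGl hG1 hGF hF hma
  have hM2 : (2 : ℝ) ≤ M := by exact_mod_cast hM
  have hM0 : (0 : ℝ) < M := by linarith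
  obtain ⟨l, hl⟩ : ∃ l, l = Real.log M := ⟨_, rfl⟩
  have hll : l2 ≤ l := by rw [hl, hl2]; exact Real.log_le_log (by norm_num) hM2
  have hl0 : 0 < l := by linarith
  rw [← hl] at hma ⊢
  have hMb1 : (1 : ℝ) ≤ (M : ℝ) ^ b := one_le_pow₀ (by linarith)
  have hMb0 : (0 : ℝ) < (M : ℝ) ^ b := by positivity
  have hlMb : Real.log ((M : ℝ) ^ b) = b * l := by rw [Real.log_pow, hl]
  -- the number of blocks
  obtain ⟨q, hq⟩ : ∃ q : ℕ, q = ⌈Real.log (3 * (M : ℝ) ^ b) / l2⌉₊ := ⟨_, rfl⟩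
  have hBM : 0 < 3 * (M : ℝ) ^ b := by positivity
  have hlBM : Real.log (3 * (M : ℝ) ^ b) = Real.log 3 + b * l := by
    rw [Real.log_mul (by norm_num) hMb0.ne', hlMb]
  have hq1 : (M : ℝ) ^ b + 2 ≤ 2 ^ q := by
    have h1 : Real.log (3 * (M : ℝ) ^ b) / l2 ≤ q := by rw [hq]; exact Nat.le_ceil _
    rw [div_le_iff₀ hl20] at h1
    have h2 : 3 * (M : ℝ) ^ b ≤ 2 ^ q := by
      have h3 : (2 : ℝ) ^ q = Real.exp (q * l2) := by
        rw [Real.exp_nat_mul, hl2, Real.exp_log (by norm_num)]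
      rw [h3, ← Real.exp_log hBM]
      exact Real.exp_le_exp.mpr h1
    linarith
  have hq2 : (q : ℝ) ≤ A3 + b * l / l2 := by
    have h1 : (q : ℝ) ≤ (Real.log 3 + b * l) / l2 + 1 := by
      rw [hq, ← hlBM]
      apply (Nat.ceil_lt_add_one _).le
      rw [hlBM]
      positivity
    rw [add_div] at h1
    rw [hA3]
    linarith
  -- the number of nodes
  obtain ⟨Dm, hDm⟩ : ∃ Dm : ℕ, Dm = ⌊((M : ℝ) ^ b + (2 * Real.log (K + 2) + 2)) / 2⌋₊ + 1 :=
    ⟨_, rfl⟩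
  have hDm1 : (1 : ℝ) ≤ Dm := by
    rw [hDm]
    push_cast
    have : (0 : ℝ) ≤ (⌊((M : ℝ) ^ b + (2 * Real.log (K + 2) + 2)) / 2⌋₊ : ℝ) := Nat.cast_nonneg _
    linarith
  have hDm2 : (Dm : ℝ) ≤ B2 * (M : ℝ) ^ b := by
    have h1 : (Dm : ℝ) ≤ ((M : ℝ) ^ b + (2 * Real.log (K + 2) + 2)) / 2 + 1 := by
      rw [hDm]
      push_cast
      have := Nat.floor_le (show 0 ≤ ((M : ℝ) ^ b + (2 * Real.log (K + 2) + 2)) / 2 by positivity)
      linarith
    rw [hB2]
    have h2 : Real.log (K + 2) + 4 ≤ (Real.log (K + 2) + 4) * (M : ℝ) ^ b :=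
      le_mul_of_one_le_right (by linarith) (by linarith)
    linarith
  have hlog : Real.log (12 * (Dm * (M + 1)) ^ 2 / h ^ 2) ≤
      Real.log 48 + 2 * Real.log B2 - 2 * Real.log h + (2 * b + 2) * l := by
    have h1 : 12 * ((Dm : ℝ) * (M + 1)) ^ 2 / h ^ 2 ≤
        48 * B2 ^ 2 * ((M : ℝ) ^ b) ^ 2 * M ^ 2 / h ^ 2 := by
      have h2 : (Dm : ℝ) * (M + 1) ≤ B2 * (M : ℝ) ^ b * (2 * M) := by
        gcongr
        linarith
      apply div_le_div_of_nonneg_right _ (by positivity)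
      calc 12 * ((Dm : ℝ) * (M + 1)) ^ 2 ≤ 12 * (B2 * (M : ℝ) ^ b * (2 * M)) ^ 2 := by gcongr
        _ = _ := by ring
    refine (Real.log_le_log (by positivity) h1).trans (le_of_eq ?_)
    rw [Real.log_div (by positivity) (by positivity), Real.log_mul (by positivity) (by positivity),
      Real.log_mul (by positivity) (by positivity),
      Real.log_mul (by norm_num) (by positivity)]
    simp only [Real.log_pow]
    rw [← hl]
    push_cast
    ring
  have hqLK : (q : ℝ) * LK ≤ A3 * LK + b * LK / l2 * l := by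
    calc (q : ℝ) * LK ≤ (A3 + b * l / l2) * LK := by gcongr
      _ = _ := by ring
  have hAl : A2 + A3 * LK + ((2 * b + 2) + b * LK / l2) * l ≤
      ((A2 + A3 * LK) / l2 + (2 * b + 2) + b * LK / l2) * l := by
    have h1 : A2 + A3 * LK ≤ (A2 + A3 * LK) / l2 * l := by
      rw [div_mul_eq_mul_div, le_div_iff₀ hl20]
      gcongr
    linarith
  have h2b : 0 ≤ (2 * (b : ℝ) + 2) * l := by positivity
  have hcond : m + Real.log (4 * K ^ 2) + q * Real.log (2 * K ^ 2) + 2 ≤ kx n c a M := by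
    rw [← hLK]
    linarith
  have key := main_gen hn hc ha (by omega : 1 ≤ M) hε hMb0.le hm hG hGl hG1 hGF hF hL0
    (fun k => by
      unfold kx
      have h1 := Real.log_le_log (dx_pos hn hc ha k) (dx_step hn hc ha k)
      rw [Real.log_mul (by positivity) (dx_pos hn hc ha (k + 1)).ne'] at h1
      linarith)
    hh hLh hm0 hK hq1 hDm.ge hcond
  rw [← hLK] at key
  linarith

end Pool.Agent.T2h24.GP
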