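import Pool.Agent.T2h24.GP.A3

/-!
# The main estimate at a point of the critical orbit, for quadratic differentials with poles on the
critical orbit
-/

set_option autoImplicit false
open Set Filter Topology Metric MeasureTheory Polynomial
open scoped ENNReal

namespace Pool.Agent.T2h24.GP

open Pool.Agent.W746.LD Pool.Agent.T2H09.DH Pool.Agent.T2H09.LU Pool.Agent.T2H09.LV
open Pool.Agent.T2H09.LW N62a1eb23

/-- The product of the quadratic differential with `w - z_i`. -/
noncomputable def gx (n : ℕ) (c : ℂ) (J i : ℕ) (a : ℕ → ℂ) (w : ℂ) : ℂ :=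
  1 + (w - orb n c c i) * ∑ t ∈ (Finset.range J).erase i, a t / (w - orb n c c t)

lemma gx_self (n : ℕ) (c : ℂ) (J i : ℕ) (a : ℕ → ℂ) : gx n c J i a (orb n c c i) = 1 := by
  unfold gx
  rw [sub_self, zero_mul, add_zero]

lemma gx_eq (n : ℕ) (c : ℂ) {J i : ℕ} (hi : i < J) {a : ℕ → ℂ} (ha : a i = 1) {w : ℂ}
    (hw : w ≠ orb n c c i) : gx n c J i a w = (w - orb n c c i) * qw n c J a w := by
  unfold gx qw
  rw [← Finset.add_sum_erase _ _ (Finset.mem_range.mpr hi), mul_add, ha, mul_one_div,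
    div_self (sub_ne_zero.mpr hw)]

theorem base {n : ℕ} (hn : 2 ≤ n) (b : ℕ) : ∃ A : ℝ, 0 < A ∧
    ∀ c ∈ multibrotSet n, ∀ i J M : ℕ, 2 ≤ M → i < J → ∀ (a : ℕ → ℂ) (e : ℂ → ℂ) (ε m : ℝ),
    0 < ε → 0 ≤ m → a i = 1 → Inv n c (qw n c J a) e ε →
    (∀ t < J, t ≠ i → Real.exp (-m) ≤ ‖orb n c c t - orb n c c i‖) →
    1 + ∑ t ∈ (Finset.range J).erase i, ‖a t‖ ≤ Real.exp ((M : ℝ) ^ b) →
    m + A * Real.log M ≤ kx n c (orb n c c i) M → 0 ≤ Real.log ε + (A * Real.log M + m) := by
  obtain ⟨A, hA0, hA⟩ := main_absx hn b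
  refine ⟨A, hA0, ?_⟩
  intro c hc i J M hM hi a e ε m hε hm ha I hsep hsum hwin
  set x := orb n c c i with hx
  have hfar : ∀ w ∈ ball x (Real.exp (-m) / 2), ∀ t ∈ (Finset.range J).erase i,
      Real.exp (-m) / 2 ≤ ‖w - orb n c c t‖ := by
    intro w hw t ht
    rw [Finset.mem_erase, Finset.mem_range] at ht
    have h1 : ‖w - x‖ < Real.exp (-m) / 2 := by rwa [mem_ball, dist_eq_norm] at hw
    have h2 := hsep t ht.2 ht.1
    have h3 : ‖orb n c c t - x‖ ≤ ‖w - orb n c c t‖ + ‖w - x‖ := by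
      calc ‖orb n c c t - x‖ = ‖(w - x) - (w - orb n c c t)‖ := by ring_nf
        _ ≤ ‖w - x‖ + ‖w - orb n c c t‖ := norm_sub_le _ _
        _ = _ := add_comm _ _
    linarith
  have hR0 : 0 < Real.exp (-m) / 2 := by positivity
  refine hA c hc x (bd_orb hn hc i) M hM (qw n c J a) (gx n c J i a) ε m hε hm ?_ ?_
    (gx_self n c J i a) ?_ ?_ hwin
  · intro w hw
    apply DifferentiableAt.differentiableWithinAt
    unfold gx
    apply DifferentiableAt.const_add
    apply DifferentiableAt.mul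
    · exact differentiableAt_id.sub_const _
    · apply DifferentiableAt.fun_sum
      intro t ht
      apply DifferentiableAt.div
      · exact differentiableAt_const _
      · exact differentiableAt_id.sub_const _
      · have := hfar w hw t ht
        intro h1
        rw [h1, norm_zero] at this
        linarith
  · intro w hw
    have h1 : ‖w - x‖ < Real.exp (-m) / 2 := by rwa [mem_ball, dist_eq_norm] at hw
    refine le_trans ?_ hsum
    unfold gx
    refine (norm_add_le _ _).trans ?_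
    rw [norm_one, Finset.mul_sum]
    gcongr
    refine (norm_sum_le _ _).trans ?_
    apply Finset.sum_le_sum
    intro t ht
    have h3 := hfar w hw t ht
    have h5 : 0 < ‖w - orb n c c t‖ := by linarith
    rw [norm_mul, norm_div]
    calc ‖w - x‖ * (‖a t‖ / ‖w - orb n c c t‖)
        ≤ ‖w - orb n c c t‖ * (‖a t‖ / ‖w - orb n c c t‖) := by
          gcongr
          linarith
      _ = ‖a t‖ := by field_simp
  · intro w hw
    rw [gx_eq n c hi ha hw, norm_mul]
  · intro k hk w s hs hA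
    exact qw_le hn hc hε.le I hk hs hA

end Pool.Agent.T2h24.GP
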