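import Pool.Agent.T2h24.GP.A4
import Pool.Agent.TH279.MD.Final

/-!
# The three forms of the main estimate
-/

set_option autoImplicit false
open Set Filter Topology Metric MeasureTheory Polynomial
open scoped ENNReal

namespace Pool.Agent.T2h24.GP

open Pool.Agent.W746.LD Pool.Agent.T2H09.DH Pool.Agent.T2H09.LU Pool.Agent.T2H09.LV
open Pool.Agent.T2H09.LW N62a1eb23

/-- The depth of the return of `z_i` at the time `j`. -/
noncomputable def kd (n : ℕ) (c : ℂ) (i j : ℕ) : ℝ := -Real.log ‖orb n c c j - orb n c c i‖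

lemma P_ratio {n : ℕ} (hn : 2 ≤ n) {c : ℂ} (hc : c ∈ multibrotSet n) (j i : ℕ) :
    ‖P n c c (j + i)‖ ≤ ‖P n c c j‖ * (2 * n) ^ i := by
  induction i with
  | zero => simp
  | succ i ih =>
    rw [← add_assoc, norm_P_succ, pow_succ]
    have h5 := orbit_bound hn (mem_multibrot_orb hn hc) (j + i)
    calc ‖P n c c (j + i)‖ * (n * ‖orb n c c (j + i)‖ ^ (n - 1))
        ≤ (‖P n c c j‖ * (2 * n) ^ i) * (n * 2) := by gcongr
      _ = _ := by ring

/-- There are no coincidences on the critical orbit in a disc without attracting cycles. -/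
theorem no_coinc {n : ℕ} (hn : 2 ≤ n) {c : ℂ} (hc : c ∈ multibrotSet n) {r : ℝ} (hr : 0 < r)
    (hball : ∀ t ∈ ball c r, ¬ ∃ m z, IsAttractingCycle (fun z => z ^ n + t) m z) {t : ℂ}
    (ht : t ∈ ball c r) {i j : ℕ} (hij : i < j) : orb n t t j ≠ orb n t t i := by
  intro heq
  have hsub : ball c r ⊆ multibrotSet n := Pool.Agent.H713R2.AR.ball_subset hn hr hc hball
  have hpp : ∃ m k : ℕ, 1 ≤ k ∧ (Pool.Agent.TH279.MD.f n t)^[m + k] 0 =
      (Pool.Agent.TH279.MD.f n t)^[m] 0 := by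
    refine ⟨i + 1, j - i, by omega, ?_⟩
    have h1 := P_eq_orb hn j t
    have h2 := P_eq_orb hn i t
    rw [show i + 1 + (j - i) = j + 1 by omega]
    change Pool.Agent.H712R2.P n (j + 1) t = Pool.Agent.H712R2.P n (i + 1) t
    rw [h1, h2]
    exact heq
  have hnp : ∀ p : ℕ, 1 ≤ p → (Pool.Agent.TH279.MD.f n t)^[p] 0 ≠ 0 := fun p hp =>
    Pool.Agent.H713R2.AR.P_ne_zero hn (hball t ht) (n := p) hp
  obtain ⟨C, hC, h⟩ := Pool.Agent.TH279.MD.upper hn hpp hnp
  obtain ⟨r', hr'⟩ : ∃ r', r' = r - ‖t - c‖ := ⟨_, rfl⟩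
  have hr'0 : 0 < r' := by
    rw [mem_ball, dist_eq_norm] at ht
    rw [hr']
    linarith
  obtain ⟨δ, hδ⟩ : ∃ δ : ℝ, δ = min 1 (r' / (2 * (1 + C))) := ⟨_, rfl⟩
  have hδ0 : 0 < δ := by rw [hδ]; positivity
  have hδ1 : δ ≤ 1 := by rw [hδ]; exact min_le_left _ _
  have hδ2 : δ * (1 + C) ≤ r' / 2 := by
    have h1 : δ ≤ r' / (2 * (1 + C)) := by rw [hδ]; exact min_le_right _ _
    calc δ * (1 + C) ≤ r' / (2 * (1 + C)) * (1 + C) := by gcongr
      _ = r' / 2 := by field_simp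
  have hin : ∀ u : ℂ, ‖u - t‖ ≤ r' / 2 → u ∈ ball c r := by
    intro u hu
    rw [mem_ball, dist_eq_norm]
    calc ‖u - c‖ = ‖(u - t) + (t - c)‖ := by ring_nf
      _ ≤ ‖u - t‖ + ‖t - c‖ := norm_add_le _ _
      _ < r := by linarith
  have hn1 : (1 : ℝ) < n := by exact_mod_cast (by omega : 1 < n)
  have hnorm : ‖(t + (δ : ℂ)) - t‖ = δ := by
    rw [add_sub_cancel_left, Complex.norm_real, Real.norm_eq_abs, abs_of_pos hδ0]
  have hne : t + (δ : ℂ) ≠ t := by
    intro h1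
    rw [h1, sub_self, norm_zero] at hnorm
    linarith
  have hδC : δ ≤ δ * (1 + C) := by nlinarith
  have hmem : t + (δ : ℂ) ∈ multibrotSet n := hsub (hin _ (by rw [hnorm]; linarith))
  obtain ⟨-, ⟨c', h1, p, -, -, h2, -⟩, -⟩ := h _ hmem hne
  rw [hnorm] at h1
  have h3 : δ ^ ((n : ℝ) / ((n : ℝ) - 1)) ≤ δ := by
    have h4 : (1 : ℝ) ≤ (n : ℝ) / ((n : ℝ) - 1) := by
      rw [le_div_iff₀ (by linarith)]
      linarith
    calc δ ^ ((n : ℝ) / ((n : ℝ) - 1)) ≤ δ ^ (1 : ℝ) :=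
          Real.rpow_le_rpow_of_exponent_ge hδ0 hδ1 h4
      _ = δ := Real.rpow_one δ
  refine hball c' (hin c' ?_) ⟨p, 0, h2⟩
  calc ‖c' - t‖ = ‖(c' - (t + (δ : ℂ))) + ((t + (δ : ℂ)) - t)‖ := by ring_nf
    _ ≤ ‖c' - (t + (δ : ℂ))‖ + ‖(t + (δ : ℂ)) - t‖ := norm_add_le _ _
    _ ≤ C * δ + δ := by
      rw [hnorm]
      have : C * δ ^ ((n : ℝ) / ((n : ℝ) - 1)) ≤ C * δ := by gcongr
      linarith
    _ = δ * (1 + C) := by ring
    _ ≤ r' / 2 := hδ2

/-- The derivative of the difference of two orbit points with respect to the parameter. -/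
theorem D_diff {n : ℕ} (hn : 2 ≤ n) {c : ℂ} (hc : c ∈ multibrotSet n) {r : ℝ} (hr : 0 < r)
    (hball : ∀ t ∈ ball c r, ¬ ∃ m z, IsAttractingCycle (fun z => z ^ n + t) m z)
    {i j : ℕ} (hij : i < j) :
    r * ‖TH363.QI.D n c j - TH363.QI.D n c i‖ ≤ 2 * ‖orb n c c j - orb n c c i‖ *
      Real.log (4 / ‖orb n c c j - orb n c c i‖) := by
  have hsub : ball c r ⊆ multibrotSet n := Pool.Agent.H713R2.AR.ball_subset hn hr hc hball
  have hd : DifferentiableOn ℂ (fun t => orb n t t j - orb n t t i) (ball c r) :=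
    ((diff_param (n := n) j).sub (diff_param (n := n) i)).differentiableOn
  have h1 := nv hr hd (fun t ht => sub_ne_zero.mpr (no_coinc hn hc hr hball ht hij))
    (B := 4) (fun t ht => by
      have h1 := mem_multibrot_orb hn (hsub ht) j
      have h2 := mem_multibrot_orb hn (hsub ht) i
      have h3 := norm_sub_le (orb n t t j) (orb n t t i)
      linarith)
  have h2 : HasDerivAt (fun t => orb n t t j - orb n t t i)
      (TH363.QI.D n c j - TH363.QI.D n c i) c :=
    (TH363.QI.hasDerivAt_D n c j).sub (TH363.QI.hasDerivAt_D n c i)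
  rw [h2.deriv] at h1
  exact h1

lemma int_const_mul (a : ℂ) (g : ℂ → ℂ) :
    ∫⁻ w in closedBall (0 : ℂ) 3, ‖a * g w‖ₑ =
      ENNReal.ofReal ‖a‖ * ∫⁻ w in closedBall (0 : ℂ) 3, ‖g w‖ₑ := by
  have h1 : ∀ w, ‖a * g w‖ₑ = ‖a‖ₑ * ‖g w‖ₑ := fun w => enorm_mul _ _
  simp only [h1]
  rw [lintegral_const_mul' _ _ enorm_ne_top, ofReal_norm]

/-- The mass of the error term for a pair. -/
theorem mass_pair {n : ℕ} (hn : 2 ≤ n) {c : ℂ} (hc : c ∈ multibrotSet n) {r : ℝ} (hr : 0 < r)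
    (hr1 : r ≤ 1)
    (hball : ∀ t ∈ ball c r, ¬ ∃ m z, IsAttractingCycle (fun z => z ^ n + t) m z)
    (h0 : ∀ j, orb n c c j ≠ 0) {i j : ℕ} (hij : i < j) :
    ∫⁻ w in closedBall (0 : ℂ) 3, ‖P n c c i * er n c j w +
      (-(P n c c i) ^ 2 * (P n c c j)⁻¹) * er n c i w‖ₑ ≤
      ENNReal.ofReal (‖P n c c i * (P n c c j)⁻¹‖ * (100 / r) *
        (‖orb n c c j - orb n c c i‖ * (5 - Real.log ‖orb n c c j - orb n c c i‖))) := by
  have hπ := Real.pi_pos
  have hPi : P n c c i ≠ 0 := P_ne_zero hn fun k _ => h0 k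
  have hPj : P n c c j ≠ 0 := P_ne_zero hn fun k _ => h0 k
  have hcb : c ∈ ball c r := mem_ball_self hr
  have hne : orb n c c j ≠ orb n c c i := no_coinc hn hc hr hball hcb hij
  have hρ : 0 < ‖orb n c c j - orb n c c i‖ := norm_pos_iff.mpr (sub_ne_zero.mpr hne)
  have ho := mem_multibrot_orb hn hc
  have hc2 : ‖c‖ ≤ 2 := norm_le_two hn hc
  have hρ4 : ‖orb n c c j - orb n c c i‖ ≤ 4 := by
    refine (norm_sub_le _ _).trans ?_
    linarith [ho i, ho j]
  have hD := D_diff hn hc hr hball hij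
  set ρ := ‖orb n c c j - orb n c c i‖ with hρd
  set Dd := TH363.QI.D n c j - TH363.QI.D n c i with hDd
  have e : ∀ w, P n c c i * er n c j w + (-(P n c c i) ^ 2 * (P n c c j)⁻¹) * er n c i w =
      (P n c c i * (P n c c j)⁻¹) * ((1 / (w - orb n c c j) - 1 / (w - orb n c c i)) -
        Dd / (w - c)) := by
    intro w
    rw [hDd, D_eq' _ hPj, D_eq' _ hPi]
    unfold er
    field_simp
    ring
  have h1 : ∫⁻ w in closedBall (0 : ℂ) 3, ‖P n c c i * er n c j w +
      (-(P n c c i) ^ 2 * (P n c c j)⁻¹) * er n c i w‖ₑ =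
      ENNReal.ofReal ‖P n c c i * (P n c c j)⁻¹‖ * ∫⁻ w in closedBall (0 : ℂ) 3,
        ‖(1 / (w - orb n c c j) - 1 / (w - orb n c c i)) - Dd / (w - c)‖ₑ := by
    rw [← int_const_mul]
    simp only [e]
  have h2 : ∫⁻ w in closedBall (0 : ℂ) 3,
        ‖(1 / (w - orb n c c j) - 1 / (w - orb n c c i)) - Dd / (w - c)‖ₑ ≤
      ENNReal.ofReal (2 * Real.pi * (ρ * (2 + Real.log (12 / ρ))) + 2 * Real.pi * 6 * ‖Dd‖) := by
    calc ∫⁻ w in closedBall (0 : ℂ) 3,
          ‖(1 / (w - orb n c c j) - 1 / (w - orb n c c i)) - Dd / (w - c)‖ₑ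
        ≤ ∫⁻ w in closedBall (0 : ℂ) 3,
          (‖1 / (w - orb n c c j) - 1 / (w - orb n c c i)‖ₑ + ‖Dd / (w - c)‖ₑ) :=
          lintegral_mono fun w => enorm_sub_le
      _ = (∫⁻ w in closedBall (0 : ℂ) 3, ‖1 / (w - orb n c c j) - 1 / (w - orb n c c i)‖ₑ) +
          ∫⁻ w in closedBall (0 : ℂ) 3, ‖Dd / (w - c)‖ₑ := by
          apply lintegral_add_right
          exact (measurable_const.div (measurable_id.sub_const _)).enorm
      _ ≤ ENNReal.ofReal (2 * Real.pi * (ρ * (2 + Real.log (12 / ρ)))) +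
          ENNReal.ofReal (2 * Real.pi * 6 * ‖Dd‖) := by
          gcongr
          · exact two_poles (ho j) (ho i) hne
          · exact int_term_le _ _ (by linarith)
      _ = _ := by
          rw [← ENNReal.ofReal_add _ (by positivity)]
          have : 0 ≤ Real.log (12 / ρ) := by
            apply Real.log_nonneg
            rw [le_div_iff₀ hρ]
            linarith
          positivity
  rw [h1]
  calc ENNReal.ofReal ‖P n c c i * (P n c c j)⁻¹‖ * ∫⁻ w in closedBall (0 : ℂ) 3,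
        ‖(1 / (w - orb n c c j) - 1 / (w - orb n c c i)) - Dd / (w - c)‖ₑ
      ≤ ENNReal.ofReal ‖P n c c i * (P n c c j)⁻¹‖ *
        ENNReal.ofReal (2 * Real.pi * (ρ * (2 + Real.log (12 / ρ))) + 2 * Real.pi * 6 * ‖Dd‖) := by
        gcongr
    _ = ENNReal.ofReal (‖P n c c i * (P n c c j)⁻¹‖ *
        (2 * Real.pi * (ρ * (2 + Real.log (12 / ρ))) + 2 * Real.pi * 6 * ‖Dd‖)) := by
        rw [ENNReal.ofReal_mul (norm_nonneg _)]
    _ ≤ _ := by
        apply ENNReal.ofReal_le_ofReal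
        rw [mul_assoc ‖P n c c i * (P n c c j)⁻¹‖ (100 / r)]
        apply mul_le_mul_of_nonneg_left _ (norm_nonneg _)
        have hl12 : Real.log (12 / ρ) = Real.log 12 - Real.log ρ :=
          Real.log_div (by norm_num) hρ.ne'
        have hl4 : Real.log (4 / ρ) = Real.log 4 - Real.log ρ :=
          Real.log_div (by norm_num) hρ.ne'
        have hlog12 : Real.log 12 ≤ 3 := by
          rw [Real.log_le_iff_le_exp (by norm_num)]
          have := Real.exp_one_gt_d9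
          calc (12 : ℝ) ≤ 2.7182818283 ^ 3 := by norm_num
            _ ≤ Real.exp 1 ^ 3 := by gcongr
            _ = Real.exp 3 := by rw [← Real.exp_nat_mul]; norm_num
        have hlog4 : Real.log 4 ≤ 2 := by
          rw [show (4 : ℝ) = 2 ^ 2 by norm_num, Real.log_pow]
          have := Real.log_le_sub_one_of_pos (show (0 : ℝ) < 2 by norm_num)
          push_cast
          linarith
        have hρl : Real.log ρ ≤ 2 := (Real.log_le_log hρ hρ4).trans hlog4
        have hDr : ‖Dd‖ ≤ 2 * ρ * (5 - Real.log ρ) / r := by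
          rw [le_div_iff₀ hr]
          have h3 : 2 * ρ * Real.log (4 / ρ) ≤ 2 * ρ * (5 - Real.log ρ) := by
            apply mul_le_mul_of_nonneg_left _ (by positivity)
            linarith
          linarith
        have hr' : 1 ≤ 1 / r := by rw [le_div_iff₀ hr]; linarith
        have hρ5 : 0 ≤ ρ * (5 - Real.log ρ) := mul_nonneg hρ.le (by linarith)
        have hpi4 : Real.pi ≤ 3.15 := Real.pi_lt_d2.le
        calc 2 * Real.pi * (ρ * (2 + Real.log (12 / ρ))) + 2 * Real.pi * 6 * ‖Dd‖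
            ≤ 2 * Real.pi * (ρ * (5 - Real.log ρ)) +
              2 * Real.pi * 6 * (2 * ρ * (5 - Real.log ρ) / r) := by
              gcongr
              linarith
          _ = 2 * Real.pi * (ρ * (5 - Real.log ρ)) * 1 +
              24 * Real.pi * (ρ * (5 - Real.log ρ)) * (1 / r) := by ring
          _ ≤ 2 * Real.pi * (ρ * (5 - Real.log ρ)) * (1 / r) +
              24 * Real.pi * (ρ * (5 - Real.log ρ)) * (1 / r) := by gcongr
          _ = 26 * Real.pi * ((ρ * (5 - Real.log ρ)) * (1 / r)) := by ring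
          _ ≤ 100 * ((ρ * (5 - Real.log ρ)) * (1 / r)) := by
              gcongr
              linarith
          _ = 100 / r * (ρ * (5 - Real.log ρ)) := by ring

end Pool.Agent.T2h24.GP
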