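import Pool.Agent.T2h24.GP.A5

/-!
# The three forms of the main estimate, continued
-/

set_option autoImplicit false
open Set Filter Topology Metric MeasureTheory Polynomial
open scoped ENNReal

namespace Pool.Agent.T2h24.GP

open Pool.Agent.W746.LD Pool.Agent.T2H09.DH Pool.Agent.T2H09.LU Pool.Agent.T2H09.LV
open Pool.Agent.T2H09.LW N62a1eb23

lemma wsum {J M b : ℕ} (hM : 2 ≤ M) (hJM : J ≤ M) (i : ℕ) {a : ℕ → ℂ}
    (h : ∀ t < J, ‖a t‖ ≤ Real.exp ((M : ℝ) ^ b)) :
    1 + ∑ t ∈ (Finset.range J).erase i, ‖a t‖ ≤ Real.exp ((M : ℝ) ^ (b + 2)) := by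
  have hM2 : (2 : ℝ) ≤ M := by exact_mod_cast hM
  have hx1 : (1 : ℝ) ≤ (M : ℝ) ^ b := one_le_pow₀ (by linarith)
  obtain ⟨x, hx⟩ : ∃ x, x = (M : ℝ) ^ b := ⟨_, rfl⟩
  rw [← hx] at hx1 h
  have h1 : ∑ t ∈ (Finset.range J).erase i, ‖a t‖ ≤ M * Real.exp x := by
    calc ∑ t ∈ (Finset.range J).erase i, ‖a t‖
        ≤ ∑ t ∈ (Finset.range J).erase i, Real.exp x := by
          apply Finset.sum_le_sum
          intro t ht
          rw [Finset.mem_erase, Finset.mem_range] at ht
          exact h t ht.2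
      _ ≤ ∑ t ∈ Finset.range J, Real.exp x := by
          apply Finset.sum_le_sum_of_subset_of_nonneg (Finset.erase_subset _ _)
          intro t _ _
          exact (Real.exp_pos _).le
      _ = J * Real.exp x := by rw [Finset.sum_const, Finset.card_range, nsmul_eq_mul]
      _ ≤ M * Real.exp x := by gcongr
  have h2 : (1 : ℝ) ≤ Real.exp x := Real.one_le_exp (by linarith)
  have h3 : 1 + (M : ℝ) ≤ Real.exp M := by
    have := Real.add_one_le_exp (M : ℝ)
    linarith
  calc 1 + ∑ t ∈ (Finset.range J).erase i, ‖a t‖ ≤ Real.exp x + M * Real.exp x := by linarith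
    _ = (1 + M) * Real.exp x := by ring
    _ ≤ Real.exp M * Real.exp x := by gcongr
    _ = Real.exp (M + x) := (Real.exp_add _ _).symm
    _ ≤ Real.exp ((M : ℝ) ^ (b + 2)) := by
      apply Real.exp_le_exp.mpr
      rw [pow_add, ← hx]
      have h4 : (M : ℝ) ≤ x * M := le_mul_of_one_le_left (by linarith) hx1
      have h5 : x ≤ x * M := le_mul_of_one_le_right (by linarith) (by linarith)
      have h6 : x * (2 * M) ≤ x * (M : ℝ) ^ 2 := by
        apply mul_le_mul_of_nonneg_left _ (by linarith)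
        nlinarith
      linarith

theorem star1 {n : ℕ} (hn : 2 ≤ n) (b : ℕ) : ∃ A : ℝ, 0 < A ∧ ∀ c ∈ multibrotSet n,
    ∀ i J M : ℕ, 2 ≤ M → i < J → J ≤ M → (∀ j < J, orb n c c j ≠ 0) →
    (∀ t < J, ‖P n c c i * (P n c c t)⁻¹‖ ≤ Real.exp ((M : ℝ) ^ b)) →
    ∀ ε m : ℝ, 0 < ε → 0 ≤ m →
    ∫⁻ w in closedBall (0 : ℂ) 3, ‖er n c J w‖ₑ ≤ ENNReal.ofReal ε →
    (∀ t < J, t ≠ i → Real.exp (-m) ≤ ‖orb n c c t - orb n c c i‖) →
    m + A * Real.log M ≤ kx n c (orb n c c i) M →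
    0 ≤ aa n c i + Real.log ε + (A * Real.log M + m) := by
  obtain ⟨A, hA0, hA⟩ := base hn (b + 2)
  refine ⟨A, hA0, ?_⟩
  intro c hc i J M hM hi hJM h0 hw ε m hε hm hmass hsep hwin
  have hP : P n c c i ≠ 0 := P_ne hn h0 hi.le
  have hPn : 0 < ‖P n c c i‖ := norm_pos_iff.mpr hP
  have I := inv_comb hn hc hi.le h0 (P n c c i) 0 (ε := ‖P n c c i‖ * ε) (by
    simp only [zero_mul, add_zero]
    rw [int_const_mul, ENNReal.ofReal_mul (norm_nonneg _)]
    gcongr)
  have haw : ∀ t, aw n c i (P n c c i) 0 t = P n c c i * (P n c c t)⁻¹ := by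
    intro t
    unfold aw
    simp
  have h1 := hA c hc i J M hM hi (aw n c i (P n c c i) 0) _ (‖P n c c i‖ * ε) m (by positivity) hm
    (by rw [haw, mul_inv_cancel₀ hP]) I hsep
    (wsum hM hJM i (fun t ht => by rw [haw]; exact hw t ht)) hwin
  rw [Real.log_mul hPn.ne' hε.ne'] at h1
  exact h1

theorem star3 {n : ℕ} (hn : 2 ≤ n) (b : ℕ) : ∃ A : ℝ, 0 < A ∧ ∀ c ∈ multibrotSet n,
    ∀ r : ℝ, 0 < r → r ≤ 1 →
    (∀ t ∈ ball c r, ¬ ∃ m z, IsAttractingCycle (fun z => z ^ n + t) m z) →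
    ∀ i J M : ℕ, 2 ≤ M → i < J → J ≤ M →
    (∀ t ≤ J, ‖P n c c i * (P n c c t)⁻¹‖ ≤ Real.exp ((M : ℝ) ^ b)) →
    ∀ m : ℝ, 0 ≤ m →
    (∀ t < J, t ≠ i → Real.exp (-m) ≤ ‖orb n c c t - orb n c c i‖) →
    m + A * Real.log M ≤ kx n c (orb n c c i) M →
    aa n c J - aa n c i + kd n c i J ≤
      m + A * Real.log M + Real.log (100 / r) + Real.log (5 + kd n c i J) := by
  obtain ⟨A, hA0, hA⟩ := base hn (b + 4)
  refine ⟨A, hA0, ?_⟩
  intro c hc r hr hr1 hball i J M hM hi hJM hw m hm hsep hwin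
  have hcb : c ∈ ball c r := mem_ball_self hr
  have h0 : ∀ j, orb n c c j ≠ 0 := by
    intro j h1
    apply Pool.Agent.H713R2.AR.P_ne_zero hn (hball c hcb) (n := j + 1) (by omega)
    rw [P_eq_orb hn, h1]
  have hPi : P n c c i ≠ 0 := P_ne_zero hn fun k _ => h0 k
  have hPj : P n c c J ≠ 0 := P_ne_zero hn fun k _ => h0 k
  have hPin : 0 < ‖P n c c i‖ := norm_pos_iff.mpr hPi
  have hPjn : 0 < ‖P n c c J‖ := norm_pos_iff.mpr hPj
  have hne : orb n c c J ≠ orb n c c i := no_coinc hn hc hr hball hcb hi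
  have hρ : 0 < ‖orb n c c J - orb n c c i‖ := norm_pos_iff.mpr (sub_ne_zero.mpr hne)
  have hρ4 : ‖orb n c c J - orb n c c i‖ ≤ 4 := by
    refine (norm_sub_le _ _).trans ?_
    have := mem_multibrot_orb hn hc i
    have := mem_multibrot_orb hn hc J
    linarith
  have hlog4 : Real.log 4 ≤ 2 := by
    rw [show (4 : ℝ) = 2 ^ 2 by norm_num, Real.log_pow]
    have := Real.log_le_sub_one_of_pos (show (0 : ℝ) < 2 by norm_num)
    push_cast
    linarith
  have hρl : Real.log ‖orb n c c J - orb n c c i‖ ≤ 2 := (Real.log_le_log hρ hρ4).trans hlog4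
  have hmass := mass_pair hn hc hr hr1 hball h0 hi
  obtain ⟨ρ, hρd⟩ : ∃ ρ, ρ = ‖orb n c c J - orb n c c i‖ := ⟨_, rfl⟩
  rw [← hρd] at hmass hρ hρ4 hρl
  have hkd : kd n c i J = -Real.log ρ := by unfold kd; rw [hρd]
  rw [hkd]
  have hw1 : 0 < ‖P n c c i * (P n c c J)⁻¹‖ := norm_pos_iff.mpr (mul_ne_zero hPi (inv_ne_zero hPj))
  have h5 : 0 < 5 - Real.log ρ := by linarith
  obtain ⟨ε, hε⟩ : ∃ ε, ε = ‖P n c c i * (P n c c J)⁻¹‖ * (100 / r) * (ρ * (5 - Real.log ρ)) :=
    ⟨_, rfl⟩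
  rw [← hε] at hmass
  have hε0 : 0 < ε := by rw [hε]; positivity
  have I := inv_comb hn hc hi.le (fun j _ => h0 j) (P n c c i)
    (-(P n c c i) ^ 2 * (P n c c J)⁻¹) (ε := ε) hmass
  have hM2 : (2 : ℝ) ≤ M := by exact_mod_cast hM
  have hx1 : (1 : ℝ) ≤ (M : ℝ) ^ b := one_le_pow₀ (by linarith)
  have h1 := hA c hc i J M hM hi (aw n c i (P n c c i) (-(P n c c i) ^ 2 * (P n c c J)⁻¹)) _ ε m
    hε0 hm (by
      unfold aw
      rw [if_neg (lt_irrefl i), add_zero, mul_inv_cancel₀ hPi]) I hsep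
    (by
      apply wsum hM hJM i (b := b + 2)
      intro t ht
      have h2 : ‖aw n c i (P n c c i) (-(P n c c i) ^ 2 * (P n c c J)⁻¹) t‖ ≤
          ‖P n c c i * (P n c c t)⁻¹‖ * (1 + ‖P n c c i * (P n c c J)⁻¹‖) := by
        unfold aw
        by_cases hti : t < i
        · rw [if_pos hti]
          have e : (P n c c i + -(P n c c i) ^ 2 * (P n c c J)⁻¹) * (P n c c t)⁻¹ =
              (P n c c i * (P n c c t)⁻¹) * (1 - P n c c i * (P n c c J)⁻¹) := by ring
          rw [e, norm_mul]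
          apply mul_le_mul_of_nonneg_left _ (norm_nonneg _)
          refine (norm_sub_le _ _).trans ?_
          rw [norm_one]
        · rw [if_neg hti, add_zero]
          apply le_mul_of_one_le_right (norm_nonneg _)
          have := norm_nonneg (P n c c i * (P n c c J)⁻¹)
          linarith
      refine h2.trans ?_
      have h3 := hw t ht.le
      have h4 := hw J le_rfl
      obtain ⟨x, hx⟩ : ∃ x, x = (M : ℝ) ^ b := ⟨_, rfl⟩
      rw [← hx] at h3 h4 hx1
      have h6 : 1 + Real.exp x ≤ Real.exp (x + 1) := by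
        rw [Real.exp_add]
        have h7 := Real.add_one_le_exp (1 : ℝ)
        have h8 := Real.one_le_exp (show 0 ≤ x by linarith)
        nlinarith
      calc ‖P n c c i * (P n c c t)⁻¹‖ * (1 + ‖P n c c i * (P n c c J)⁻¹‖)
          ≤ Real.exp x * (1 + Real.exp x) := by gcongr
        _ ≤ Real.exp x * Real.exp (x + 1) := by gcongr
        _ = Real.exp (x + (x + 1)) := (Real.exp_add _ _).symm
        _ ≤ Real.exp ((M : ℝ) ^ (b + 2)) := by
          apply Real.exp_le_exp.mpr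
          rw [pow_add, ← hx]
          have h7 : x * 4 ≤ x * (M : ℝ) ^ 2 := by
            apply mul_le_mul_of_nonneg_left _ (by linarith)
            nlinarith
          linarith)
    hwin
  have h2 : Real.log ε = aa n c i - aa n c J + Real.log (100 / r) + (Real.log ρ +
      Real.log (5 - Real.log ρ)) := by
    rw [hε, Real.log_mul (by positivity) (by positivity),
      Real.log_mul hw1.ne' (by positivity), Real.log_mul hρ.ne' h5.ne', norm_mul, norm_inv,
      Real.log_mul hPin.ne' (by positivity), Real.log_inv]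
    unfold aa
    ring
  rw [h2] at h1
  rw [← sub_eq_add_neg 5 (Real.log ρ)]
  linarith

/-- The depths of the returns are at most linear in the time. -/
theorem kk_bound {n : ℕ} (hn : 2 ≤ n) : ∃ B : ℝ, 1 ≤ B ∧ ∀ c ∈ multibrotSet n, ∀ M : ℕ, 1 ≤ M →
    (∀ j < M, orb n c c j ≠ 0) →
    (∀ N, 1 ≤ N → N ≤ M → ∀ z, ¬ IsAttractingCycle (fun z => z ^ n + c) N z) →
    ∀ t, 1 ≤ t → t ≤ M → kk n c t ≤ B * M := by
  have hn2 : (2 : ℝ) ≤ n := by exact_mod_cast hn
  have hln : 0 ≤ Real.log (2 * n) := Real.log_nonneg (by linarith)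
  have hlnn : 0 ≤ Real.log n := Real.log_nonneg (by linarith)
  have hlog8' : Real.log 8 ≤ 3 := by
    rw [show (8 : ℝ) = 2 ^ 3 by norm_num, Real.log_pow]
    have := Real.log_le_sub_one_of_pos (show (0 : ℝ) < 2 by norm_num)
    push_cast
    linarith
  refine ⟨2 * (Real.log (2 * n) + Real.log n + 5), by linarith, ?_⟩
  intro c hc M hM h0 hno t ht1 htM
  have hM1 : (1 : ℝ) ≤ M := by exact_mod_cast hM
  have hM0 : (0 : ℝ) < M := by linarith
  have hlM : Real.log M ≤ M := by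
    have := Real.log_le_sub_one_of_pos hM0
    linarith
  by_contra hcon
  push Not at hcon
  obtain ⟨j, hj, hmax⟩ := Finset.exists_max_image (Finset.Icc 1 M) (kk n c)
    ⟨1, Finset.mem_Icc.mpr ⟨le_rfl, hM⟩⟩
  rw [Finset.mem_Icc] at hj
  have hkj : kk n c t ≤ kk n c j := hmax t (Finset.mem_Icc.mpr ⟨ht1, htM⟩)
  have hk : 2 * (Real.log (2 * n) + Real.log n + 5) * M < kk n c j := by linarith
  have hk0 : 0 < kk n c j := lt_of_le_of_lt (by positivity) hk
  obtain ⟨z, hz⟩ := trap_b hn hM h0 hj.1 hj.2 (by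
    intro l hl1 hlj
    obtain ⟨l', rfl⟩ : ∃ l', l = l' + 1 := ⟨l - 1, by omega⟩
    rw [bb_succ hn h0 (by omega : l' < M)]
    have h3 : aa n c l' ≤ M * Real.log (2 * n) := by
      have h4 := P_ratio hn hc 0 l'
      rw [zero_add, P_zero, norm_one, one_mul] at h4
      have h5 : 0 < ‖P n c c l'‖ := norm_pos_iff.mpr (P_ne hn h0 (by omega))
      unfold aa
      calc Real.log ‖P n c c l'‖ ≤ Real.log ((2 * n) ^ l') := Real.log_le_log h5 h4
        _ = l' * Real.log (2 * n) := Real.log_pow _ _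
        _ ≤ M * Real.log (2 * n) := by
          apply mul_le_mul_of_nonneg_right _ hln
          exact_mod_cast (by omega : l' ≤ M)
    have h5 : kk n c (l' + 1) ≤ kk n c j := hmax _ (Finset.mem_Icc.mpr ⟨hl1, by omega⟩)
    have h6 : kk n c (l' + 1) / n ≤ kk n c j / 2 := by
      calc kk n c (l' + 1) / n ≤ kk n c j / n := by gcongr
        _ ≤ kk n c j / 2 := by
          apply div_le_div_of_nonneg_left _ (by norm_num) hn2
          linarith
    have h7 : Real.log n ≤ Real.log n * M := le_mul_of_one_le_right hlnn hM1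
    linarith)
  exact hno j hj.1 hj.2 z hz

/-- The bound of the weights. -/
theorem w_bound {n : ℕ} (hn : 2 ≤ n) : ∃ b : ℕ, ∀ c ∈ multibrotSet n, ∀ M : ℕ, 2 ≤ M →
    (∀ j < M, orb n c c j ≠ 0) →
    (∀ N, 1 ≤ N → N ≤ M → ∀ z, ¬ IsAttractingCycle (fun z => z ^ n + c) N z) →
    ∀ i t, i ≤ M → t ≤ M → ‖P n c c i * (P n c c t)⁻¹‖ ≤ Real.exp ((M : ℝ) ^ b) := by
  obtain ⟨B, hB1, hB⟩ := kk_bound hn
  have hn2 : (2 : ℝ) ≤ n := by exact_mod_cast hn
  have hln : 0 ≤ Real.log (2 * n) := Real.log_nonneg (by linarith)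
  have hlnn : 0 ≤ Real.log n := Real.log_nonneg (by linarith)
  obtain ⟨b, hb⟩ := pow_unbounded_of_one_lt (B + Real.log (2 * n)) (by norm_num : (1 : ℝ) < 2)
  refine ⟨b + 2, ?_⟩
  intro c hc M hM h0 hno i t hi ht
  have hM2 : (2 : ℝ) ≤ M := by exact_mod_cast hM
  have hPi : 0 < ‖P n c c i‖ := norm_pos_iff.mpr (P_ne hn h0 hi)
  have hPt : 0 < ‖P n c c t‖ := norm_pos_iff.mpr (P_ne hn h0 ht)
  have hkk := hB c hc M (by omega) h0 hno
  have hdown : ∀ s, i + s ≤ M → aa n c i - s * (B * M) ≤ aa n c (i + s) := by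
    intro s
    induction s with
    | zero => intro _; simp
    | succ s ih =>
      intro hs
      have h1 := ih (by omega)
      have h2 := bb_succ hn h0 (by omega : i + s < M)
      have h3 := hkk (i + s + 1) (by omega) (by omega)
      have h4 : kk n c (i + s + 1) - kk n c (i + s + 1) / n ≤ B * M := by
        rcases le_or_gt 0 (kk n c (i + s + 1)) with h5 | h5
        · have : 0 ≤ kk n c (i + s + 1) / n := by positivity
          linarith
        · have h6 : kk n c (i + s + 1) - kk n c (i + s + 1) / n =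
              kk n c (i + s + 1) * (1 - 1 / n) := by ring
          have h7 : (1 : ℝ) / n ≤ 1 := by
            rw [div_le_one (by linarith)]
            linarith
          have h8 : kk n c (i + s + 1) * (1 - 1 / n) ≤ 0 :=
            mul_nonpos_of_nonpos_of_nonneg h5.le (by linarith)
          have h9 : 0 ≤ B * (M : ℝ) := by positivity
          linarith
      rw [← add_assoc]
      push_cast
      linarith
  have key : aa n c i - aa n c t ≤ (B + Real.log (2 * n)) * (M : ℝ) ^ 2 := by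
    have hBM : 0 ≤ B * (M : ℝ) ^ 2 := by positivity
    have hLM : 0 ≤ Real.log (2 * n) * (M : ℝ) ^ 2 := by positivity
    rcases le_or_gt i t with hit | hit
    · have h1 := hdown (t - i) (by omega)
      rw [Nat.add_sub_cancel' hit] at h1
      have h2 : ((t - i : ℕ) : ℝ) ≤ M := by exact_mod_cast (by omega : t - i ≤ M)
      have h3 : ((t - i : ℕ) : ℝ) * (B * M) ≤ M * (B * M) := by gcongr
      nlinarith
    · have h1 := P_ratio hn hc t (i - t)
      rw [Nat.add_sub_cancel' hit.le] at h1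
      have h2 : aa n c i ≤ aa n c t + (i - t : ℕ) * Real.log (2 * n) := by
        unfold aa
        rw [← Real.log_pow, ← Real.log_mul hPt.ne' (by positivity)]
        exact Real.log_le_log hPi h1
      have h3 : ((i - t : ℕ) : ℝ) ≤ M := by exact_mod_cast (by omega : i - t ≤ M)
      have h4 : ((i - t : ℕ) : ℝ) * Real.log (2 * n) ≤ M * Real.log (2 * n) := by gcongr
      have h5 : (M : ℝ) * Real.log (2 * n) ≤ M ^ 2 * Real.log (2 * n) := by
        apply mul_le_mul_of_nonneg_right _ hln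
        nlinarith
      linarith
  have e : ‖P n c c i * (P n c c t)⁻¹‖ = Real.exp (aa n c i - aa n c t) := by
    unfold aa
    rw [Real.exp_sub, Real.exp_log hPi, Real.exp_log hPt, norm_mul, norm_inv]
    rfl
  rw [e]
  apply Real.exp_le_exp.mpr
  refine key.trans ?_
  rw [pow_add]
  have h1 : (2 : ℝ) ^ b ≤ (M : ℝ) ^ b := by gcongr
  have h2 : 0 ≤ (M : ℝ) ^ 2 := by positivity
  nlinarith

end Pool.Agent.T2h24.GP
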