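import Pool.Agent.T2h24.GP.A6

/-!
# Shadowing, traps and gaps at a point of the critical orbit; the growth of the record times
-/

set_option autoImplicit false
open Set Filter Topology Metric

namespace Pool.Agent.T2h24.GP

open Pool.Agent.W746.LD Pool.Agent.T2H09.DH Pool.Agent.T2H09.LU Pool.Agent.T2H09.LV
open Pool.Agent.T2H09.LW N62a1eb23

/-- A holomorphic map of a disc into a much smaller concentric disc. -/
theorem attr_at {n : ℕ} {c y : ℂ} {N : ℕ} (hN : 1 ≤ N) {s : ℝ} (hs : 0 < s)
    (h : ∀ x : ℂ, ‖x - y‖ ≤ s → ‖orb n c x N - y‖ ≤ s / 4) :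
    ∃ z, IsAttractingCycle (fun z => z ^ n + c) N z := by
  have hder : ∀ x : ℂ, HasDerivAt (fun z => orb n c z N) (P n c x N) x :=
    fun x => hasDerivAt_orb x N
  have hbd : ∀ x ∈ closedBall y (s / 4), ‖P n c x N‖ ≤ 1 / 3 := by
    intro x hx
    have hx' : ‖x - y‖ ≤ s / 4 := by simpa [dist_eq_norm] using hx
    have h1 : HasDerivAt (fun z => orb n c z N - y) (P n c x N) x := (hder x).sub_const y
    have h2 : ‖deriv (fun z => orb n c z N - y) x‖ ≤ s / 4 / (3 * s / 4) := by
      apply Complex.norm_deriv_le_of_forall_mem_sphere_norm_le (by positivity)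
      · exact Differentiable.diffContOnCl fun z => ((hder z).sub_const y).differentiableAt
      · intro z hz
        apply h
        have h3 : ‖z - x‖ = 3 * s / 4 := by simpa [dist_eq_norm] using hz
        calc ‖z - y‖ = ‖(z - x) + (x - y)‖ := by ring_nf
          _ ≤ ‖z - x‖ + ‖x - y‖ := norm_add_le _ _
          _ ≤ s := by linarith
    rw [h1.deriv] at h2
    have h4 : s / 4 / (3 * s / 4) = 1 / 3 := by field_simp
    linarith
  have hmaps : MapsTo (fun z => orb n c z N) (closedBall y (s / 4)) (closedBall y (s / 4)) := by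
    intro x hx
    have hx' : ‖x - y‖ ≤ s / 4 := by simpa [dist_eq_norm] using hx
    have := h x (by linarith)
    simpa [dist_eq_norm] using this
  have hcon : ContractingWith (1 / 3) (hmaps.restrict (fun z => orb n c z N) _ _) := by
    refine ⟨by norm_num, ?_⟩
    apply LipschitzWith.of_dist_le_mul
    rintro ⟨x, hx⟩ ⟨y', hy⟩
    have := (convex_closedBall y (s / 4)).norm_image_sub_le_of_norm_hasDerivWithin_le
      (f := fun z => orb n c z N) (f' := fun z => P n c z N) (C := 1 / 3)
      (fun z _ => (hder z).hasDerivWithinAt) hbd hy hx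
    simpa [Subtype.dist_eq, dist_eq_norm] using this
  obtain ⟨z, hz, hfix, -, -⟩ := ContractingWith.exists_fixedPoint' (isClosed_closedBall.isComplete)
    hmaps hcon (x := y) (mem_closedBall_self (by positivity)) (edist_ne_top _ _)
  refine ⟨z, by omega, hfix, (hder z).differentiableAt, ?_⟩
  have h5 : deriv (fun z => orb n c z N) z = P n c z N := (hder z).deriv
  have h6 := hbd z hz
  rw [← h5] at h6
  exact lt_of_le_of_lt h6 (by norm_num)

theorem shadow_at {n : ℕ} (hn : 2 ≤ n) {c y : ℂ} {N : ℕ} {θ K s : ℝ} (hK : 0 < K)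
    (hθ : (1 + 1 / K) ^ (n - 1) ≤ θ)
    (h : ∀ i < N, θ ^ i * ‖P n c y i‖ * s ≤ ‖orb n c y i‖ / K) {x : ℂ} (hx : ‖x - y‖ ≤ s) :
    ∀ i ≤ N, ‖orb n c x i - orb n c y i‖ ≤ θ ^ i * ‖P n c y i‖ * s := by
  have hθ0 : 0 ≤ θ := le_trans (by positivity) hθ
  intro i
  induction i with
  | zero => intro _; simpa using hx
  | succ i ih =>
    intro hi
    have h1 := ih (by omega)
    have h2 := h i (by omega)
    have h3 := norm_pow_sub_le hn hK hθ (h1.trans h2)
    rw [orb_succ, orb_succ, add_sub_add_right_eq_sub, norm_P_succ]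
    calc ‖orb n c x i ^ n - orb n c y i ^ n‖
        ≤ n * ‖orb n c y i‖ ^ (n - 1) * θ * ‖orb n c x i - orb n c y i‖ := h3
      _ ≤ n * ‖orb n c y i‖ ^ (n - 1) * θ * (θ ^ i * ‖P n c y i‖ * s) := by gcongr
      _ = _ := by ring

/-- The derivative at a point of the critical orbit. -/
lemma norm_Pi {n : ℕ} (hn : 2 ≤ n) {c : ℂ} {M : ℕ} (h0 : ∀ j < M, orb n c c j ≠ 0) {i t : ℕ}
    (ht : i + t ≤ M) : ‖P n c (orb n c c i) t‖ = Real.exp (aa n c (i + t) - aa n c i) := by
  have h1 : 0 < ‖P n c c i‖ := norm_pos_iff.mpr (P_ne hn h0 (by omega))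
  have h2 : 0 < ‖P n c c (i + t)‖ := norm_pos_iff.mpr (P_ne hn h0 ht)
  unfold aa
  rw [Real.exp_sub, Real.exp_log h1, Real.exp_log h2, norm_P_add]
  field_simp

/-- Shadowing of `z_i` in logarithmic form. -/
theorem shadow_i {n : ℕ} (hn : 2 ≤ n) {c : ℂ} {M : ℕ} (hM : 1 ≤ M)
    (h0 : ∀ j < M, orb n c c j ≠ 0) {i N : ℕ} (hN : i + N ≤ M) {σ : ℝ}
    (hb : ∀ t, i < t → t ≤ i + N → aa n c t - aa n c i + kk n c t + 1 + Real.log M ≤ σ) {x : ℂ}
    (hx : ‖x - orb n c c i‖ ≤ Real.exp (-σ)) :
    ∀ t ≤ N, ‖orb n c x t - orb n c c (i + t)‖ ≤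
      Real.exp (1 + (aa n c (i + t) - aa n c i) - σ) := by
  have hn0 : (0 : ℝ) < n := by exact_mod_cast (by omega : 0 < n)
  have hM0 : (0 : ℝ) < M := by exact_mod_cast hM
  have hK0 : (0 : ℝ) < n * M := by positivity
  have hθ : (1 + 1 / ((n : ℝ) * M)) ^ (n - 1) ≤ Real.exp (1 / M) := by
    have h1 : 1 + 1 / ((n : ℝ) * M) ≤ Real.exp (1 / (n * M)) := by
      have := Real.add_one_le_exp (1 / ((n : ℝ) * M))
      linarith
    calc (1 + 1 / ((n : ℝ) * M)) ^ (n - 1) ≤ Real.exp (1 / (n * M)) ^ (n - 1) := by gcongr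
      _ = Real.exp (((n - 1 : ℕ) : ℝ) * (1 / (n * M))) := by rw [Real.exp_nat_mul]
      _ ≤ Real.exp (1 / M) := by
        apply Real.exp_le_exp.mpr
        rw [Nat.cast_sub (by omega)]
        push_cast
        rw [mul_one_div, div_le_div_iff₀ hK0 hM0]
        nlinarith
  have hiM : ∀ t ≤ M, (t : ℝ) * (1 / M) ≤ 1 := by
    intro t ht
    rw [mul_one_div, div_le_one hM0]
    exact_mod_cast ht
  intro t ht
  have key := shadow_at hn hK0 hθ (N := N) (y := orb n c c i) (by
    intro t ht
    have hci : 0 < ‖orb n c c (i + t)‖ := norm_pos_iff.mpr (h0 (i + t) (by omega))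
    rw [norm_Pi hn h0 (by omega : i + t ≤ M), ← orb_add]
    have e1 : Real.exp (1 / (M : ℝ)) ^ t * Real.exp (aa n c (i + t) - aa n c i) * Real.exp (-σ) =
        Real.exp (t * (1 / M) + (aa n c (i + t) - aa n c i) + -σ) := by
      rw [Real.exp_add, Real.exp_add, Real.exp_nat_mul]
    rw [e1, ← Real.le_log_iff_exp_le (by positivity), Real.log_div hci.ne' hK0.ne',
      Real.log_mul hn0.ne' hM0.ne']
    have h1 := hb (i + t + 1) (by omega) (by omega)
    have h2 := bb_succ hn h0 (by omega : i + t < M)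
    have hk1 : kk n c (i + t + 1) / n = -Real.log ‖orb n c c (i + t)‖ := by
      unfold kk
      rw [norm_orb_succ_sub, Real.log_pow]
      field_simp
    rw [hk1] at h2
    have := hiM t (by omega)
    linarith) hx t ht
  rw [← orb_add] at key
  refine key.trans ?_
  rw [norm_Pi hn h0 (by omega : i + t ≤ M), ← Real.exp_nat_mul, ← Real.exp_add, ← Real.exp_add]
  apply Real.exp_le_exp.mpr
  have := hiM t (by omega)
  linarith

lemma exp_kd {n : ℕ} {c : ℂ} {i j : ℕ} (hne : orb n c c j ≠ orb n c c i) :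
    Real.exp (-kd n c i j) = ‖orb n c c j - orb n c c i‖ := by
  unfold kd
  rw [neg_neg, Real.exp_log (norm_pos_iff.mpr (sub_ne_zero.mpr hne))]

lemma log8_le : Real.log 8 ≤ 3 := by
  rw [show (8 : ℝ) = 2 ^ 3 by norm_num, Real.log_pow]
  have := Real.log_le_sub_one_of_pos (show (0 : ℝ) < 2 by norm_num)
  push_cast
  linarith

lemma kd_ge {n : ℕ} (hn : 2 ≤ n) {c : ℂ} (hc : c ∈ multibrotSet n) {i j : ℕ}
    (hne : orb n c c j ≠ orb n c c i) : -2 ≤ kd n c i j := by
  unfold kd
  have h0 : 0 < ‖orb n c c j - orb n c c i‖ := norm_pos_iff.mpr (sub_ne_zero.mpr hne)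
  have h4 : ‖orb n c c j - orb n c c i‖ ≤ 4 := by
    refine (norm_sub_le _ _).trans ?_
    have := mem_multibrot_orb hn hc i
    have := mem_multibrot_orb hn hc j
    linarith
  have h1 := Real.log_le_log h0 h4
  have h2 : Real.log 4 ≤ 2 := by
    rw [show (4 : ℝ) = 2 ^ 2 by norm_num, Real.log_pow]
    have := Real.log_le_sub_one_of_pos (show (0 : ℝ) < 2 by norm_num)
    push_cast
    linarith
  linarith

/-- A deep return without previous expansion gives an attracting cycle. -/
theorem trap_i {n : ℕ} (hn : 2 ≤ n) {c : ℂ} {M : ℕ} (hM : 1 ≤ M)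
    (h0 : ∀ j < M, orb n c c j ≠ 0) {i J : ℕ} (hiJ : i < J) (hJM : J ≤ M)
    (hne : orb n c c J ≠ orb n c c i)
    (hb : ∀ t, i < t → t ≤ J →
      aa n c t - aa n c i + kk n c t + 1 + Real.log M + Real.log 8 ≤ kd n c i J)
    (hend : aa n c J - aa n c i + 1 + Real.log 8 ≤ 0) :
    ∃ z, IsAttractingCycle (fun z => z ^ n + c) (J - i) z := by
  have hexp := exp_kd hne
  have hs : Real.exp (-(kd n c i J - Real.log 8)) = 8 * ‖orb n c c J - orb n c c i‖ := by
    rw [← hexp, neg_sub, sub_eq_add_neg, Real.exp_add, Real.exp_log (by norm_num)]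
  have hJ : i + (J - i) = J := by omega
  apply attr_at (y := orb n c c i) (by omega : 1 ≤ J - i)
    (s := 8 * ‖orb n c c J - orb n c c i‖) (by rw [← hs]; exact Real.exp_pos _)
  intro x hx
  rw [← hs] at hx
  have h1 := shadow_i hn hM h0 (i := i) (N := J - i) (by omega) (σ := kd n c i J - Real.log 8)
    (fun t ht1 ht2 => by have := hb t ht1 (by omega); linarith) hx (J - i) le_rfl
  rw [hJ] at h1
  have h2 : Real.exp (1 + (aa n c J - aa n c i) - (kd n c i J - Real.log 8)) ≤
      ‖orb n c c J - orb n c c i‖ := by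
    rw [← hexp]
    apply Real.exp_le_exp.mpr
    linarith
  calc ‖orb n c x (J - i) - orb n c c i‖
      = ‖(orb n c x (J - i) - orb n c c J) + (orb n c c J - orb n c c i)‖ := by ring_nf
    _ ≤ ‖orb n c x (J - i) - orb n c c J‖ + ‖orb n c c J - orb n c c i‖ := norm_add_le _ _
    _ ≤ 8 * ‖orb n c c J - orb n c c i‖ / 4 := by linarith

/-- Two deep returns are far apart in time. -/
theorem gap_i {n : ℕ} (hn : 2 ≤ n) {c : ℂ} {M : ℕ}
    (h0 : ∀ j < M, orb n c c j ≠ 0) {i : ℕ} (hnc : ∀ t, i < t → t ≤ M → orb n c c t ≠ orb n c c i)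
    {j d : ℕ} (hj : i < j) (hd : 1 ≤ d) (hjd : j + d ≤ M) {x : ℝ}
    (h1 : x ≤ kd n c i j) (h2 : x ≤ kd n c i (j + d))
    (hb : ∀ t, i < t → t ≤ i + d → aa n c t - aa n c i + kk n c t + 3 + Real.log M ≤ x)
    (hg : aa n c (i + d) - aa n c i + kd n c i (i + d) + 3 ≤ x)
    (hk : kd n c i (i + d) + 2 ≤ x) : False := by
  have hM : 1 ≤ M := by omega
  have e1 := exp_kd (hnc j hj (by omega))
  have e2 := exp_kd (hnc (j + d) (by omega) hjd)
  have e3 := exp_kd (hnc (i + d) (by omega) (by omega))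
  have h3 := shadow_i hn hM h0 (i := i) (N := d) (by omega) (σ := x)
    (fun t ht1 ht2 => by have := hb t ht1 ht2; linarith) (x := orb n c c j)
    (by rw [← e1]; exact Real.exp_le_exp.mpr (by linarith)) d le_rfl
  rw [← orb_add] at h3
  have h4 : ‖orb n c c (i + d) - orb n c c i‖ ≤
      ‖orb n c c (j + d) - orb n c c (i + d)‖ + ‖orb n c c (j + d) - orb n c c i‖ := by
    calc ‖orb n c c (i + d) - orb n c c i‖
        = ‖(orb n c c (j + d) - orb n c c i) - (orb n c c (j + d) - orb n c c (i + d))‖ := by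
          ring_nf
      _ ≤ ‖orb n c c (j + d) - orb n c c i‖ + ‖orb n c c (j + d) - orb n c c (i + d)‖ :=
          norm_sub_le _ _
      _ = _ := add_comm _ _
  rw [← e3, ← e2] at h4
  have h5 : Real.exp (1 + (aa n c (i + d) - aa n c i) - x) ≤
      Real.exp (-2) * Real.exp (-kd n c i (i + d)) := by
    rw [← Real.exp_add]
    apply Real.exp_le_exp.mpr
    linarith
  have h6 : Real.exp (-kd n c i (j + d)) ≤ Real.exp (-2) * Real.exp (-kd n c i (i + d)) := by
    rw [← Real.exp_add]
    apply Real.exp_le_exp.mpr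
    linarith
  have h7 : Real.exp (-2) ≤ 1 / 3 := by
    rw [Real.exp_neg, inv_eq_one_div]
    apply one_div_le_one_div_of_le (by norm_num)
    have := Real.add_one_le_exp (2 : ℝ)
    linarith
  have h8 := Real.exp_pos (-kd n c i (i + d))
  nlinarith

/-- The growth argument. -/
theorem quasix {n : ℕ} (hn : 2 ≤ n) {c : ℂ} (hc : c ∈ multibrotSet n) {M i N : ℕ}
    (hMi : M = i + N) (hN : 1 ≤ N) (h0 : ∀ j < M, orb n c c j ≠ 0)
    (hnc : ∀ t, i < t → t ≤ M → orb n c c t ≠ orb n c c i)
    (hnot : ∀ N, 1 ≤ N → N ≤ M → ∀ z, ¬ IsAttractingCycle (fun z => z ^ n + c) N z)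
    {Q a m0 : ℝ} (hQ : 0 ≤ Q) (hm0 : 0 ≤ m0) {y : ℂ} (hy : 3 ≤ ‖orb n c y N‖)
    (hya : ‖y - orb n c c i‖ ≤ Real.exp (-a))
    (hstar : ∀ (J : ℕ) (m : ℝ), i < J → J ≤ M → m0 ≤ m →
      (∀ t, i < t → t < J → kd n c i t ≤ m) → m + Q ≤ a →
      aa n c J - aa n c i ≤ m + Q ∧
      aa n c J - aa n c i + kk n c J ≤ m + Q + Real.log (5 + kk n c J) ∧
      aa n c J - aa n c i + kd n c i J ≤ m + Q + Real.log (5 + kd n c i J))
    {K : ℝ} (hK : ∀ t, i < t → t ≤ M → Real.log (5 + kk n c t) ≤ K)
    (hKa : Real.log (5 + a) ≤ K) {u : ℝ} (hu : Q + K + Real.log M + 6 ≤ u) {l : ℕ}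
    (hl : N < 2 ^ l) : a < m0 + (2 * l + 1) * u := by
  by_contra hcon
  push Not at hcon
  have hM : 1 ≤ M := by omega
  have hM1 : (1 : ℝ) ≤ M := by exact_mod_cast hM
  have hlM : 0 ≤ Real.log M := Real.log_nonneg hM1
  have hlog8' := log8_le
  have hK0 : 0 ≤ K ∨ K < 0 := le_or_gt 0 K
  have ha0' : 0 ≤ (2 * (l : ℝ) + 1) := by positivity
  -- `K` is positive
  have hKpos : 0 ≤ K := by
    have h1 := hnc M (by omega) le_rfl
    have h2 := hK M (by omega) le_rfl
    have h3 := kk_ge hn hc h0 (by omega : 1 ≤ M) le_rfl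
    exact (Real.log_nonneg (by linarith)).trans h2
  have hu0 : 0 < u := by linarith
  have hI : ∀ h : ℕ, h ≤ 2 * l → m0 + (h : ℝ) * u + u ≤ a := by
    intro h hh
    have h1 : (h : ℝ) ≤ 2 * l := by exact_mod_cast hh
    have h2 : (h : ℝ) * u ≤ 2 * l * u := mul_le_mul_of_nonneg_right h1 hu0.le
    linarith
  have hlog5 : ∀ x : ℝ, -2 ≤ x → x ≤ a → Real.log (5 + x) ≤ K := by
    intro x hx1 hx2
    exact (Real.log_le_log (by linarith) (by linarith)).trans hKa
  have key := growth (fun h j => m0 + (h : ℝ) * u < kd n c i (i + j)) (I := 2 * l) (M := N)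
    (by
      intro h j hij
      have h1 : m0 + ((h + 1 : ℕ) : ℝ) * u < kd n c i (i + j) := hij
      push_cast at h1
      change m0 + (h : ℝ) * u < kd n c i (i + j)
      linarith)
    (by
      intro h hh
      by_contra hno
      push Not at hno
      have hIh := hI h hh
      have hhu : 0 ≤ (h : ℝ) * u := by positivity
      have hs : ∀ t, i < t → t ≤ M → kd n c i t ≤ m0 + h * u := by
        intro t ht1 ht2
        have h1 := hno (t - i) (by omega) (by omega)
        rwa [show i + (t - i) = t by omega] at h1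
      have h2 := shadow_i hn hM h0 (i := i) (N := N) (by omega) (σ := a) (by
        intro t ht1 ht2
        obtain ⟨-, h3, -⟩ := hstar t (m0 + h * u) ht1 (by omega) (by linarith)
          (fun s hs1 hs2 => hs s hs1 (by omega)) (by linarith)
        have h4 := hK t ht1 (by omega)
        linarith) hya N le_rfl
      obtain ⟨h3, -, -⟩ := hstar M (m0 + h * u) (by omega) le_rfl (by linarith)
        (fun s hs1 hs2 => hs s hs1 (by omega)) (by linarith)
      rw [← hMi] at h2
      have h4 := mem_multibrot_orb hn hc M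
      have h5 : Real.exp (1 + (aa n c M - aa n c i) - a) ≤ Real.exp (-1) := by
        apply Real.exp_le_exp.mpr
        linarith
      have h6 : Real.exp (-1) < 1 := by
        rw [Real.exp_lt_one_iff]
        norm_num
      have h7 : ‖orb n c y N‖ ≤ ‖orb n c y N - orb n c c M‖ + ‖orb n c c M‖ := by
        calc ‖orb n c y N‖ = ‖(orb n c y N - orb n c c M) + orb n c c M‖ := by
              rw [sub_add_cancel]
          _ ≤ _ := norm_add_le _ _
      linarith)
    (by
      intro h hh J' hJ1 hJN hsm hdeep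
      have hIh := hI h hh.le
      have hhu : 0 ≤ (h : ℝ) * u := by positivity
      obtain ⟨J, hJ⟩ : ∃ J, J = i + J' := ⟨_, rfl⟩
      have hs : ∀ t, i < t → t < J → kd n c i t ≤ m0 + h * u := by
        intro t ht1 ht2
        have h1 := hsm (t - i) (by omega) (by omega)
        have h2 : ¬ m0 + (h : ℝ) * u < kd n c i (i + (t - i)) := h1
        rw [show i + (t - i) = t by omega] at h2
        exact not_lt.mp h2
      have hdeep' : m0 + (h : ℝ) * u + u < kd n c i J := by
        have h1 : m0 + ((h + 1 : ℕ) : ℝ) * u < kd n c i (i + J') := hdeep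
        rw [hJ]
        push_cast at h1
        linarith
      have hJM : J ≤ M := by omega
      have hiJ : i < J := by omega
      obtain ⟨z, hz⟩ := trap_i hn hM h0 hiJ hJM (hnc J hiJ hJM) (by
        intro t ht1 ht2
        obtain ⟨-, h3, -⟩ := hstar t (m0 + h * u) ht1 (by omega) (by linarith)
          (fun s hs1 hs2 => hs s hs1 (by omega)) (by linarith)
        have h4 := hK t ht1 (by omega)
        linarith) (by
        obtain ⟨-, -, h3⟩ := hstar J (m0 + h * u) hiJ hJM (by linarith) hs (by linarith)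
        have h4 : Real.log (5 + kd n c i J) ≤ Real.log (5 + (m0 + h * u + u)) +
            (kd n c i J - (m0 + h * u + u)) := by
          have h5 : 0 < 5 + (m0 + h * u + u) := by linarith
          have h6 : 0 < 5 + kd n c i J := by linarith
          have h7 := Real.log_le_sub_one_of_pos (div_pos h6 h5)
          rw [Real.log_div h6.ne' h5.ne'] at h7
          have h8 : (5 + kd n c i J) / (5 + (m0 + h * u + u)) - 1 ≤
              kd n c i J - (m0 + h * u + u) := by
            rw [div_sub_one h5.ne', div_le_iff₀ h5]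
            have h9 : 0 ≤ (kd n c i J - (m0 + h * u + u)) * (4 + (m0 + h * u + u)) := by
              apply mul_nonneg <;> linarith
            linarith
          linarith
        have h5 := hlog5 (m0 + h * u + u) (by linarith) hIh
        linarith)
      exact hnot (J - i) (by omega) (by omega) z hz)
    (by
      intro h hh j d hj1 hd1 hjd h1 h2
      by_contra hno
      push Not at hno
      have hIh := hI h hh.le
      have hhu : 0 ≤ (h : ℝ) * u := by positivity
      have hs : ∀ t, i < t → t ≤ i + d → kd n c i t ≤ m0 + h * u := by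
        intro t ht1 ht2
        have h1 := hno (t - i) (by omega) (by omega)
        rwa [show i + (t - i) = t by omega] at h1
      have h1' : m0 + (h : ℝ) * u + u ≤ kd n c i (i + j) := by
        have h3 : m0 + ((h + 1 : ℕ) : ℝ) * u < kd n c i (i + j) := h1
        push_cast at h3
        linarith
      have h2' : m0 + (h : ℝ) * u + u ≤ kd n c i (i + j + d) := by
        have h3 : m0 + ((h + 1 : ℕ) : ℝ) * u < kd n c i (i + (j + d)) := h2
        rw [← add_assoc] at h3
        push_cast at h3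
        linarith
      have hkd : kd n c i (i + d) ≤ m0 + h * u := hs (i + d) (by omega) le_rfl
      have hkd2 := kd_ge hn hc (hnc (i + d) (by omega) (by omega))
      refine gap_i hn h0 hnc (by omega : i < i + j) hd1 (by omega) h1' h2' ?_ ?_ ?_
      · intro t ht1 ht2
        obtain ⟨-, h3, -⟩ := hstar t (m0 + h * u) ht1 (by omega) (by linarith)
          (fun s hs1 hs2 => hs s hs1 (by omega)) (by linarith)
        have h4 := hK t ht1 (by omega)
        linarith
      · obtain ⟨-, -, h3⟩ := hstar (i + d) (m0 + h * u) (by omega) (by omega) (by linarith)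
          (fun s hs1 hs2 => hs s hs1 (by omega)) (by linarith)
        have h4 := hlog5 (kd n c i (i + d)) hkd2 (by linarith)
        linarith
      · linarith)
  have h1 := key l le_rfl
  omega

end Pool.Agent.T2h24.GP
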