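import Pool.Agent.T2h24.GP.A7

/-!
# Escape near a point of the critical orbit and nearby hyperbolic parameters
-/

set_option autoImplicit false
open Set Filter Topology Metric MeasureTheory
open scoped ENNReal

namespace Pool.Agent.T2h24.GP

open Pool.Agent.W746.LD Pool.Agent.T2H09.DH Pool.Agent.T2H09.LU Pool.Agent.T2H09.LV
open Pool.Agent.T2H09.LW N62a1eb23

/-- The first two forms. -/
theorem stA {n : ℕ} (hn : 2 ≤ n) : ∃ A : ℝ, 0 < A ∧ ∀ c ∈ multibrotSet n, ∀ M : ℕ, 2 ≤ M →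
    (∀ j < M, orb n c c j ≠ 0) →
    (∀ N, 1 ≤ N → N ≤ M → ∀ z, ¬ IsAttractingCycle (fun z => z ^ n + c) N z) →
    ∀ C : ℝ, 0 < C → (∀ N, 1 ≤ N → N ≤ M →
      ∫⁻ w in closedBall (0 : ℂ) 3, ‖er n c N w‖ₑ ≤ ENNReal.ofReal (ep n c C N)) →
    ∀ (i J : ℕ) (m : ℝ), i < J → J ≤ M → 0 ≤ m →
    (∀ t < J, t ≠ i → Real.exp (-m) ≤ ‖orb n c c t - orb n c c i‖) →
    m + A * Real.log M ≤ kx n c (orb n c c i) M →
    aa n c J - aa n c i ≤ m + A * Real.log M + Real.log C ∧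
    aa n c J - aa n c i + kk n c J ≤ m + A * Real.log M + Real.log C + Real.log (5 + kk n c J) := by
  obtain ⟨b, hb⟩ := w_bound hn
  obtain ⟨A, hA0, hA⟩ := star1 hn b
  refine ⟨A, hA0, ?_⟩
  intro c hc M hM h0 hnot C hC hmass i J m hiJ hJM hm hsep hwin
  have h1 := hA c hc i J M hM hiJ hJM (fun j hj => h0 j (by omega))
    (fun t ht => hb c hc M hM h0 hnot i t (by omega) (by omega)) (ep n c C J) m
    (ep_pos hn hc h0 (by omega) hJM hC) hm (hmass J (by omega) hJM) hsep hwin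
  have h2 := log_ep1 hn hc h0 (by omega : 1 ≤ J) hJM hC
  have h3 := log_ep2 hn hc h0 (by omega : 1 ≤ J) hJM hC
  constructor <;> linarith

/-- The third form. -/
theorem stB {n : ℕ} (hn : 2 ≤ n) : ∃ A : ℝ, 0 < A ∧ ∀ c ∈ multibrotSet n,
    ∀ r : ℝ, 0 < r → r ≤ 1 →
    (∀ t ∈ ball c r, ¬ ∃ m z, IsAttractingCycle (fun z => z ^ n + t) m z) →
    ∀ M : ℕ, 2 ≤ M → ∀ (i J : ℕ) (m : ℝ), i < J → J ≤ M → 0 ≤ m →
    (∀ t < J, t ≠ i → Real.exp (-m) ≤ ‖orb n c c t - orb n c c i‖) →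
    m + A * Real.log M ≤ kx n c (orb n c c i) M →
    aa n c J - aa n c i + kd n c i J ≤
      m + A * Real.log M + Real.log (100 / r) + Real.log (5 + kd n c i J) := by
  obtain ⟨b, hb⟩ := w_bound hn
  obtain ⟨A, hA0, hA⟩ := star3 hn b
  refine ⟨A, hA0, ?_⟩
  intro c hc r hr hr1 hball M hM i J m hiJ hJM hm hsep hwin
  have hcb : c ∈ ball c r := mem_ball_self hr
  have h0 : ∀ j < M, orb n c c j ≠ 0 := by
    intro j _ h1
    apply Pool.Agent.H713R2.AR.P_ne_zero hn (hball c hcb) (n := j + 1) (by omega)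
    rw [P_eq_orb hn, h1]
  exact hA c hc r hr hr1 hball i J M hM hiJ hJM
    (fun t ht => hb c hc M hM h0 (fun N _ _ z hz => hball c hcb ⟨N, z, hz⟩) i t (by omega)
      (by omega)) m hm hsep hwin

/-- The distance to the escaping points is at least exponentially small. -/
lemma dx_low {n : ℕ} (hn : 2 ≤ n) {c : ℂ} (hc : c ∈ multibrotSet n) {x : ℂ} (hx : Bd n c x)
    (k : ℕ) : Real.exp (-(k * Real.log (3 ^ n + 4))) ≤ dx n c x k := by
  have h3n : (0 : ℝ) < 3 ^ n + 4 := by positivity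
  induction k with
  | zero =>
    have := dx_zero hn hc hx
    simpa using this
  | succ k ih =>
    have h1 := dx_step hn hc hx k
    have e : Real.exp (-(((k + 1 : ℕ) : ℝ) * Real.log (3 ^ n + 4))) =
        Real.exp (-(k * Real.log (3 ^ n + 4))) / (3 ^ n + 4) := by
      have e1 : -(((k + 1 : ℕ) : ℝ) * Real.log (3 ^ n + 4)) =
          -(k * Real.log (3 ^ n + 4)) - Real.log (3 ^ n + 4) := by push_cast; ring
      rw [e1, Real.exp_sub, Real.exp_log h3n]
    rw [e, div_le_iff₀ h3n]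
    linarith

lemma dx_mono {n : ℕ} (hn : 2 ≤ n) {c : ℂ} (hc : c ∈ multibrotSet n) (x : ℂ) {k l : ℕ}
    (h : k ≤ l) : dx n c x l ≤ dx n c x k := by
  obtain ⟨m, rfl⟩ := Nat.exists_eq_add_of_le h
  induction m with
  | zero => exact le_rfl
  | succ m ih => exact (dx_anti hn hc x (k + m)).trans (ih (by omega))

/-- The logarithm of the distance to an escaping point. -/
lemma esc_log {n : ℕ} (hn : 2 ≤ n) {c : ℂ} (hc : c ∈ multibrotSet n) {x : ℂ} (hx : Bd n c x)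
    {y : ℂ} {N M : ℕ} (hNM : N ≤ M) (hy : 3 ≤ ‖orb n c y N‖) :
    0 < ‖y - x‖ ∧ -Real.log ‖y - x‖ ≤ kx n c x M ∧
      -Real.log ‖y - x‖ ≤ N * Real.log (3 ^ n + 4) := by
  have h1 := dx_pos hn hc hx N
  have h2 : dx n c x N ≤ ‖y - x‖ := dx_le hy
  have h3 := dx_pos hn hc hx M
  have h4 := dx_mono hn hc x hNM
  refine ⟨by linarith, ?_, ?_⟩
  · unfold kx
    have := Real.log_le_log h3 (h4.trans h2)
    linarith
  · have h5 := (dx_low hn hc hx N).trans h2
    rw [← Real.le_log_iff_exp_le (by linarith)] at h5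
    linarith

/-- Escape near a point of the critical orbit gives a nearby hyperbolic parameter. -/
theorem growthx {n : ℕ} (hn : 2 ≤ n) : ∃ C ε : ℝ, 0 < C ∧ 0 < ε ∧ ∀ c ∈ multibrotSet n,
    ∀ i N : ℕ, 2 ≤ i + N → ∀ ρ : ℝ, 0 < ρ → ρ ≤ 1 →
    (∀ t < i, ρ ≤ ‖orb n c c t - orb n c c i‖) → ∀ y : ℂ, 3 ≤ ‖orb n c y N‖ →
    ‖y - orb n c c i‖ ≤ ρ * Real.exp (-(C * Real.log ((i + N : ℕ) : ℝ) ^ 2)) →
    ∃ c' : ℂ, ‖c' - c‖ ≤ (‖y - orb n c c i‖ / ρ) ^ (ε / Real.log ((i + N : ℕ) : ℝ)) ∧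
      ∃ p z, IsAttractingCycle (fun z => z ^ n + c') p z := by
  obtain ⟨E1, hE1, hmassE⟩ := er_massV hn
  obtain ⟨A1, hA10, hA1⟩ := stA hn
  obtain ⟨A3, hA30, hA3⟩ := stB hn
  obtain ⟨B, hB1, hB⟩ := kk_bound hn
  have h3n : (1 : ℝ) ≤ 3 ^ n := one_le_pow₀ (by norm_num)
  obtain ⟨L, hL⟩ : ∃ L, L = Real.log (3 ^ n + 4) := ⟨_, rfl⟩
  have hL0 : 0 ≤ L := by rw [hL]; exact Real.log_nonneg (by linarith)
  obtain ⟨E, hE⟩ : ∃ E, E = E1 + 100 := ⟨_, rfl⟩
  have hE0 : 0 < E := by linarith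
  have hlE : 0 ≤ Real.log E := Real.log_nonneg (by linarith)
  obtain ⟨A, hA⟩ : ∃ A, A = A1 + A3 := ⟨_, rfl⟩
  have hA0 : 0 < A := by linarith
  obtain ⟨K0, hK0⟩ : ∃ K0, K0 = Real.log (5 + B + L) := ⟨_, rfl⟩
  have hK00 : 0 ≤ K0 := by rw [hK0]; exact Real.log_nonneg (by linarith)
  obtain ⟨l2, hl2⟩ : ∃ l2, l2 = Real.log 2 := ⟨_, rfl⟩
  have hl20 : 0 < l2 := by rw [hl2]; exact Real.log_pos (by norm_num)
  obtain ⟨A5, hA5⟩ : ∃ A5, A5 = A + (Real.log E + K0 + 6) / l2 + 2 := ⟨_, rfl⟩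
  have hA50 : 0 < A5 := by rw [hA5]; positivity
  obtain ⟨A6, hA6⟩ : ∃ A6, A6 = 5 / l2 := ⟨_, rfl⟩
  have hA60 : 0 < A6 := by rw [hA6]; positivity
  refine ⟨2 * A6 * A5, 1 / (2 * A6), by positivity, by positivity, ?_⟩
  intro c hc i N hiN ρ hρ hρ1 hsep y hy hyp
  obtain ⟨M, hM⟩ : ∃ M, M = i + N := ⟨_, rfl⟩
  rw [← hM] at hyp hiN ⊢
  obtain ⟨ε, hε⟩ : ∃ ε, ε = 1 / (2 * A6) := ⟨_, rfl⟩
  rw [← hε]
  have hε0 : 0 < ε := by rw [hε]; positivity
  have hM2 : (2 : ℝ) ≤ M := by exact_mod_cast hiN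
  have hM0 : (0 : ℝ) < M := by linarith
  obtain ⟨l, hl⟩ : ∃ l, l = Real.log M := ⟨_, rfl⟩
  have hll : l2 ≤ l := by rw [hl, hl2]; exact Real.log_le_log (by norm_num) hM2
  have hl0 : 0 < l := by linarith
  rw [← hl] at hyp ⊢
  have hbd := bd_orb hn hc i
  obtain ⟨hyx, hwin, hlow⟩ := esc_log hn hc hbd (by omega : N ≤ M) hy
  obtain ⟨a, ha⟩ : ∃ a, a = -Real.log ‖y - orb n c c i‖ := ⟨_, rfl⟩
  obtain ⟨m0, hm0⟩ : ∃ m0, m0 = -Real.log ρ := ⟨_, rfl⟩
  rw [← ha] at hwin hlow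
  rw [← hL] at hlow
  have hexpa : Real.exp (-a) = ‖y - orb n c c i‖ := by rw [ha, neg_neg, Real.exp_log hyx]
  have hexpm : Real.exp (-m0) = ρ := by rw [hm0, neg_neg, Real.exp_log hρ]
  have hm00 : 0 ≤ m0 := by
    rw [hm0]
    have := Real.log_nonpos hρ.le hρ1
    linarith
  obtain ⟨x, hx⟩ : ∃ x, x = a - m0 := ⟨_, rfl⟩
  have hquot : ‖y - orb n c c i‖ / ρ = Real.exp (-x) := by
    rw [← hexpa, ← hexpm, ← Real.exp_sub, hx]
    congr 1
    ring
  have hxC : 2 * A6 * A5 * l ^ 2 ≤ x := by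
    rw [← hexpa, ← hexpm, ← Real.exp_add, Real.exp_le_exp] at hyp
    rw [hx]
    linarith
  have hx0 : 0 < x := lt_of_lt_of_le (by positivity) hxC
  have hN1 : 1 ≤ N := by
    by_contra hlt
    have hN0 : N = 0 := by omega
    rw [hN0, orb_zero] at hy
    have h1 := hbd.norm_le
    have h2 : ‖y‖ ≤ ‖y - orb n c c i‖ + ‖orb n c c i‖ := by
      calc ‖y‖ = ‖(y - orb n c c i) + orb n c c i‖ := by rw [sub_add_cancel]
        _ ≤ _ := norm_add_le _ _
    have h3 : ‖y - orb n c c i‖ < 1 := by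
      rw [← hexpa, Real.exp_lt_one_iff]
      linarith
    linarith
  obtain ⟨r, hr⟩ : ∃ r, r = Real.exp (-(ε * x / l)) := ⟨_, rfl⟩
  have hpow : (‖y - orb n c c i‖ / ρ) ^ (ε / l) = r := by
    rw [hquot, ← Real.exp_mul, hr]
    congr 1
    ring
  rw [hpow]
  have hr0 : 0 < r := by rw [hr]; exact Real.exp_pos _
  have hr1 : r ≤ 1 := by
    rw [hr, Real.exp_le_one_iff]
    have : 0 ≤ ε * x / l := by positivity
    linarith
  by_contra hcon
  push Not at hcon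
  have hcb : c ∈ ball c r := mem_ball_self hr0
  have hball : ∀ t ∈ ball c r, ¬ ∃ m z, IsAttractingCycle (fun z => z ^ n + t) m z := by
    rintro t ht ⟨m, z, hz⟩
    rw [mem_ball, dist_eq_norm] at ht
    exact hcon t ht.le m z hz
  have hno : ∀ t ∈ ball c r, ¬ Pool.Agent.H548R3.MB.Centre n (M + 2) t := by
    rintro t ht ⟨p, hp1, hp2, hp3⟩
    exact hball t ht ⟨p, 0, Pool.Agent.H548R3.MB.att_of_centre hn hp1 hp3⟩
  have h0 : ∀ j < M, orb n c c j ≠ 0 := by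
    intro j _ h1
    apply Pool.Agent.H713R2.AR.P_ne_zero hn (hball c hcb) (n := j + 1) (by omega)
    rw [P_eq_orb hn, h1]
  have hnc : ∀ t, i < t → t ≤ M → orb n c c t ≠ orb n c c i :=
    fun t ht _ => no_coinc hn hc hr0 hball hcb ht
  have hnot : ∀ N, 1 ≤ N → N ≤ M → ∀ z, ¬ IsAttractingCycle (fun z => z ^ n + c) N z :=
    fun N _ _ z hz => hball c hcb ⟨N, z, hz⟩
  have hmass := hmassE c hc M r hr0 hr1 hno
  have hlEr : Real.log (E / r) = Real.log E + ε * x / l := by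
    rw [Real.log_div hE0.ne' hr0.ne', hr, Real.log_exp]
    ring
  have hEr1 : Real.log (E1 / r) ≤ Real.log (E / r) := by
    apply Real.log_le_log (by positivity)
    gcongr
    linarith
  have hEr3 : Real.log (100 / r) ≤ Real.log (E / r) := by
    apply Real.log_le_log (by positivity)
    gcongr
    linarith
  have hAl1 : A1 * l ≤ A * l := by
    apply mul_le_mul_of_nonneg_right _ hl0.le
    linarith
  have hAl3 : A3 * l ≤ A * l := by
    apply mul_le_mul_of_nonneg_right _ hl0.le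
    linarith
  have hεx : 0 ≤ ε * x / l := by positivity
  have hkk := hB c hc M (by omega) h0 hnot
  have hNM : (N : ℝ) ≤ M := by exact_mod_cast (by omega : N ≤ M)
  have hKM : Real.log (5 + (B + L) * M) ≤ K0 + l := by
    rw [hK0, hl, ← Real.log_mul (by positivity) hM0.ne']
    apply Real.log_le_log (by positivity)
    nlinarith
  have haL : a ≤ L * M := by
    calc a ≤ N * L := hlow
      _ ≤ M * L := by gcongr
      _ = L * M := mul_comm _ _
  have ha0 : 0 ≤ a := by linarith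
  have key := quasix hn hc hM hN1 h0 hnc hnot (Q := A * l + Real.log (E / r)) (a := a)
    (m0 := m0) (by rw [hlEr]; positivity) hm00 hy hexpa.ge
    (by
      intro J m hiJ hJM hmm hdeep hma
      have hmn : 0 ≤ m := hm00.trans hmm
      have hEr0 : 0 ≤ Real.log (E / r) := by rw [hlEr]; positivity
      have hsepJ : ∀ t < J, t ≠ i → Real.exp (-m) ≤ ‖orb n c c t - orb n c c i‖ := by
        intro t htJ hti
        rcases Nat.lt_or_gt_of_ne hti with h1 | h1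
        · refine le_trans ?_ (hsep t h1)
          rw [← hexpm]
          apply Real.exp_le_exp.mpr
          linarith
        · rw [← exp_kd (hnc t h1 (by omega))]
          apply Real.exp_le_exp.mpr
          have := hdeep t h1 htJ
          linarith
      have h1 := hA1 c hc M hiN h0 hnot (E1 / r) (by positivity) hmass i J m hiJ hJM hmn hsepJ
        (by rw [← hl]; linarith)
      have h3 := hA3 c hc r hr0 hr1 hball M hiN i J m hiJ hJM hmn hsepJ
        (by rw [← hl]; linarith)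
      rw [← hl] at h1 h3
      obtain ⟨h1, h2⟩ := h1
      refine ⟨by linarith, by linarith, by linarith⟩)
    (K := K0 + l)
    (by
      intro t ht1 ht2
      refine le_trans ?_ hKM
      have h1 := hkk t (by omega) ht2
      have h2 := kk_ge hn hc h0 (by omega : 1 ≤ t) ht2
      apply Real.log_le_log (by linarith)
      have : 0 ≤ L * (M : ℝ) := by positivity
      linarith)
    (by
      refine le_trans ?_ hKM
      apply Real.log_le_log (by linarith)
      have : 0 ≤ B * (M : ℝ) := by positivity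
      linarith)
    (u := A * l + Real.log (E / r) + (K0 + l) + Real.log M + 6) le_rfl
    (l := Nat.log 2 N + 1) (Nat.lt_pow_succ_log_self (by norm_num) N)
  rw [hlEr, ← hl] at key
  obtain ⟨u, hu⟩ : ∃ u, u = A * l + (Real.log E + ε * x / l) + (K0 + l) + l + 6 := ⟨_, rfl⟩
  rw [← hu] at key
  have hu1 : u ≤ A5 * l + ε * x / l := by
    have h1 : Real.log E + K0 + 6 ≤ (Real.log E + K0 + 6) / l2 * l := by
      rw [div_mul_eq_mul_div, le_div_iff₀ hl20]
      gcongr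
    rw [hu, hA5]
    linarith
  have hu2 : 0 ≤ A5 * l + ε * x / l := by positivity
  have hlog : ((Nat.log 2 N : ℕ) : ℝ) ≤ l / l2 := by
    rw [le_div_iff₀ hl20, hl2, hl, ← Real.log_pow]
    apply Real.log_le_log (by positivity)
    have h1 : 2 ^ Nat.log 2 N ≤ N := Nat.pow_log_le_self 2 (by omega)
    exact_mod_cast h1.trans (by omega : N ≤ M)
  have hcoef : 2 * ((Nat.log 2 N + 1 : ℕ) : ℝ) + 1 ≤ A6 * l := by
    have h1 : 1 ≤ l / l2 := by rw [le_div_iff₀ hl20]; linarith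
    have e : A6 * l = 5 * (l / l2) := by rw [hA6]; ring
    rw [e]
    push_cast
    linarith
  have h5 : x < A6 * l * (A5 * l + ε * x / l) := by
    have h6 : x < (2 * ((Nat.log 2 N + 1 : ℕ) : ℝ) + 1) * u := by rw [hx]; linarith
    refine lt_of_lt_of_le h6 ?_
    calc (2 * ((Nat.log 2 N + 1 : ℕ) : ℝ) + 1) * u
        ≤ (2 * ((Nat.log 2 N + 1 : ℕ) : ℝ) + 1) * (A5 * l + ε * x / l) := by gcongr
      _ ≤ A6 * l * (A5 * l + ε * x / l) := by gcongr
  have h6 : A6 * l * (A5 * l + ε * x / l) = A6 * A5 * l ^ 2 + x / 2 := by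
    rw [hε]
    field_simp
  rw [h6] at h5
  linarith

end Pool.Agent.T2h24.GP
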